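import Pool.Agent.W5h94.AM.Defs

set_option autoImplicit false

/-!
# A coarse lamplighter
-/

open SimpleGraph

namespace Pool.Agent.W5h94.AM

/-- A coarse lamplighter on the half line: `pt Y k` is the state in which the lamps in `Y` are on and
the cursor is at `k`. -/
structure Lamp {V : Type} (G : SimpleGraph V) (c K : ℕ) where
  pt : Finset ℕ → ℕ → V
  C : ℕ
  mv : ∀ Y k, G.dist (pt Y k) (pt Y (k + 1)) ≤ c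
  tg : ∀ Y k, k ∉ Y → G.dist (pt Y k) (pt (insert k Y) k) ≤ c
  far : ∀ Y k Y' k' j, j ∈ Y → j ∉ Y' → (k + C < j ∨ j + C < k) → K ≤ G.dist (pt Y k) (pt Y' k')
  far' : ∀ Y k Y' k' j, j ∈ Y → j ∉ Y' → (k' + C < j ∨ j + C < k') →
    K ≤ G.dist (pt Y k) (pt Y' k')

/-- (LAMP) -/
def S_LAMP : Prop := ∀ (V : Type) (G : SimpleGraph V) (c K : ℕ), Lamp G c K → ∀ n : ℕ,
  ∃ (B : Fin n → Set V) (P : Sym2 (Fin n) → Set V),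
    (∀ v, CConn G c (B v)) ∧ (∀ e, ¬ e.IsDiag → CConn G c (P e)) ∧
    (∀ e, ¬ e.IsDiag → ∀ v ∈ e, (P e ∩ B v).Nonempty) ∧
    (∀ u v, u ≠ v → ∀ x ∈ B u, ∀ y ∈ B v, K ≤ G.dist x y) ∧
    (∀ e f, ¬ e.IsDiag → ¬ f.IsDiag → e ≠ f → ∀ x ∈ P e, ∀ y ∈ P f, K ≤ G.dist x y) ∧
    ∀ e, ¬ e.IsDiag → ∀ w, w ∉ e → ∀ x ∈ P e, ∀ y ∈ B w, K ≤ G.dist x y

end Pool.Agent.W5h94.AM
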