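import Mathlib

set_option autoImplicit false

/-!
# Asymptotic minors: definitions and statements of the lemmas
-/

open SimpleGraph

namespace Pool.Agent.W5h94.AM

/-- `G` has a `K`-fat `H` minor: connected subgraphs `B v` for the vertices `v` of `H` and paths `P e`
for the edges `e` of `H` such that `P e` joins `B u` to `B v` if `e = uv`, and any two of these sets
are at distance at least `K` from each other, except the pairs `P e`, `B v` with `v` an endpoint of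
`e`. -/
def HasFatMinor {V W : Type} (G : SimpleGraph V) (H : SimpleGraph W) (K : ℕ) : Prop :=
  ∃ (B : W → G.Subgraph) (P : Sym2 W → Set V),
    (∀ v, (B v).Connected) ∧
    (∀ u v, H.Adj u v → ∃ (a b : V) (p : G.Walk a b), p.IsPath ∧ a ∈ (B u).verts ∧
      b ∈ (B v).verts ∧ P s(u, v) = {x | x ∈ p.support}) ∧
    (∀ u v, u ≠ v → ∀ x ∈ (B u).verts, ∀ y ∈ (B v).verts, K ≤ G.dist x y) ∧
    (∀ e ∈ H.edgeSet, ∀ f ∈ H.edgeSet, e ≠ f → ∀ x ∈ P e, ∀ y ∈ P f, K ≤ G.dist x y) ∧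
    ∀ e ∈ H.edgeSet, ∀ w, w ∉ e → ∀ x ∈ P e, ∀ y ∈ (B w).verts, K ≤ G.dist x y

/-- `H` is an asymptotic minor of `G`. -/
def AsymptoticMinor {V W : Type} (H : SimpleGraph W) (G : SimpleGraph V) : Prop :=
  ∀ K : ℕ, 1 ≤ K → HasFatMinor G H K

/-- The set `X` is connected at scale `c`. -/
def CConn {V : Type} (G : SimpleGraph V) (c : ℕ) (X : Set V) : Prop :=
  X.Nonempty ∧ ∀ x ∈ X, ∀ y ∈ X, Relation.ReflTransGen (fun u v => v ∈ X ∧ G.dist u v ≤ c) x y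

/-- (THICK) Fat minors from sets which are connected at scale `c`. -/
def S_THICK : Prop := ∀ (V W : Type) (G : SimpleGraph V), G.Connected → ∀ (H : SimpleGraph W)
  (c K : ℕ) (B : W → Set V) (P : Sym2 W → Set V),
  (∀ v, CConn G c (B v)) → (∀ e ∈ H.edgeSet, CConn G c (P e)) →
  (∀ e ∈ H.edgeSet, ∀ v ∈ e, (P e ∩ B v).Nonempty) →
  (∀ u v, u ≠ v → ∀ x ∈ B u, ∀ y ∈ B v, K + 2 * c ≤ G.dist x y) →
  (∀ e ∈ H.edgeSet, ∀ f ∈ H.edgeSet, e ≠ f → ∀ x ∈ P e, ∀ y ∈ P f, K + 2 * c ≤ G.dist x y) →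
  (∀ e ∈ H.edgeSet, ∀ w, w ∉ e → ∀ x ∈ P e, ∀ y ∈ B w, K + 2 * c ≤ G.dist x y) →
  HasFatMinor G H K

/-- `q` is the right or the upper neighbour of `p`. -/
def Step (p q : ℤ × ℤ) : Prop := (q.1 = p.1 + 1 ∧ q.2 = p.2) ∨ (q.1 = p.1 ∧ q.2 = p.2 + 1)

/-- A coarse grid with overpasses: `E p q` joins the points `pt p` and `pt q` for neighbours `p`, `q`
of the grid, and `F y` is an overpass over the point `(0, 2 y)` of the grid. -/
structure Over {V : Type} (G : SimpleGraph V) (c K : ℕ) where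
  pt : ℤ × ℤ → V
  E : ℤ × ℤ → ℤ × ℤ → Set V
  F : ℤ → Set V
  E_conn : ∀ p q, Step p q → CConn G c (E p q) ∧ pt p ∈ E p q ∧ pt q ∈ E p q
  F_conn : ∀ y, CConn G c (F y) ∧ pt (0, 2 * y - 1) ∈ F y ∧ pt (0, 2 * y + 1) ∈ F y
  EE : ∀ p q p' q', Step p q → Step p' q' → p ≠ p' → p ≠ q' → q ≠ p' → q ≠ q' →
    ∀ x ∈ E p q, ∀ x' ∈ E p' q', K ≤ G.dist x x'
  FE : ∀ y p q, Step p q → p ≠ (0, 2 * y - 1) → p ≠ (0, 2 * y + 1) → q ≠ (0, 2 * y - 1) →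
    q ≠ (0, 2 * y + 1) → ∀ x ∈ F y, ∀ x' ∈ E p q, K ≤ G.dist x x'
  FF : ∀ y y', y + 2 ≤ y' → ∀ x ∈ F y, ∀ x' ∈ F y', K ≤ G.dist x x'

/-- (ROUTE) A coarse grid with overpasses contains the complete graphs. -/
def S_ROUTE : Prop := ∀ (V : Type) (G : SimpleGraph V) (c K : ℕ), Over G c K → ∀ n : ℕ,
  ∃ (B : Fin n → Set V) (P : Sym2 (Fin n) → Set V),
    (∀ v, CConn G c (B v)) ∧ (∀ e, ¬ e.IsDiag → CConn G c (P e)) ∧
    (∀ e, ¬ e.IsDiag → ∀ v ∈ e, (P e ∩ B v).Nonempty) ∧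
    (∀ u v, u ≠ v → ∀ x ∈ B u, ∀ y ∈ B v, K ≤ G.dist x y) ∧
    (∀ e f, ¬ e.IsDiag → ¬ f.IsDiag → e ≠ f → ∀ x ∈ P e, ∀ y ∈ P f, K ≤ G.dist x y) ∧
    ∀ e, ¬ e.IsDiag → ∀ w, w ∉ e → ∀ x ∈ P e, ∀ y ∈ B w, K ≤ G.dist x y

/-- (LINE) An infinite finitely generated group contains a geodesic line. -/
def S_LINE : Prop := ∀ (Q : Type) [Group Q] [Infinite Q] (T : Set Q), T.Finite →
  Subgroup.closure T = ⊤ →
  ∃ γ : ℤ → Q, ∀ x y, ((mulCayley T).dist (γ x) (γ y) : ℤ) = |x - y|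

/-- (FAR) A group in a bounded neighbourhood of a geodesic line is virtually cyclic. -/
def S_FAR : Prop := ∀ (Q : Type) [Group Q] (T : Set Q), T.Finite → Subgroup.closure T = ⊤ →
  ∀ (γ : ℤ → Q), (∀ x y, ((mulCayley T).dist (γ x) (γ y) : ℤ) = |x - y|) →
  ∀ R : ℕ, (∀ q, ∃ x, (mulCayley T).dist q (γ x) ≤ R) →
  ∃ g : Q, (Subgroup.zpowers g).FiniteIndex

/-- (WM) Facts on the word metric. -/
def S_WM : Prop := ∀ (Q : Type) [Group Q] (T : Set Q), T.Finite → Subgroup.closure T = ⊤ →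
  (mulCayley T).Connected ∧
  (∀ g x y : Q, (mulCayley T).dist (g * x) (g * y) = (mulCayley T).dist x y) ∧
  (∀ (x : Q) (n : ℕ), {y | (mulCayley T).dist x y ≤ n}.Finite) ∧
  (∀ x y : Q, (mulCayley T).dist x y ≤ 1 → x⁻¹ * y ∈ T ∨ y⁻¹ * x ∈ T ∨ x = y) ∧
  ∀ x y : Q, ∃ f : ℕ → Q, f 0 = x ∧ f ((mulCayley T).dist x y) = y ∧
    ∀ i j, i ≤ (mulCayley T).dist x y → j ≤ (mulCayley T).dist x y →
      ((mulCayley T).dist (f i) (f j) : ℤ) = |(i : ℤ) - j|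

end Pool.Agent.W5h94.AM
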