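import Mathlib
import Pool.Agent.W5h94.AM.Defs

set_option autoImplicit false

/-!
# A coarse grid with overpasses contains the complete graphs
-/

open SimpleGraph

namespace Pool.Agent.W5h94.AM

namespace Route

section conn

variable {V : Type} {G : SimpleGraph V} {c : ℕ}

/-- connected at scale `c` inside `X` -/
def Cn (G : SimpleGraph V) (c : ℕ) (X : Set V) (x y : V) : Prop :=
  Relation.ReflTransGen (fun u v => v ∈ X ∧ G.dist u v ≤ c) x y

theorem Cn.mono {X Y : Set V} (h : X ⊆ Y) {x y : V} (hxy : Cn G c X x y) : Cn G c Y x y := by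
  unfold Cn at hxy
  induction hxy with
  | refl => exact Relation.ReflTransGen.refl
  | tail _ h' ih => exact Relation.ReflTransGen.tail ih ⟨h h'.1, h'.2⟩

theorem Cn.mem {X : Set V} {x y : V} (hx : x ∈ X) (h : Cn G c X x y) : y ∈ X := by
  unfold Cn at h
  induction h with
  | refl => exact hx
  | tail _ h _ => exact h.1

theorem Cn.symm {X : Set V} {x y : V} (hx : x ∈ X) (h : Cn G c X x y) : Cn G c X y x := by
  unfold Cn at h
  induction h with
  | refl => exact Relation.ReflTransGen.refl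
  | tail hab hbc ih =>
    exact Relation.ReflTransGen.head ⟨Cn.mem (G := G) (c := c) hx hab,
      by rw [SimpleGraph.dist_comm]; exact hbc.2⟩ ih

theorem cconn_of {X : Set V} {x0 : V} (h0 : x0 ∈ X) (h : ∀ x ∈ X, Cn G c X x0 x) :
    CConn G c X :=
  ⟨⟨x0, h0⟩, fun x hx y hy => Relation.ReflTransGen.trans ((h x hx).symm h0) (h y hy)⟩

theorem Cn.of_cconn {X Z : Set V} {x0 z z' : V} (hZ : CConn G c Z) (hZX : Z ⊆ X)
    (h : Cn G c X x0 z) (hz : z ∈ Z) (hz' : z' ∈ Z) : Cn G c X x0 z' :=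
  Relation.ReflTransGen.trans h (Cn.mono hZX (hZ.2 z hz z' hz'))

end conn

section grid

/-- connected by unit steps inside `S` -/
def Rch (S : Set (ℤ × ℤ)) (p q : ℤ × ℤ) : Prop :=
  Relation.ReflTransGen (fun p q => q ∈ S ∧ (Step p q ∨ Step q p)) p q

theorem Rch.mem {S : Set (ℤ × ℤ)} {p q : ℤ × ℤ} (hp : p ∈ S) (h : Rch S p q) : q ∈ S := by
  unfold Rch at h
  induction h with
  | refl => exact hp
  | tail _ h _ => exact h.1

theorem rch_dir {S : Set (ℤ × ℤ)} {p0 : ℤ × ℤ} (w : ℕ → ℤ × ℤ)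
    (hw : ∀ k, Step (w k) (w (k + 1)) ∨ Step (w (k + 1)) (w k)) (k : ℕ) (h : Rch S p0 (w 0))
    (hS : ∀ j ≤ k, w j ∈ S) : Rch S p0 (w k) := by
  induction k with
  | zero => exact h
  | succ k ih =>
    exact Relation.ReflTransGen.tail (ih fun j hj => hS j (by omega)) ⟨hS (k + 1) le_rfl, hw k⟩

theorem rch_right {S : Set (ℤ × ℤ)} {p0 : ℤ × ℤ} {a b Y : ℤ} (hab : a ≤ b)
    (h : Rch S p0 (a, Y)) (hS : ∀ X, a ≤ X → X ≤ b → (X, Y) ∈ S) : Rch S p0 (b, Y) := by
  obtain ⟨k, hk⟩ := Int.le.dest hab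
  have := rch_dir (S := S) (p0 := p0) (fun j => (a + j, Y))
    (fun j => Or.inl (Or.inl ⟨by push_cast; ring, rfl⟩)) k (by simpa using h)
    (fun j hj => hS _ (by omega) (by omega))
  simpa [hk] using this

theorem rch_left {S : Set (ℤ × ℤ)} {p0 : ℤ × ℤ} {a b Y : ℤ} (hab : a ≤ b)
    (h : Rch S p0 (b, Y)) (hS : ∀ X, a ≤ X → X ≤ b → (X, Y) ∈ S) : Rch S p0 (a, Y) := by
  obtain ⟨k, hk⟩ := Int.le.dest hab
  have := rch_dir (S := S) (p0 := p0) (fun j => (b - j, Y))
    (fun j => Or.inr (Or.inl ⟨by push_cast; ring, rfl⟩)) k (by simpa using h)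
    (fun j hj => hS _ (by omega) (by omega))
  have e : b - k = a := by omega
  simpa [e] using this

theorem rch_up {S : Set (ℤ × ℤ)} {p0 : ℤ × ℤ} {a b X : ℤ} (hab : a ≤ b)
    (h : Rch S p0 (X, a)) (hS : ∀ Y, a ≤ Y → Y ≤ b → (X, Y) ∈ S) : Rch S p0 (X, b) := by
  obtain ⟨k, hk⟩ := Int.le.dest hab
  have := rch_dir (S := S) (p0 := p0) (fun j => (X, a + j))
    (fun j => Or.inl (Or.inr ⟨rfl, by push_cast; ring⟩)) k (by simpa using h)
    (fun j hj => hS _ (by omega) (by omega))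
  simpa [hk] using this

/-- distance to the nearest number `2 N` modulo `4 N` -/
def D (N t : ℤ) : ℤ := max (t % (4 * N) - 2 * N) (2 * N - t % (4 * N))

/-- the height function, whose levels are the snakes -/
def g (N : ℤ) (p : ℤ × ℤ) : ℤ :=
  if 0 ≤ p.1 then 2 * N - max (2 * p.1 - 1) (D N (p.2 + 1))
  else max (-2 * p.1 - 1) (2 * N - D N (p.2 + 1))

/-- the snake number `i` -/
def S (N i : ℤ) : Set (ℤ × ℤ) := {p | g N p = 2 * i + 1}

theorem D_A {N : ℤ} (hN : 0 < N) (m v : ℤ) (h1 : -(2 * N) ≤ v) (h2 : v ≤ 2 * N) :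
    D N (4 * N * m + 2 * N + v) = max v (-v) := by
  unfold D
  have e1 : 4 * N * m + 2 * N + v = (2 * N + v) + 4 * N * m := by ring
  rw [e1, Int.add_mul_emod_self_left]
  rcases lt_or_eq_of_le h2 with h | h
  · rw [Int.emod_eq_of_lt (by omega) (by omega)]
    omega
  · have e2 : 2 * N + v = 4 * N := by omega
    rw [e2, Int.emod_self]
    omega

theorem memR {N : ℤ} (hN : 0 < N) {i X Y m v : ℤ} (hX : 0 ≤ X)
    (ht : Y + 1 = 4 * N * m + 2 * N + v) (h1 : -(2 * N) ≤ v) (h2 : v ≤ 2 * N)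
    (hm : max (2 * X - 1) (max v (-v)) = 2 * N - 2 * i - 1) : (X, Y) ∈ S N i := by
  change g N (X, Y) = 2 * i + 1
  unfold g
  simp only [hX, if_true]
  rw [ht, D_A hN m v h1 h2, hm]
  ring

theorem memL {N : ℤ} (hN : 0 < N) {i X Y m v : ℤ} (hX : X ≤ 0)
    (ht : Y + 1 = 4 * N * m + v) (h1 : -(2 * N) ≤ v) (h2 : v ≤ 2 * N)
    (hm : max (-2 * X - 1) (max v (-v)) = 2 * i + 1) : (X, Y) ∈ S N i := by
  change g N (X, Y) = 2 * i + 1
  have hD : D N (Y + 1) = 2 * N - max v (-v) := by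
    rcases le_total 0 v with h | h
    · have e : Y + 1 = 4 * N * m + 2 * N + (v - 2 * N) := by rw [ht]; ring
      rw [e, D_A hN m _ (by omega) (by omega)]
      omega
    · have e : Y + 1 = 4 * N * (m - 1) + 2 * N + (v + 2 * N) := by rw [ht]; ring
      rw [e, D_A hN (m - 1) _ (by omega) (by omega)]
      omega
  unfold g
  rw [hD]
  dsimp only
  split_ifs with h
  · have : X = 0 := le_antisymm hX h
    subst this
    omega
  · omega

theorem even_of_mem {N : ℤ} {i Y : ℤ} (h : ((0 : ℤ), Y) ∈ S N i) : Y % 2 = 0 := by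
  change g N (0, Y) = 2 * i + 1 at h
  unfold g D at h
  simp only [le_refl, if_true] at h
  have h1 := Int.mul_ediv_add_emod (Y + 1) (4 * N)
  set r := (Y + 1) % (4 * N)
  have h2 : 4 * N * ((Y + 1) / (4 * N)) = 4 * (N * ((Y + 1) / (4 * N))) := by ring
  rw [h2] at h1
  set z := N * ((Y + 1) / (4 * N))
  omega

theorem reach {N : ℤ} {i : ℤ} (hi0 : 0 ≤ i) (hi : i < N) (m : ℕ) :
    Rch (S N i) (0, 2 * i) (0, 4 * N * m + 2 * i) := by
  have hN : 0 < N := by omega
  induction m with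
  | zero =>
    have : 4 * N * ((0 : ℕ) : ℤ) + 2 * i = 2 * i := by simp
    rw [this]
    exact Relation.ReflTransGen.refl
  | succ m ih =>
    -- 1
    have s1 : Rch (S N i) (0, 2 * i) (N - i, 4 * N * m + 2 * i) := by
      refine rch_right (by omega) ih fun X h1 h2 => ?_
      exact memR hN h1 (m := m) (v := -(2 * N - 2 * i - 1)) (by ring) (by omega) (by omega)
        (by omega)
    -- 2
    have s2 : Rch (S N i) (0, 2 * i) (N - i, 4 * N * m + (4 * N - 2 - 2 * i)) := by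
      refine rch_up (by omega) s1 fun Y h1 h2 => ?_
      exact memR hN (by omega) (m := m) (v := Y + 1 - 4 * N * m - 2 * N) (by ring) (by omega)
        (by omega) (by omega)
    -- 3
    have s3 : Rch (S N i) (0, 2 * i) (0, 4 * N * m + (4 * N - 2 - 2 * i)) := by
      refine rch_left (by omega) s2 fun X h1 h2 => ?_
      exact memR hN h1 (m := m) (v := 2 * N - 2 * i - 1) (by ring) (by omega) (by omega)
        (by omega)
    -- 4
    have s4 : Rch (S N i) (0, 2 * i) (-(i + 1), 4 * N * m + (4 * N - 2 - 2 * i)) := by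
      refine rch_left (by omega) s3 fun X h1 h2 => ?_
      exact memL hN h2 (m := m + 1) (v := -(2 * i + 1)) (by ring) (by omega) (by omega)
        (by omega)
    -- 5
    have s5 : Rch (S N i) (0, 2 * i) (-(i + 1), 4 * N * (m + 1) + 2 * i) := by
      have e : 4 * N * ((m : ℤ) + 1) = 4 * N * m + 4 * N := by ring
      rw [e]
      refine rch_up (by omega) s4 fun Y h1 h2 => ?_
      exact memL hN (by omega) (m := m + 1) (v := Y + 1 - 4 * N * (m + 1)) (by ring)
        (by rw [e]; omega) (by rw [e]; omega) (by rw [e]; omega)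
    -- 6
    have s6 : Rch (S N i) (0, 2 * i) (0, 4 * N * (m + 1) + 2 * i) := by
      refine rch_right (by omega) s5 fun X h1 h2 => ?_
      exact memL hN h2 (m := m + 1) (v := 2 * i + 1) (by ring) (by omega) (by omega)
        (by omega)
    simpa using s6

theorem base_mem {N : ℤ} {i : ℤ} (hi0 : 0 ≤ i) (hi : i < N) (m : ℤ) {X : ℤ} (hX : 0 ≤ X)
    (hX1 : X ≤ 1) : (X, 4 * N * m + 2 * i) ∈ S N i :=
  memR (by omega) hX (m := m) (v := -(2 * N - 2 * i - 1)) (by ring) (by omega) (by omega)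
    (by omega)

end grid

section main

variable {V : Type} {G : SimpleGraph V} {c K : ℕ}

/-- the branch sets -/
def Bs (O : Over G c K) (N i : ℤ) : Set V :=
  {x | ∃ p q, Step p q ∧ Rch (S N i) (0, 2 * i) p ∧ Rch (S N i) (0, 2 * i) q ∧ x ∈ O.E p q}

theorem pt_mem (O : Over G c K) {N i : ℤ} (hi0 : 0 ≤ i) (hi : i < N) (m : ℕ) :
    O.pt (0, 4 * N * m + 2 * i) ∈ Bs O N i := by
  have h1 := reach hi0 hi m
  have hst : Step (0, 4 * N * m + 2 * i) (1, 4 * N * m + 2 * i) := Or.inl ⟨by simp, rfl⟩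
  have h2 : Rch (S N i) (0, 2 * i) (1, 4 * N * m + 2 * i) :=
    Relation.ReflTransGen.tail h1 ⟨base_mem hi0 hi m (by omega) le_rfl, Or.inl hst⟩
  exact ⟨_, _, hst, h1, h2, (O.E_conn _ _ hst).2.1⟩

theorem Bs_conn (O : Over G c K) {N i : ℤ} (hi0 : 0 ≤ i) (hi : i < N) :
    CConn G c (Bs O N i) := by
  have h0 : O.pt (0, 2 * i) ∈ Bs O N i := by
    have := pt_mem O hi0 hi 0
    simpa using this
  have hpt : ∀ p, Rch (S N i) (0, 2 * i) p → Cn G c (Bs O N i) (O.pt (0, 2 * i)) (O.pt p) := by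
    intro p hp
    unfold Rch at hp
    induction hp with
    | refl => exact Relation.ReflTransGen.refl
    | @tail p q hp hpq ih =>
      have hq : Rch (S N i) (0, 2 * i) q := Relation.ReflTransGen.tail hp hpq
      rcases hpq.2 with h | h
      · exact Cn.of_cconn (O.E_conn p q h).1 (fun x hx => ⟨p, q, h, hp, hq, hx⟩) ih
          (O.E_conn p q h).2.1 (O.E_conn p q h).2.2
      · exact Cn.of_cconn (O.E_conn q p h).1 (fun x hx => ⟨q, p, h, hq, hp, hx⟩) ih
          (O.E_conn q p h).2.2 (O.E_conn q p h).2.1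
  refine cconn_of h0 ?_
  rintro x ⟨p, q, hst, hp, hq, hx⟩
  exact Cn.of_cconn (O.E_conn p q hst).1 (fun x hx => ⟨p, q, hst, hp, hq, hx⟩) (hpt p hp)
    (O.E_conn p q hst).2.1 hx

theorem step_up (a : ℤ) : Step (0, a) (0, a + 1) := Or.inr ⟨rfl, rfl⟩

/-- the paths -/
def Ps (O : Over G c K) (r r' : ℤ) : Set V :=
  O.E (0, 2 * r) (0, 2 * r + 1) ∪ {x | ∃ y, r < y ∧ y < r' ∧ x ∈ O.F y} ∪
    O.E (0, 2 * r' - 1) (0, 2 * r' - 1 + 1)

theorem Ps_left (O : Over G c K) (r r' : ℤ) : O.pt (0, 2 * r) ∈ Ps O r r' :=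
  Or.inl (Or.inl (O.E_conn _ _ (step_up (2 * r))).2.1)

theorem Ps_right (O : Over G c K) (r r' : ℤ) : O.pt (0, 2 * r') ∈ Ps O r r' := by
  have h := (O.E_conn _ _ (step_up (2 * r' - 1))).2.2
  have e : 2 * r' - 1 + 1 = 2 * r' := by ring
  refine Or.inr ?_
  have h' := h
  rw [show O.pt (0, 2 * r' - 1 + 1) = O.pt (0, 2 * r') by rw [e]] at h'
  exact h'

theorem Ps_conn (O : Over G c K) {r r' : ℤ} (h : r < r') : CConn G c (Ps O r r') := by
  have hst := step_up (2 * r)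
  have h1 : Cn G c (Ps O r r') (O.pt (0, 2 * r)) (O.pt (0, 2 * r + 1)) :=
    Cn.of_cconn (O.E_conn _ _ hst).1 (fun x hx => Or.inl (Or.inl hx)) Relation.ReflTransGen.refl
      (O.E_conn _ _ hst).2.1 (O.E_conn _ _ hst).2.2
  have h2 : ∀ k : ℕ, r + k < r' →
      Cn G c (Ps O r r') (O.pt (0, 2 * r)) (O.pt (0, 2 * (r + k) + 1)) := by
    intro k
    induction k with
    | zero => intro _; simpa using h1
    | succ k ih =>
      intro hk
      have ih' := ih (by push_cast at hk; omega)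
      have hF := O.F_conn (r + (k + 1 : ℕ))
      have e : 2 * (r + ((k + 1 : ℕ) : ℤ)) - 1 = 2 * (r + k) + 1 := by push_cast; ring
      rw [← e] at ih'
      exact Cn.of_cconn hF.1 (fun x hx => Or.inl (Or.inr ⟨_, by push_cast; omega, hk, hx⟩)) ih'
        hF.2.1 hF.2.2
  have h3 : ∀ y : ℤ, r ≤ y → y < r' →
      Cn G c (Ps O r r') (O.pt (0, 2 * r)) (O.pt (0, 2 * y + 1)) := by
    intro y hy hy'
    obtain ⟨k, hk⟩ := Int.le.dest hy
    rw [← hk]
    exact h2 k (by omega)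
  refine cconn_of (Ps_left O r r') ?_
  rintro x ((hx | ⟨y, hy, hy', hx⟩) | hx)
  · exact Cn.of_cconn (O.E_conn _ _ hst).1 (fun x hx => Or.inl (Or.inl hx))
      Relation.ReflTransGen.refl (O.E_conn _ _ hst).2.1 hx
  · have h4 := h3 (y - 1) (by omega) (by omega)
    have e : 2 * (y - 1) + 1 = 2 * y - 1 := by ring
    rw [e] at h4
    exact Cn.of_cconn (O.F_conn y).1 (fun x hx => Or.inl (Or.inr ⟨y, hy, hy', hx⟩)) h4
      (O.F_conn y).2.1 hx
  · have h4 := h3 (r' - 1) (by omega) (by omega)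
    have e : 2 * (r' - 1) + 1 = 2 * r' - 1 := by ring
    rw [e] at h4
    have hst' := step_up (2 * r' - 1)
    exact Cn.of_cconn (O.E_conn _ _ hst').1 (fun x hx => Or.inr hx) h4
      (O.E_conn _ _ hst').2.1 hx

/-- pieces of the column -/
def Pc (O : Over G c K) (lo hi : ℤ) (x : V) : Prop :=
  (∃ a, lo ≤ a ∧ a + 1 ≤ hi ∧ x ∈ O.E (0, a) (0, a + 1)) ∨
    ∃ y, lo ≤ 2 * y - 1 ∧ 2 * y + 1 ≤ hi ∧ x ∈ O.F y

theorem Ps_pc (O : Over G c K) {r r' lo hi : ℤ} (h : r < r') (hlo : lo ≤ 2 * r)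
    (hhi : 2 * r' ≤ hi) {x : V} (hx : x ∈ Ps O r r') : Pc O lo hi x := by
  rcases hx with (hx | ⟨y, hy, hy', hx⟩) | hx
  · exact Or.inl ⟨2 * r, hlo, by omega, hx⟩
  · exact Or.inr ⟨y, by omega, by omega, hx⟩
  · exact Or.inl ⟨2 * r' - 1, by omega, by omega, hx⟩

theorem ne_snd {a b : ℤ} (h : a ≠ b) : ((0 : ℤ), a) ≠ (0, b) := fun e => h (congrArg Prod.snd e)

theorem Pc_far (O : Over G c K) {lo hi lo' hi' : ℤ} (h : hi + 2 ≤ lo') {x x' : V}
    (hx : Pc O lo hi x) (hx' : Pc O lo' hi' x') : K ≤ G.dist x x' := by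
  rcases hx with ⟨a, h1, h2, hx⟩ | ⟨y, h1, h2, hx⟩
  · rcases hx' with ⟨a', h1', h2', hx'⟩ | ⟨y', h1', h2', hx'⟩
    · exact O.EE _ _ _ _ (step_up a) (step_up a') (ne_snd (by omega)) (ne_snd (by omega))
        (ne_snd (by omega)) (ne_snd (by omega)) x hx x' hx'
    · rw [SimpleGraph.dist_comm]
      exact O.FE y' _ _ (step_up a) (ne_snd (by omega)) (ne_snd (by omega)) (ne_snd (by omega))
        (ne_snd (by omega)) x' hx' x hx
  · rcases hx' with ⟨a', h1', h2', hx'⟩ | ⟨y', h1', h2', hx'⟩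
    · exact O.FE y _ _ (step_up a') (ne_snd (by omega)) (ne_snd (by omega)) (ne_snd (by omega))
        (ne_snd (by omega)) x hx x' hx'
    · exact O.FF y y' (by omega) x hx x' hx'

/-- a path and a branch set which is not met -/
theorem Ps_Bs (O : Over G c K) {N i : ℤ} {r r' : ℤ} (hbase : ((0 : ℤ), 2 * i) ∈ S N i)
    (h1 : ((0 : ℤ), 2 * r) ∉ S N i) (h2 : ((0 : ℤ), 2 * r') ∉ S N i) {x x' : V}
    (hx : x ∈ Ps O r r') (hx' : x' ∈ Bs O N i) : K ≤ G.dist x x' := by
  obtain ⟨p, q, hst, hp, hq, hx'⟩ := hx'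
  have hp' := hp.mem hbase
  have hq' := hq.mem hbase
  have hodd : ∀ b : ℤ, ((0 : ℤ), 2 * b + 1) ∉ S N i := by
    intro b hb
    have := even_of_mem hb
    omega
  have hodd' : ∀ b : ℤ, ((0 : ℤ), 2 * b - 1) ∉ S N i := by
    intro b hb
    have := even_of_mem hb
    omega
  have hne : ∀ {s t : ℤ × ℤ}, s ∉ S N i → t ∈ S N i → s ≠ t := fun h h' e => h (e ▸ h')
  rcases hx with (hx | ⟨y, -, -, hx⟩) | hx
  · exact O.EE _ _ p q (step_up (2 * r)) hst (hne h1 hp') (hne h1 hq') (hne (hodd r) hp')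
      (hne (hodd r) hq') x hx x' hx'
  · exact O.FE y p q hst (hne (hodd' y) hp').symm (hne (hodd y) hp').symm
      (hne (hodd' y) hq').symm (hne (hodd y) hq').symm x hx x' hx'
  · have h3 : ((0 : ℤ), 2 * r' - 1 + 1) ∉ S N i := by
      have e : 2 * r' - 1 + 1 = 2 * r' := by ring
      rw [e]
      exact h2
    exact O.EE _ _ p q (step_up (2 * r' - 1)) hst (hne (hodd' r') hp') (hne (hodd' r') hq')
      (hne h3 hp') (hne h3 hq') x hx x' hx'

theorem Bs_Bs (O : Over G c K) {N i j : ℤ} (hi : ((0 : ℤ), 2 * i) ∈ S N i)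
    (hj : ((0 : ℤ), 2 * j) ∈ S N j) (hij : i ≠ j) {x x' : V}
    (hx : x ∈ Bs O N i) (hx' : x' ∈ Bs O N j) : K ≤ G.dist x x' := by
  obtain ⟨p, q, hst, hp, hq, hx⟩ := hx
  obtain ⟨p', q', hst', hp', hq', hx'⟩ := hx'
  have hne : ∀ {s t : ℤ × ℤ}, s ∈ S N i → t ∈ S N j → s ≠ t := by
    intro s t hs ht e
    subst e
    have h1 : g N s = 2 * i + 1 := hs
    have h2 : g N s = 2 * j + 1 := ht
    omega
  exact O.EE p q p' q' hst hst' (hne (hp.mem hi) (hp'.mem hj)) (hne (hp.mem hi) (hq'.mem hj))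
    (hne (hq.mem hi) (hp'.mem hj)) (hne (hq.mem hi) (hq'.mem hj)) x hx x' hx'

end main

end Route

open Route

theorem route : S_ROUTE := by
  classical
  intro V G c K O n
  obtain ⟨N, hN⟩ : ∃ N : ℤ, N = (n : ℤ) := ⟨_, rfl⟩
  have hb : ∀ i : Fin n, ((0 : ℤ), 2 * (i : ℤ)) ∈ S N i := by
    intro i
    have := base_mem (N := N) (i := (i : ℤ)) (by positivity) (by have := i.isLt; omega) 0
      (X := 0) le_rfl (by norm_num)
    simpa using this
  have hsplit : ∀ e : Sym2 (Fin n), ∃ ij : Fin n × Fin n, ¬ e.IsDiag →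
      ij.1 < ij.2 ∧ e = s(ij.1, ij.2) := by
    intro e
    induction e using Sym2.ind with
    | _ a b =>
      rcases lt_trichotomy a b with h | h | h
      · exact ⟨(a, b), fun _ => ⟨h, rfl⟩⟩
      · exact ⟨(a, b), fun hd => (hd (Sym2.mk_isDiag_iff.2 h)).elim⟩
      · exact ⟨(b, a), fun _ => ⟨h, Sym2.eq_swap⟩⟩
  choose ij hij using hsplit
  obtain ⟨enc, henc⟩ : ∃ enc : Sym2 (Fin n) → ℕ, Function.Injective enc :=
    ⟨fun e => (Fintype.equivFin (Sym2 (Fin n)) e : ℕ), fun a b h =>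
      (Fintype.equivFin _).injective (Fin.ext h)⟩
  refine ⟨fun i => Bs O N i, fun e => Ps O (2 * N * enc e + ((ij e).1 : ℤ))
    (2 * N * enc e + ((ij e).2 : ℤ)), fun i => Bs_conn O (by positivity) (by have := i.isLt; omega),
    ?_, ?_, ?_, ?_, ?_⟩
  · intro e he
    have := (hij e he).1
    exact Ps_conn O (by have : ((ij e).1 : ℕ) < (ij e).2 := this; omega)
  · intro e he v hv
    obtain ⟨h1, h2⟩ := hij e he
    rw [h2, Sym2.mem_iff] at hv
    have key : ∀ i : Fin n, O.pt (0, 2 * (2 * N * enc e + (i : ℤ))) ∈ Bs O N i := by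
      intro i
      have := pt_mem O (N := N) (i := (i : ℤ)) (by positivity) (by have := i.isLt; omega) (enc e)
      have e1 : 2 * (2 * N * (enc e : ℤ) + (i : ℤ)) = 4 * N * (enc e) + 2 * i := by ring
      rw [e1]
      exact this
    rcases hv with hv | hv
    · subst hv
      exact ⟨_, Ps_left O _ _, key _⟩
    · subst hv
      exact ⟨_, Ps_right O _ _, key _⟩
  · intro u v huv x hx y hy
    exact Bs_Bs O (hb u) (hb v) (fun h => huv (Fin.ext (by exact_mod_cast h))) hx hy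
  · intro e f he hf hef x hx y hy
    have h1 : ((ij e).1 : ℕ) < (ij e).2 := (hij e he).1
    have h2 : ((ij f).1 : ℕ) < (ij f).2 := (hij f hf).1
    have h3 := (ij e).2.isLt
    have h4 := (ij f).2.isLt
    have hx' : Pc O (4 * N * enc e) (4 * N * enc e + 2 * N - 2) x :=
      Ps_pc O (by omega) (by linarith [Int.natCast_nonneg (ij e).1.val])
        (by have : ((ij e).2 : ℤ) + 1 ≤ N := by omega
            linarith) hx
    have hy' : Pc O (4 * N * enc f) (4 * N * enc f + 2 * N - 2) y :=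
      Ps_pc O (by omega) (by linarith [Int.natCast_nonneg (ij f).1.val])
        (by have : ((ij f).2 : ℤ) + 1 ≤ N := by omega
            linarith) hy
    have hN0 : 0 < N := by omega
    rcases lt_or_gt_of_ne (henc.ne hef) with h | h
    · refine Pc_far O ?_ hx' hy'
      have h5 : (enc e : ℤ) + 1 ≤ enc f := by exact_mod_cast h
      have h6 : 4 * N * ((enc e : ℤ) + 1) ≤ 4 * N * enc f :=
        mul_le_mul_of_nonneg_left h5 (by omega)
      linarith
    · rw [SimpleGraph.dist_comm]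
      refine Pc_far O ?_ hy' hx'
      have h5 : (enc f : ℤ) + 1 ≤ enc e := by exact_mod_cast h
      have h6 : 4 * N * ((enc f : ℤ) + 1) ≤ 4 * N * enc e :=
        mul_le_mul_of_nonneg_left h5 (by omega)
      linarith
  · intro e he w hw x hx y hy
    obtain ⟨h1, h2⟩ := hij e he
    rw [h2, Sym2.mem_iff, not_or] at hw
    have key : ∀ i : Fin n, w ≠ i → ((0 : ℤ), 2 * (2 * N * enc e + (i : ℤ))) ∉ S N w := by
      intro i hi hmem
      have hm : ((0 : ℤ), 4 * N * (enc e : ℤ) + 2 * i) ∈ S N i :=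
        base_mem (N := N) (i := (i : ℤ)) (by positivity) (by have := i.isLt; omega) (enc e)
          (X := 0) le_rfl (by norm_num)
      have e1 : 2 * (2 * N * (enc e : ℤ) + (i : ℤ)) = 4 * N * (enc e) + 2 * i := by ring
      rw [e1] at hmem
      have a1 : g N (0, 4 * N * (enc e : ℤ) + 2 * i) = 2 * w + 1 := hmem
      have a2 : g N (0, 4 * N * (enc e : ℤ) + 2 * i) = 2 * i + 1 := hm
      exact hi (Fin.ext (by omega))
    exact Ps_Bs O (hb w) (key _ hw.1) (key _ hw.2) hx hy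

end Pool.Agent.W5h94.AM
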