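import Mathlib
import Pool.Agent.W5h94.AM.Defs4
import Pool.Agent.W5h94.AM.Route

set_option autoImplicit false

/-!
# A coarse lamplighter contains the complete graphs
-/

open SimpleGraph

namespace Pool.Agent.W5h94.AM

namespace LR

variable {V : Type} {G : SimpleGraph V} {c K : ℕ}

theorem mvUp (L : Lamp G c K) (X : Set V) (Y : Finset ℕ) (l r a : ℕ)
    (hX : ∀ k, l ≤ k → k ≤ r → L.pt Y k ∈ X) (ha : l ≤ a) :
    ∀ b, a ≤ b → b ≤ r → Route.Cn G c X (L.pt Y a) (L.pt Y b) := by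
  intro b hab
  induction b, hab using Nat.le_induction with
  | base => intro _; exact Relation.ReflTransGen.refl
  | succ b hab ih =>
    intro hb
    exact Relation.ReflTransGen.tail (ih (by omega)) ⟨hX _ (by omega) hb, L.mv Y b⟩

theorem mvAny (L : Lamp G c K) (X : Set V) (Y : Finset ℕ) (l r a b : ℕ)
    (hX : ∀ k, l ≤ k → k ≤ r → L.pt Y k ∈ X) (ha : l ≤ a) (har : a ≤ r) (hb : l ≤ b)
    (hbr : b ≤ r) : Route.Cn G c X (L.pt Y a) (L.pt Y b) := by
  rcases le_total a b with h | h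
  · exact mvUp L X Y l r a hX ha b h hbr
  · exact (mvUp L X Y l r b hX hb a h har).symm (hX b hb hbr)

/-- switching on a lamp -/
theorem sw (L : Lamp G c K) (X : Set V) (Y : Finset ℕ) (l r a b j : ℕ)
    (hX : ∀ k, l ≤ k → k ≤ r → L.pt Y k ∈ X)
    (hX' : ∀ k, l ≤ k → k ≤ r → L.pt (insert j Y) k ∈ X)
    (ha : l ≤ a) (har : a ≤ r) (hb : l ≤ b) (hbr : b ≤ r) (hj : l ≤ j) (hjr : j ≤ r) :
    Route.Cn G c X (L.pt Y a) (L.pt (insert j Y) b) := by
  by_cases h : j ∈ Y
  · rw [Finset.insert_eq_of_mem h]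
    exact mvAny L X Y l r a b hX ha har hb hbr
  · have h1 := mvAny L X Y l r a j hX ha har hj hjr
    have h2 : Route.Cn G c X (L.pt Y a) (L.pt (insert j Y) j) :=
      Relation.ReflTransGen.tail h1 ⟨hX' j hj hjr, L.tg Y j h⟩
    exact Relation.ReflTransGen.trans h2 (mvAny L X (insert j Y) l r j b hX' hj hjr hb hbr)

/-- the branch sets -/
def Bs (L : Lamp G c K) (p s q i : ℕ) : Set V :=
  {x | ∃ (E : Finset ℕ) (k : ℕ), (∀ e ∈ E, s ≤ e ∧ e ≤ q) ∧ p ≤ k ∧ k ≤ q ∧
    x = L.pt (insert i E) k}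

theorem Bs_conn (L : Lamp G c K) (p s q i : ℕ) (hps : p ≤ s) (hsq : s ≤ q) :
    CConn G c (Bs L p s q i) := by
  have key : ∀ E : Finset ℕ, (∀ e ∈ E, s ≤ e ∧ e ≤ q) → ∀ k, p ≤ k → k ≤ q →
      Route.Cn G c (Bs L p s q i) (L.pt (insert i ∅) p) (L.pt (insert i E) k) := by
    intro E
    induction E using Finset.induction_on with
    | empty =>
      intro _ k hk hk'
      exact mvAny L _ _ p q p k (fun m hm hm' => ⟨∅, m, by simp, hm, hm', rfl⟩) le_rfl
        (by omega) hk hk'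
    | insert a E ha ih =>
      intro hE k hk hk'
      have hE' : ∀ e ∈ E, s ≤ e ∧ e ≤ q := fun e he => hE e (Finset.mem_insert_of_mem he)
      have haE := hE a (Finset.mem_insert_self a E)
      have h1 := ih hE' a (by omega) (by omega)
      refine Relation.ReflTransGen.trans h1 ?_
      have h2 := sw L (Bs L p s q i) (insert i E) p q a k a
        (fun m hm hm' => ⟨E, m, hE', hm, hm', rfl⟩)
        (fun m hm hm' => ⟨insert a E, m, hE, hm, hm', by rw [Finset.insert_comm]⟩)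
        (by omega) (by omega) hk hk' (by omega) (by omega)
      rw [Finset.insert_comm i a E]
      exact h2
  refine Route.cconn_of (x0 := L.pt (insert i ∅) p) ⟨∅, p, by simp, le_rfl, by omega, rfl⟩ ?_
  rintro x ⟨E, k, hE, hk, hk', rfl⟩
  exact key E hE k hk hk'

/-- the paths -/
def Ps (L : Lamp G c K) (p : ℕ) {n : ℕ} (e : Sym2 (Fin n)) (E0 : ℕ) : Set V :=
  {x | ∃ (Z : Finset ℕ) (k : ℕ), Z.Nonempty ∧ (∀ z ∈ Z, ∃ v ∈ e, (v : ℕ) = z) ∧ k ≤ p ∧
    x = L.pt (insert E0 Z) k}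

theorem Ps_conn (L : Lamp G c K) (p : ℕ) {n : ℕ} (hn : n ≤ p) (e : Sym2 (Fin n)) (E0 : ℕ) :
    CConn G c (Ps L p e E0) := by
  induction e using Sym2.ind with
  | _ i j =>
  have hi : (i : ℕ) < n := i.2
  have hj : (j : ℕ) < n := j.2
  -- adding one lamp
  have add : ∀ (Z : Finset ℕ) (w : Fin n) (a b : ℕ), Z.Nonempty →
      (∀ z ∈ Z, ∃ v ∈ s(i, j), (v : ℕ) = z) → w ∈ s(i, j) → a ≤ p → b ≤ p →
      Route.Cn G c (Ps L p s(i, j) E0) (L.pt (insert E0 Z) a)
        (L.pt (insert E0 (insert (w : ℕ) Z)) b) := by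
    intro Z w a b hZ hZ' hw ha hb
    have hw' : (w : ℕ) < n := w.2
    rw [Finset.insert_comm E0 (w : ℕ) Z]
    refine sw L _ (insert E0 Z) 0 p a b w (fun m _ hm' => ⟨Z, m, hZ, hZ', hm', rfl⟩)
      (fun m _ hm' => ⟨insert (w : ℕ) Z, m, Finset.insert_nonempty _ _, ?_, hm',
        by rw [Finset.insert_comm]⟩) (Nat.zero_le _) ha (Nat.zero_le _) hb (Nat.zero_le _)
      (by omega)
    intro z hz
    rcases Finset.mem_insert.mp hz with rfl | hz
    · exact ⟨w, hw, rfl⟩
    · exact hZ' z hz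
  have hU : ∀ z ∈ ({(j : ℕ), (i : ℕ)} : Finset ℕ), ∃ v ∈ s(i, j), (v : ℕ) = z := by
    intro z hz
    simp only [Finset.mem_insert, Finset.mem_singleton] at hz
    rcases hz with rfl | rfl
    · exact ⟨j, by simp, rfl⟩
    · exact ⟨i, by simp, rfl⟩
  have hbase : L.pt (insert E0 ({(j : ℕ), (i : ℕ)} : Finset ℕ)) 0 ∈ Ps L p s(i, j) E0 :=
    ⟨_, 0, Finset.insert_nonempty _ _, hU, Nat.zero_le _, rfl⟩
  refine Route.cconn_of hbase ?_
  rintro x ⟨Z, k, hZ, hZ', hk, rfl⟩
  refine Route.Cn.symm (x := L.pt (insert E0 Z) k) ⟨Z, k, hZ, hZ', hk, rfl⟩ ?_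
  have h1 := add Z i k 0 hZ hZ' (by simp) hk (Nat.zero_le _)
  have h2 := add (insert (i : ℕ) Z) j 0 0 (Finset.insert_nonempty _ _) (by
    intro z hz
    rcases Finset.mem_insert.mp hz with rfl | hz
    · exact ⟨i, by simp, rfl⟩
    · exact hZ' z hz) (by simp) (Nat.zero_le _) (Nat.zero_le _)
  have h3 : insert (j : ℕ) (insert (i : ℕ) Z) = ({(j : ℕ), (i : ℕ)} : Finset ℕ) := by
    ext z
    simp only [Finset.mem_insert, Finset.mem_singleton]
    constructor
    · rintro (h | h | h)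
      · exact Or.inl h
      · exact Or.inr h
      · obtain ⟨v, hv, rfl⟩ := hZ' z h
        rcases Sym2.mem_iff.mp hv with rfl | rfl
        · exact Or.inr rfl
        · exact Or.inl rfl
    · rintro (h | h)
      · exact Or.inl h
      · exact Or.inr (Or.inl h)
  rw [h3] at h2
  exact Relation.ReflTransGen.trans h1 h2

end LR

open LR in
theorem lamp : S_LAMP := by
  classical
  intro V G c K L n
  set p := n + L.C + 1 with hp
  set s := p + L.C + 1 with hs
  set m := Fintype.card (Sym2 (Fin n)) with hm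
  set q := s + m with hq
  let code : Sym2 (Fin n) → ℕ := fun e => s + (Fintype.equivFin (Sym2 (Fin n)) e : ℕ)
  have hcode1 : ∀ e, s ≤ code e := fun e => Nat.le_add_right _ _
  have hcode2 : ∀ e, code e ≤ q := fun e => by
    have := (Fintype.equivFin (Sym2 (Fin n)) e).2
    show s + _ ≤ s + m
    omega
  have hcode3 : ∀ e f, e ≠ f → code e ≠ code f := by
    intro e f hef h
    apply hef
    have h' : ((Fintype.equivFin (Sym2 (Fin n)) e : ℕ)) = (Fintype.equivFin (Sym2 (Fin n)) f : ℕ) := by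
      have : s + (Fintype.equivFin (Sym2 (Fin n)) e : ℕ) =
        s + (Fintype.equivFin (Sym2 (Fin n)) f : ℕ) := h
      omega
    exact (Fintype.equivFin (Sym2 (Fin n))).injective (Fin.ext h')
  refine ⟨fun i => Bs L p s q i, fun e => Ps L p e (code e), ?_, ?_, ?_, ?_, ?_, ?_⟩
  · intro v
    exact Bs_conn L p s q v (by omega) (by omega)
  · intro e _
    exact Ps_conn L p (by omega) e (code e)
  · intro e _ v hv
    refine ⟨L.pt {code e, (v : ℕ)} p, ⟨{(v : ℕ)}, p, Finset.singleton_nonempty _, ?_, le_rfl, rfl⟩,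
      ⟨{code e}, p, ?_, le_rfl, by omega, ?_⟩⟩
    · intro z hz
      exact ⟨v, hv, (Finset.mem_singleton.mp hz).symm⟩
    · intro z hz
      rw [Finset.mem_singleton.mp hz]
      exact ⟨hcode1 e, hcode2 e⟩
    · rw [Finset.pair_comm]
  · rintro u v huv x ⟨E, k, hE, hk, hk', rfl⟩ y ⟨E', k', hE', hk1, hk1', rfl⟩
    have hu : (u : ℕ) < n := u.2
    refine L.far _ _ _ _ (u : ℕ) (Finset.mem_insert_self _ _) ?_ (Or.inr (by omega))
    intro h
    rcases Finset.mem_insert.mp h with h | h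
    · exact huv (Fin.ext h)
    · have := hE' _ h
      omega
  · rintro e f _ _ hef x ⟨Z, k, hZ, hZ', hk, rfl⟩ y ⟨Z', k', hZ1, hZ1', hk1, rfl⟩
    have h1 := hcode1 e
    refine L.far _ _ _ _ (code e) (Finset.mem_insert_self _ _) ?_ (Or.inl (by omega))
    intro h
    rcases Finset.mem_insert.mp h with h | h
    · exact hcode3 e f hef h
    · obtain ⟨v, _, hv'⟩ := hZ1' _ h
      have := v.2
      omega
  · rintro e _ w hw x ⟨Z, k, hZ, hZ', hk, rfl⟩ y ⟨E, k', hE, hk1, hk1', rfl⟩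
    have hwn : (w : ℕ) < n := w.2
    have h1 := hcode1 e
    rw [SimpleGraph.dist_comm]
    refine L.far _ _ _ _ (w : ℕ) (Finset.mem_insert_self _ _) ?_ (Or.inr (by omega))
    intro h
    rcases Finset.mem_insert.mp h with h | h
    · omega
    · obtain ⟨v, hv, hv'⟩ := hZ' _ h
      have : v = w := Fin.ext hv'
      exact hw (this ▸ hv)

end Pool.Agent.W5h94.AM
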