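import Pool.Agent.W5h94.AM.Defs6
import Pool.Agent.W5h94.AM.LampRoute

set_option autoImplicit false

/-!
# A coarse lamplighter with two kinds of lamps contains the complete graphs
-/

open SimpleGraph

namespace Pool.Agent.W5h94.AM

open LR in
theorem lamp2 : S_LAMP2 := by
  classical
  intro V G c K n L2
  let L : Lamp G c 0 := ⟨L2.pt, L2.C, L2.mv, L2.tg, fun _ _ _ _ _ _ _ _ => Nat.zero_le _,
    fun _ _ _ _ _ _ _ _ => Nat.zero_le _⟩
  set p := n + L2.C + 1 with hp
  set s := p + L2.C + 1 with hs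
  set m := Fintype.card (Sym2 (Fin n)) with hm
  set q := s + m with hq
  let code : Sym2 (Fin n) → ℕ := fun e => s + (Fintype.equivFin (Sym2 (Fin n)) e : ℕ)
  have hcode1 : ∀ e, s ≤ code e := fun e => Nat.le_add_right _ _
  have hcode2 : ∀ e, code e ≤ q := fun e => by
    have := (Fintype.equivFin (Sym2 (Fin n)) e).2
    show s + _ ≤ s + m
    omega
  have hcode3 : ∀ e f, e ≠ f → code e ≠ code f := by
    intro e f hef h
    apply hef
    have h' : ((Fintype.equivFin (Sym2 (Fin n)) e : ℕ)) = (Fintype.equivFin (Sym2 (Fin n)) f : ℕ) := by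
      have : s + (Fintype.equivFin (Sym2 (Fin n)) e : ℕ) =
        s + (Fintype.equivFin (Sym2 (Fin n)) f : ℕ) := h
      omega
    exact (Fintype.equivFin (Sym2 (Fin n))).injective (Fin.ext h')
  refine ⟨fun i => Bs L p s q i, fun e => Ps L p e (code e), ?_, ?_, ?_, ?_, ?_, ?_⟩
  · intro v
    exact Bs_conn L p s q v (by omega) (by omega)
  · intro e _
    exact Ps_conn L p (by omega) e (code e)
  · intro e _ v hv
    refine ⟨L.pt {code e, (v : ℕ)} p, ⟨{(v : ℕ)}, p, Finset.singleton_nonempty _, ?_, le_rfl, rfl⟩,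
      ⟨{code e}, p, ?_, le_rfl, by omega, ?_⟩⟩
    · intro z hz
      exact ⟨v, hv, (Finset.mem_singleton.mp hz).symm⟩
    · intro z hz
      rw [Finset.mem_singleton.mp hz]
      exact ⟨hcode1 e, hcode2 e⟩
    · rw [Finset.pair_comm]
  · rintro u v huv x ⟨E, k, hE, hk, hk', rfl⟩ y ⟨E', k', hE', hk1, hk1', rfl⟩
    have hu : (u : ℕ) < n := u.2
    refine L2.far _ _ _ _ (u : ℕ) (Or.inl ⟨Finset.mem_insert_self _ _, ?_⟩)
      (Or.inr ⟨hu, by omega⟩)
    intro h
    rcases Finset.mem_insert.mp h with h | h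
    · exact huv (Fin.ext h)
    · have := hE' _ h
      omega
  · rintro e f _ _ hef x ⟨Z, k, hZ, hZ', hk, rfl⟩ y ⟨Z', k', hZ1, hZ1', hk1, rfl⟩
    have h1 := hcode1 e
    refine L2.far _ _ _ _ (code e) (Or.inl ⟨Finset.mem_insert_self _ _, ?_⟩)
      (Or.inl ⟨by omega, by omega⟩)
    intro h
    rcases Finset.mem_insert.mp h with h | h
    · exact hcode3 e f hef h
    · obtain ⟨v, _, hv'⟩ := hZ1' _ h
      have := v.2
      omega
  · rintro e _ w hw x ⟨Z, k, hZ, hZ', hk, rfl⟩ y ⟨E, k', hE, hk1, hk1', rfl⟩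
    have hwn : (w : ℕ) < n := w.2
    have h1 := hcode1 e
    rw [SimpleGraph.dist_comm]
    refine L2.far _ _ _ _ (w : ℕ) (Or.inl ⟨Finset.mem_insert_self _ _, ?_⟩)
      (Or.inr ⟨hwn, by omega⟩)
    intro h
    rcases Finset.mem_insert.mp h with h | h
    · omega
    · obtain ⟨v, hv, hv'⟩ := hZ' _ h
      have : v = w := Fin.ext hv'
      exact hw (this ▸ hv)

end Pool.Agent.W5h94.AM
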