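import Pool.Agent.W5h94.AM.Defs

set_option autoImplicit false

/-!
# Facts on the word metric
-/

open SimpleGraph

namespace Pool.Agent.W5h94.AM

section

variable {Q : Type} [Group Q] {T : Set Q}

theorem wm_reach (hT : Subgroup.closure T = ⊤) (g x : Q) :
    (mulCayley T).Reachable x (x * g) := by
  have hg : g ∈ Subgroup.closure T := by rw [hT]; exact Subgroup.mem_top g
  induction hg using Subgroup.closure_induction generalizing x with
  | mem t ht =>
    by_cases h : x = x * t
    · rw [← h]
    · refine Adj.reachable ?_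
      rw [mulCayley_adj]
      refine ⟨h, Or.inl ?_⟩
      rwa [inv_mul_cancel_left]
  | one => rw [mul_one]
  | mul a b _ _ ha hb =>
    rw [← mul_assoc]
    exact (ha x).trans (hb (x * a))
  | inv a _ ha =>
    have h := ha (x * a⁻¹)
    rw [inv_mul_cancel_right] at h
    exact h.symm

theorem wm_conn (hT : Subgroup.closure T = ⊤) : (mulCayley T).Connected := by
  have : Nonempty Q := ⟨1⟩
  refine ⟨fun x y => ?_⟩
  have h := wm_reach hT (x⁻¹ * y) x
  rwa [mul_inv_cancel_left] at h

theorem wm_left_le (hT : Subgroup.closure T = ⊤) (g x y : Q) :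
    (mulCayley T).dist (g * x) (g * y) ≤ (mulCayley T).dist x y := by
  obtain ⟨p, hp⟩ := (wm_conn hT).exists_walk_length_eq_dist x y
  let f : mulCayley T →g mulCayley T :=
    { toFun := fun z => g * z
      map_rel' := fun {a b} hab => mulCayley_adj_mul_iff_right.2 hab }
  rw [← hp, ← Walk.length_map f p]
  exact dist_le _

theorem wm_left (hT : Subgroup.closure T = ⊤) (g x y : Q) :
    (mulCayley T).dist (g * x) (g * y) = (mulCayley T).dist x y := by
  refine le_antisymm (wm_left_le hT g x y) ?_
  have h := wm_left_le hT g⁻¹ (g * x) (g * y)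
  rwa [inv_mul_cancel_left, inv_mul_cancel_left] at h

theorem wm_one (hT : Subgroup.closure T = ⊤) {x y : Q} (h : (mulCayley T).dist x y ≤ 1) :
    x⁻¹ * y ∈ T ∨ y⁻¹ * x ∈ T ∨ x = y := by
  rcases Nat.le_one_iff_eq_zero_or_eq_one.1 h with h | h
  · exact Or.inr (Or.inr ((wm_conn hT).dist_eq_zero_iff.1 h))
  · rw [dist_eq_one_iff_adj, mulCayley_adj] at h
    tauto

theorem wm_geo (hT : Subgroup.closure T = ⊤) (x y : Q) : ∃ f : ℕ → Q, f 0 = x ∧
    f ((mulCayley T).dist x y) = y ∧
    ∀ i j, i ≤ (mulCayley T).dist x y → j ≤ (mulCayley T).dist x y →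
      ((mulCayley T).dist (f i) (f j) : ℤ) = |(i : ℤ) - j| := by
  obtain ⟨p, hp⟩ := (wm_conn hT).exists_walk_length_eq_dist x y
  have hc := wm_conn hT
  have h0 : p.getVert 0 = x := p.getVert_zero
  have h1 : p.getVert ((mulCayley T).dist x y) = y := by
    rw [← hp]
    exact p.getVert_length
  have h2 : ∀ i m, i + m ≤ (mulCayley T).dist x y →
      (mulCayley T).dist (p.getVert i) (p.getVert (i + m)) ≤ m := by
    intro i m
    induction m with
    | zero =>
      intro _
      rw [add_zero, dist_self]
    | succ m ih =>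
      intro hm
      have h3 : (mulCayley T).Adj (p.getVert (i + m)) (p.getVert (i + m + 1)) :=
        p.adj_getVert_succ (by omega)
      have h4 := dist_eq_one_iff_adj.2 h3
      have h5 := hc.dist_triangle (u := p.getVert i) (v := p.getVert (i + m))
        (w := p.getVert (i + m + 1))
      have h6 := ih (by omega)
      rw [← add_assoc]
      omega
  have h3 : ∀ i m, i + m ≤ (mulCayley T).dist x y →
      (mulCayley T).dist (p.getVert i) (p.getVert (i + m)) = m := by
    intro i m hm
    have h4 := h2 i m hm
    have h5 := h2 0 i (by omega)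
    obtain ⟨r, hr⟩ : ∃ r, i + m + r = (mulCayley T).dist x y := ⟨_, Nat.add_sub_cancel' hm⟩
    have h6 := h2 (i + m) r hr.le
    rw [hr, h1] at h6
    rw [zero_add, h0] at h5
    have h7 := hc.dist_triangle (u := x) (v := p.getVert i) (w := y)
    have h8 := hc.dist_triangle (u := p.getVert i) (v := p.getVert (i + m)) (w := y)
    omega
  refine ⟨p.getVert, h0, h1, fun i j hi hj => ?_⟩
  rcases Nat.le_total i j with hij | hij
  · obtain ⟨m, rfl⟩ := Nat.exists_eq_add_of_le hij
    rw [h3 i m hj]
    rw [abs_sub_comm]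
    push_cast
    rw [add_sub_cancel_left, abs_of_nonneg (Int.natCast_nonneg m)]
  · obtain ⟨m, rfl⟩ := Nat.exists_eq_add_of_le hij
    rw [dist_comm, h3 j m hi]
    push_cast
    rw [add_sub_cancel_left, abs_of_nonneg (Int.natCast_nonneg m)]

theorem wm_ball (hF : T.Finite) (hT : Subgroup.closure T = ⊤) (x : Q) (n : ℕ) :
    {y | (mulCayley T).dist x y ≤ n}.Finite := by
  induction n with
  | zero =>
    refine (Set.finite_singleton x).subset fun y hy => ?_
    have h : (mulCayley T).dist x y = 0 := Nat.le_zero.1 hy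
    exact ((wm_conn hT).dist_eq_zero_iff.1 h).symm
  | succ n ih =>
    have h1 : {y | (mulCayley T).dist x y ≤ n + 1} ⊆
        {y | (mulCayley T).dist x y ≤ n} ∪
          (Set.image2 (fun z t => z * t) {y | (mulCayley T).dist x y ≤ n} T ∪
            Set.image2 (fun z t => z * t⁻¹) {y | (mulCayley T).dist x y ≤ n} T) := by
      intro y hy
      obtain ⟨f, h0, h1, h2⟩ := wm_geo hT x y
      by_cases hd : (mulCayley T).dist x y ≤ n
      · exact Or.inl hd
      · have hd2 : (mulCayley T).dist x y = n + 1 := le_antisymm hy (by omega)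
        have h3 := h2 0 n (by omega) (by omega)
        have h4 := h2 n (n + 1) (by omega) (by omega)
        rw [h0] at h3
        rw [hd2] at h1
        rw [h1] at h4
        have h5 : (mulCayley T).dist x (f n) ≤ n := by
          have h6 : |((0 : ℕ) : ℤ) - n| = n := by
            rw [Nat.cast_zero, zero_sub, abs_neg, abs_of_nonneg (Int.natCast_nonneg n)]
          rw [h6] at h3
          exact_mod_cast h3.le
        have h6 : (mulCayley T).dist (f n) y ≤ 1 := by
          have h7 : |(n : ℤ) - ((n + 1 : ℕ) : ℤ)| = 1 := by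
            push_cast
            rw [sub_add_cancel_left, abs_neg, abs_one]
          rw [h7] at h4
          exact_mod_cast h4.le
        rcases wm_one hT h6 with h7 | h7 | h7
        · refine Or.inr (Or.inl ⟨f n, h5, _, h7, ?_⟩)
          exact mul_inv_cancel_left _ _
        · refine Or.inr (Or.inr ⟨f n, h5, _, h7, ?_⟩)
          change f n * (y⁻¹ * f n)⁻¹ = y
          rw [mul_inv_rev, inv_inv, mul_inv_cancel_left]
        · left
          rw [← h7]
          exact h5
    exact (ih.union ((Set.Finite.image2 _ ih hF).union (Set.Finite.image2 _ ih hF))).subset h1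

end

theorem wm : S_WM := by
  intro Q _ T hF hT
  exact ⟨wm_conn hT, wm_left hT, wm_ball hF hT, fun x y => wm_one hT, wm_geo hT⟩

end Pool.Agent.W5h94.AM
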