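import Pool.Agent.W5h94.AM.Defs

set_option autoImplicit false

/-!
# Asymptotic minors: a group near a geodesic line is virtually cyclic
-/

open SimpleGraph

namespace Pool.Agent.W5h94.AM

/-- A translation which agrees on a long interval keeps its direction. -/
theorem far_step {Q : Type} [Group Q] (d : Q → Q → ℕ)
    (tri : ∀ x y z : Q, d x z ≤ d x y + d y z) (sym : ∀ x y : Q, d x y = d y x)
    (hself : ∀ q : Q, d q q = 0)
    (inv : ∀ g x y : Q, d (g * x) (g * y) = d x y) (R : ℕ) (δ ε : ℤ → Q)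
    (hδ : ∀ x y, (d (δ x) (δ y) : ℤ) = |x - y|) (hε : ∀ x y, (d (ε x) (ε y) : ℤ) = |x - y|)
    (hR : ∀ q, ∃ z, d q (ε z) ≤ R) (g : Q)
    (hg : ∀ i : ℤ, 0 ≤ i → i ≤ 4 * R + 4 → g * δ i = ε i) :
    ∀ n : ℕ, ∃ z : ℤ, d (g * δ n) (ε z) ≤ R ∧ |z - n| ≤ R := by
  intro n
  induction n with
  | zero =>
    refine ⟨0, ?_, by simp⟩
    have := hg 0 le_rfl (by positivity)
    push_cast
    rw [this, hself]
    exact Nat.zero_le _
  | succ n ih =>
    by_cases hn : ((n + 1 : ℕ) : ℤ) ≤ 4 * R + 4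
    · refine ⟨(n + 1 : ℕ), ?_, by simp⟩
      rw [hg _ (by positivity) hn, hself]
      exact Nat.zero_le _
    · push Not at hn
      obtain ⟨z, hz1, hz2⟩ := ih
      obtain ⟨z', hz'⟩ := hR (g * δ ((n + 1 : ℕ) : ℤ))
      refine ⟨z', hz', ?_⟩
      have e0 : g * δ 0 = ε 0 := hg 0 le_rfl (by positivity)
      have a1 : (d (g * δ (n : ℤ)) (g * δ ((n + 1 : ℕ) : ℤ)) : ℤ) = 1 := by
        rw [inv, hδ]
        push_cast
        rw [show (n : ℤ) - (n + 1) = -1 by ring]
        simp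
      have a2 : (d (g * δ ((n + 1 : ℕ) : ℤ)) (ε 0) : ℤ) = n + 1 := by
        rw [← e0, inv, hδ]
        push_cast
        rw [sub_zero, abs_of_nonneg (by positivity)]
      have b1 := tri (ε z) (g * δ (n : ℤ)) (ε z')
      have b2 := tri (g * δ (n : ℤ)) (g * δ ((n + 1 : ℕ) : ℤ)) (ε z')
      have b3 := tri (ε z') (g * δ ((n + 1 : ℕ) : ℤ)) (ε 0)
      have b4 := tri (g * δ ((n + 1 : ℕ) : ℤ)) (ε z') (ε 0)
      rw [sym (ε z) (g * δ (n : ℤ))] at b1
      rw [sym (ε z') (g * δ ((n + 1 : ℕ) : ℤ))] at b3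
      have c1 := hε z z'
      have c2 := hε z' 0
      rw [sub_zero] at c2
      rw [abs_le] at hz2
      obtain ⟨hz3, hz4⟩ := hz2
      have k1 : |z - z'| ≤ 2 * R + 1 := by
        rw [← c1]
        have : (d (ε z) (ε z') : ℤ) ≤ d (g * δ (n : ℤ)) (ε z) +
          (d (g * δ (n : ℤ)) (g * δ ((n + 1 : ℕ) : ℤ)) +
            d (g * δ ((n + 1 : ℕ) : ℤ)) (ε z')) := by exact_mod_cast b1.trans (by omega)
        rw [a1] at this
        have h1 : (d (g * δ (n : ℤ)) (ε z) : ℤ) ≤ R := by exact_mod_cast hz1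
        have h2 : (d (g * δ ((n + 1 : ℕ) : ℤ)) (ε z') : ℤ) ≤ R := by exact_mod_cast hz'
        linarith
      rw [abs_le] at k1
      obtain ⟨k2, k3⟩ := k1
      have hpos : 0 ≤ z' := by push_cast at hn; linarith
      rw [abs_of_nonneg hpos] at c2
      have h2 : (d (g * δ ((n + 1 : ℕ) : ℤ)) (ε z') : ℤ) ≤ R := by exact_mod_cast hz'
      have b3' : (d (ε z') (ε 0) : ℤ) ≤ d (g * δ ((n + 1 : ℕ) : ℤ)) (ε z') +
        d (g * δ ((n + 1 : ℕ) : ℤ)) (ε 0) := by exact_mod_cast b3
      have b4' : (d (g * δ ((n + 1 : ℕ) : ℤ)) (ε 0) : ℤ) ≤ d (g * δ ((n + 1 : ℕ) : ℤ)) (ε z') +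
        d (ε z') (ε 0) := by exact_mod_cast b4
      rw [a2, c2] at b3' b4'
      rw [abs_le]
      push_cast
      constructor <;> linarith

theorem far_bound {Q : Type} [Group Q] (d : Q → Q → ℕ)
    (tri : ∀ x y z : Q, d x z ≤ d x y + d y z) (sym : ∀ x y : Q, d x y = d y x)
    (hself : ∀ q : Q, d q q = 0)
    (inv : ∀ g x y : Q, d (g * x) (g * y) = d x y) (R : ℕ) (γ : ℤ → Q)
    (hγ : ∀ x y, (d (γ x) (γ y) : ℤ) = |x - y|) (hR : ∀ q, ∃ z, d q (γ z) ≤ R) (g : Q)
    (x m : ℤ) (hg : ∀ i : ℤ, |i| ≤ 4 * R + 4 → g * γ (x + i) = γ (x + m + i)) (y : ℤ) :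
    d (g * γ y) (γ (y + m)) ≤ 2 * R := by
  rcases le_total x y with hxy | hxy
  · have key := far_step d tri sym hself inv R (fun i => γ (x + i)) (fun i => γ (x + m + i))
      (fun a b => by simp only [hγ]; congr 1; ring) (fun a b => by simp only [hγ]; congr 1; ring)
      (fun q => by
        obtain ⟨z, hz⟩ := hR q
        exact ⟨z - (x + m), by simpa using hz⟩) g
      (fun i hi1 hi2 => hg i (by rw [abs_of_nonneg hi1]; exact hi2)) (y - x).toNat
    obtain ⟨z, hz1, hz2⟩ := key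
    have e1 : ((y - x).toNat : ℤ) = y - x := Int.toNat_of_nonneg (by linarith)
    simp only [e1] at hz1 hz2
    rw [show x + (y - x) = y by ring] at hz1
    have b1 := tri (g * γ y) (γ (x + m + z)) (γ (y + m))
    have b2 := hγ (x + m + z) (y + m)
    rw [show x + m + z - (y + m) = z - (y - x) by ring] at b2
    have : (d (γ (x + m + z)) (γ (y + m)) : ℤ) ≤ R := by rw [b2]; exact hz2
    have : d (γ (x + m + z)) (γ (y + m)) ≤ R := by exact_mod_cast this
    omega
  · have key := far_step d tri sym hself inv R (fun i => γ (x - i)) (fun i => γ (x + m - i))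
      (fun a b => by simp only [hγ]; rw [← abs_neg]; congr 1; ring)
      (fun a b => by simp only [hγ]; rw [← abs_neg]; congr 1; ring)
      (fun q => by
        obtain ⟨z, hz⟩ := hR q
        exact ⟨(x + m) - z, by simpa using hz⟩) g
      (fun i hi1 hi2 => by
        have := hg (-i) (by rw [abs_neg, abs_of_nonneg hi1]; exact hi2)
        simpa [sub_eq_add_neg] using this) (x - y).toNat
    obtain ⟨z, hz1, hz2⟩ := key
    have e1 : ((x - y).toNat : ℤ) = x - y := Int.toNat_of_nonneg (by linarith)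
    simp only [e1] at hz1 hz2
    rw [show x - (x - y) = y by ring] at hz1
    have b1 := tri (g * γ y) (γ (x + m - z)) (γ (y + m))
    have b2 := hγ (x + m - z) (y + m)
    rw [show x + m - z - (y + m) = -(z - (x - y)) by ring, abs_neg] at b2
    have : (d (γ (x + m - z)) (γ (y + m)) : ℤ) ≤ R := by rw [b2]; exact hz2
    have : d (γ (x + m - z)) (γ (y + m)) ≤ R := by exact_mod_cast this
    omega

/-- (FAR) A group in a bounded neighbourhood of a geodesic line is virtually cyclic. -/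
theorem far (h : S_WM) : S_FAR := by
  intro Q _ T hT hcl γ hγ R hR
  obtain ⟨hconn, inv, hfin, -, -⟩ := h Q T hT hcl
  have tri : ∀ x y z : Q, (mulCayley T).dist x z ≤ (mulCayley T).dist x y +
    (mulCayley T).dist y z := fun x y z => hconn.dist_triangle
  have sym : ∀ x y : Q, (mulCayley T).dist x y = (mulCayley T).dist y x :=
    fun x y => SimpleGraph.dist_comm
  have hself : ∀ q : Q, (mulCayley T).dist q q = 0 := fun q => SimpleGraph.dist_self
  generalize (mulCayley T).dist = d at *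
  clear hconn
  -- two equal patterns
  obtain ⟨x, m, hm, hpat⟩ : ∃ x m : ℤ, 4 * R + 5 ≤ m ∧
      ∀ i : ℤ, |i| ≤ 4 * R + 4 → (γ x)⁻¹ * γ (x + i) = (γ (x + m))⁻¹ * γ (x + m + i) := by
    let L : ℕ := 4 * R + 4
    have : Finite {y : Q // d 1 y ≤ L} := (hfin 1 L).to_subtype
    have : Finite (Set.Icc (-(L : ℤ)) L) := inferInstance
    have hp : ∀ (a : ℤ) (i : Set.Icc (-(L : ℤ)) L), d 1 ((γ a)⁻¹ * γ (a + i)) ≤ L := by
      intro a i
      have h1 := inv (γ a) 1 ((γ a)⁻¹ * γ (a + i))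
      rw [mul_one, mul_inv_cancel_left] at h1
      have h2 := hγ a (a + i)
      rw [← h1]
      have h3 : |(a : ℤ) - (a + i)| ≤ L := by
        rw [show a - (a + (i : ℤ)) = -(i : ℤ) by ring, abs_neg, abs_le]
        exact i.2
      rw [← h2] at h3
      exact_mod_cast h3
    let pat : ℕ → (Set.Icc (-(L : ℤ)) L → {y : Q // d 1 y ≤ L}) := fun k i =>
      ⟨(γ ((4 * R + 5) * (k : ℤ)))⁻¹ * γ ((4 * R + 5) * (k : ℤ) + i), hp _ _⟩
    obtain ⟨k, k', hkk, hpk⟩ := Finite.exists_ne_map_eq_of_infinite pat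
    have aux : ∀ k k' : ℕ, k < k' → pat k = pat k' → ∃ x m : ℤ, 4 * R + 5 ≤ m ∧
        ∀ i : ℤ, |i| ≤ 4 * R + 4 → (γ x)⁻¹ * γ (x + i) = (γ (x + m))⁻¹ * γ (x + m + i) := by
      intro k k' hlt heq
      refine ⟨(4 * R + 5) * (k : ℤ), (4 * R + 5) * ((k' : ℤ) - k), ?_, ?_⟩
      · have : (1 : ℤ) ≤ (k' : ℤ) - k := by omega
        nlinarith
      · intro i hi
        have hi' : i ∈ Set.Icc (-(L : ℤ)) L := by
          rw [abs_le] at hi
          simp only [Set.mem_Icc, L]
          push_cast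
          exact hi
        have h1 := congrFun heq ⟨i, hi'⟩
        have h2 := congrArg Subtype.val h1
        simp only [pat] at h2
        rw [h2]
        congr 2 <;> ring_nf
    rcases lt_or_gt_of_ne hkk with hlt | hlt
    · exact aux k k' hlt hpk
    · exact aux k' k hlt hpk.symm
  -- the translation
  obtain ⟨g, hg⟩ : ∃ g : Q, ∀ i : ℤ, |i| ≤ 4 * R + 4 → g * γ (x + i) = γ (x + m + i) := by
    refine ⟨γ (x + m) * (γ x)⁻¹, fun i hi => ?_⟩
    rw [mul_assoc, hpat i hi, mul_inv_cancel_left]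
  have hb := far_bound d tri sym hself inv R γ hγ hR g x m hg
  refine ⟨g, ?_⟩
  -- positions of the orbit
  choose pos hpos using hR
  let p : ℤ → ℤ := fun k => pos (g ^ k * γ x)
  have hp : ∀ k, d (g ^ k * γ x) (γ (p k)) ≤ R := fun k => hpos _
  have hstep : ∀ k, |p (k + 1) - (p k + m)| ≤ 4 * R := by
    intro k
    rw [← hγ]
    have e1 : g ^ (k + 1) * γ x = g * (g ^ k * γ x) := by
      rw [add_comm, zpow_add, zpow_one, mul_assoc]
    have h1 := hp (k + 1)
    have h2 := hp k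
    have h3 := hb (p k)
    have t1 := tri (γ (p (k + 1))) (g ^ (k + 1) * γ x) (γ (p k + m))
    have t2 := tri (g ^ (k + 1) * γ x) (g * γ (p k)) (γ (p k + m))
    have t3 : d (g ^ (k + 1) * γ x) (g * γ (p k)) = d (g ^ k * γ x) (γ (p k)) := by
      rw [e1, inv]
    rw [sym (γ (p (k + 1)))] at t1
    have : d (γ (p (k + 1))) (γ (p k + m)) ≤ 4 * R := by
      rw [sym (γ (p (k + 1)))] at *
      omega
    exact_mod_cast this
  have hlow : ∀ k, p k + 1 ≤ p (k + 1) := fun k => by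
    have := (abs_le.mp (hstep k)).1
    linarith
  have hupp : ∀ k, p (k + 1) ≤ p k + m + 4 * R := fun k => by
    have := (abs_le.mp (hstep k)).2
    linarith
  have hmono : ∀ (n : ℕ) (a : ℤ), p a + n ≤ p (a + n) := by
    intro n a
    induction n with
    | zero => simp
    | succ n ih =>
      have := hlow (a + n)
      push_cast
      rw [← add_assoc a]
      linarith
  have hcov : ∀ t : ℤ, ∃ k, |t - p k| ≤ m + 4 * R := by
    intro t
    obtain ⟨k, hk1, hk2⟩ := Int.exists_greatest_of_bdd (P := fun k => p k ≤ t)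
      ⟨max 0 (t - p 0), fun z hz => by
        by_cases hz0 : z ≤ 0
        · exact le_max_of_le_left hz0
        · push Not at hz0
          have h1 := hmono z.toNat 0
          rw [Int.toNat_of_nonneg hz0.le, zero_add] at h1
          exact le_max_of_le_right (by linarith)⟩
      (by
        by_cases h0 : p 0 ≤ t
        · exact ⟨0, h0⟩
        · push Not at h0
          refine ⟨-(p 0 - t), ?_⟩
          have h1 := hmono (p 0 - t).toNat (-(p 0 - t))
          rw [Int.toNat_of_nonneg (by linarith), neg_add_cancel] at h1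
          show p (-(p 0 - t)) ≤ t
          linarith)
    refine ⟨k, ?_⟩
    have h3 : t < p (k + 1) := by
      by_contra hcon
      push Not at hcon
      have := hk2 (k + 1) hcon
      linarith
    have h4 := hupp k
    rw [abs_of_nonneg (by linarith)]
    linarith
  -- cosets
  let C : ℕ := R + (m + 4 * R).toNat + R + d (γ x) 1
  have hq : ∀ q : Q, ∃ k : ℤ, d (g ^ k) q ≤ C := by
    intro q
    obtain ⟨k, hk⟩ := hcov (pos q)
    refine ⟨k, ?_⟩
    have h1 := hpos q
    have h2 := hp k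
    have h3 : d (γ (pos q)) (γ (p k)) ≤ (m + 4 * R).toNat := by
      rw [← hγ] at hk
      omega
    have h4 : d (g ^ k * γ x) (g ^ k) = d (γ x) 1 := by
      have := inv (g ^ k) (γ x) 1
      rwa [mul_one] at this
    have t1 := tri (g ^ k) (g ^ k * γ x) q
    have t2 := tri (g ^ k * γ x) (γ (p k)) q
    have t3 := tri (γ (p k)) (γ (pos q)) q
    have s1 := sym (g ^ k) (g ^ k * γ x)
    have s2 := sym (γ (p k)) (γ (pos q))
    have s3 := sym (γ (pos q)) q
    show d (g ^ k) q ≤ R + (m + 4 * R).toNat + R + d (γ x) 1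
    omega
  have : Finite {y : Q // d 1 y ≤ C} := (hfin 1 C).to_subtype
  have hsurj : Function.Surjective (fun w : {y : Q // d 1 y ≤ C} =>
      (((w : Q)⁻¹ : Q) : Q ⧸ Subgroup.zpowers g)) := by
    intro c
    obtain ⟨q, rfl⟩ := QuotientGroup.mk_surjective c
    obtain ⟨k, hk⟩ := hq q⁻¹
    refine ⟨⟨(g ^ k)⁻¹ * q⁻¹, ?_⟩, ?_⟩
    · have := inv (g ^ k) 1 ((g ^ k)⁻¹ * q⁻¹)
      rw [mul_one, mul_inv_cancel_left] at this
      rw [← this]
      exact hk
    · simp only [mul_inv_rev, inv_inv]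
      rw [QuotientGroup.eq]
      refine ⟨-k, ?_⟩
      simp
  have : Finite (Q ⧸ Subgroup.zpowers g) := Finite.of_surjective _ hsurj
  exact Subgroup.finiteIndex_of_finite_quotient

end Pool.Agent.W5h94.AM
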