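import Pool.Agent.W5h94.AM.Defs2

set_option autoImplicit false

/-!
# Asymptotic minors: a flap on a geodesic line
-/

open SimpleGraph

namespace Pool.Agent.W5h94.AM

/-- (FLAP1) -/
theorem flap1 (h : S_WM) (hf : S_FAR) : S_FLAP1 := by
  intro Q _ T hT hcl hno γ hγ R
  obtain ⟨hconn, -, -, -, hgeo⟩ := h Q T hT hcl
  have hq : ∃ q, ∀ x, R < (mulCayley T).dist q (γ x) := by
    by_contra hcon
    push Not at hcon
    obtain ⟨g, hg⟩ := hf Q T hT hcl γ hγ R hcon
    exact hno g hg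
  obtain ⟨q, hq⟩ := hq
  obtain ⟨x₀, hx₀⟩ : ∃ x₀, ∀ x, (mulCayley T).dist q (γ x₀) ≤ (mulCayley T).dist q (γ x) := by
    classical
    have hex : ∃ n, ∃ x, (mulCayley T).dist q (γ x) = n := ⟨_, 0, rfl⟩
    obtain ⟨x₀, hx₀⟩ := Nat.find_spec hex
    refine ⟨x₀, fun x => ?_⟩
    rw [hx₀]
    exact Nat.find_min' hex ⟨x, rfl⟩
  obtain ⟨f, f0, fD, hfg⟩ := hgeo (γ x₀) q
  have hDR : R ≤ (mulCayley T).dist (γ x₀) q := by
    rw [SimpleGraph.dist_comm]
    exact (hq x₀).le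
  refine ⟨x₀, fun t => f (min t R), ?_, fun t => ?_, fun t ht x => ?_⟩
  · simpa using f0
  · have h1 := hfg (min t R) (min (t + 1) R) ((min_le_right _ _).trans hDR)
      ((min_le_right _ _).trans hDR)
    have h2 : |((min t R : ℕ) : ℤ) - ((min (t + 1) R : ℕ) : ℤ)| ≤ 1 := by
      rw [abs_le]
      omega
    have h3 : ((mulCayley T).dist (f (min t R)) (f (min (t + 1) R)) : ℤ) ≤ 1 := h1.trans_le h2
    exact_mod_cast h3
  · have h1 := hfg ((mulCayley T).dist (γ x₀) q) t le_rfl (ht.trans hDR)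
    rw [fD] at h1
    have h2 : (mulCayley T).dist q (γ x) ≤ (mulCayley T).dist q (f t) +
      (mulCayley T).dist (f t) (γ x) := hconn.dist_triangle
    have h3 := hx₀ x
    rw [SimpleGraph.dist_comm (u := q) (v := γ x₀)] at h3
    rw [abs_of_nonneg (by omega)] at h1
    show t ≤ (mulCayley T).dist (f (min t R)) (γ x)
    rw [min_eq_left ht]
    omega

end Pool.Agent.W5h94.AM
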