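import Pool.Agent.W5h94.AM.Defs2

set_option autoImplicit false

/-!
# Asymptotic minors: flaps far away on a geodesic line
-/

open SimpleGraph

namespace Pool.Agent.W5h94.AM

/-- (FLAPS) -/
theorem flaps (h : S_WM) (h1 : S_FLAP1) : S_FLAPS := by
  intro Q _ T hT hcl hno γ hγ R N
  obtain ⟨hconn, inv, hfin, -, -⟩ := h Q T hT hcl
  have tri : ∀ x y z : Q, (mulCayley T).dist x z ≤ (mulCayley T).dist x y +
    (mulCayley T).dist y z := fun x y z => hconn.dist_triangle
  have sym : ∀ x y : Q, (mulCayley T).dist x y = (mulCayley T).dist y x :=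
    fun x y => SimpleGraph.dist_comm
  -- the translated lines
  let δ : ℕ → ℤ → Q := fun k x => (γ k)⁻¹ * γ (x + k)
  have hδ : ∀ k x y, ((mulCayley T).dist (δ k x) (δ k y) : ℤ) = |x - y| := by
    intro k x y
    have e := inv (γ k)⁻¹ (γ (x + k)) (γ (y + k))
    show ((mulCayley T).dist ((γ k)⁻¹ * γ (x + k)) ((γ k)⁻¹ * γ (y + k)) : ℤ) = |x - y|
    rw [e, hγ]
    congr 1
    ring
  have hδ0 : ∀ k, δ k 0 = 1 := fun k => by simp [δ]
  have hlim : ∀ x : ℤ, ∃ y : Q, ∀ᶠ k in (Filter.hyperfilter ℕ : Filter ℕ), δ k x = y := by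
    intro x
    have hb := hfin 1 x.natAbs
    have hu : (⋃ y ∈ {y | (mulCayley T).dist 1 y ≤ x.natAbs}, {k | δ k x = y}) ∈
        Filter.hyperfilter ℕ := by
      have : (⋃ y ∈ {y | (mulCayley T).dist 1 y ≤ x.natAbs}, {k | δ k x = y}) = Set.univ := by
        rw [Set.eq_univ_iff_forall]
        intro k
        refine Set.mem_iUnion₂.mpr ⟨δ k x, ?_, rfl⟩
        have e := hδ k 0 x
        rw [hδ0, zero_sub, abs_neg, Int.abs_eq_natAbs] at e
        show (mulCayley T).dist 1 (δ k x) ≤ x.natAbs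
        exact (Int.natCast_inj.mp e).le
      rw [this]
      exact Filter.univ_mem
    obtain ⟨y, -, hy⟩ := (Ultrafilter.finite_biUnion_mem_iff hb).mp hu
    exact ⟨y, hy⟩
  choose γ' hγ' using hlim
  have hgeo : ∀ x y, ((mulCayley T).dist (γ' x) (γ' y) : ℤ) = |x - y| := by
    intro x y
    obtain ⟨k, hk1, hk2⟩ := ((hγ' x).and (hγ' y)).exists
    rw [← hk1, ← hk2]
    exact hδ k x y
  obtain ⟨x₀, f, f0, f1, f2⟩ := h1 Q T hT hcl hno γ' hgeo R
  have hev1 : ∀ᶠ k in (Filter.hyperfilter ℕ : Filter ℕ),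
      ∀ x ∈ Set.Icc (x₀ - 2 * R) (x₀ + 2 * R), δ k x = γ' x :=
    (Filter.eventually_all_finite (Set.finite_Icc _ _)).mpr fun x _ => hγ' x
  have hev2 : ∀ᶠ k in (Filter.hyperfilter ℕ : Filter ℕ), (N - x₀).toNat ≤ k :=
    Nat.hyperfilter_le_atTop (Filter.eventually_ge_atTop _)
  obtain ⟨k, hk1, hk2⟩ := (hev1.and hev2).exists
  have hx0 : δ k x₀ = γ' x₀ := hk1 x₀ ⟨by omega, by omega⟩
  refine ⟨x₀ + k, by omega, fun t => γ k * f t, ?_, fun t => ?_, fun t ht x => ?_⟩
  · show γ k * f 0 = γ (x₀ + k)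
    rw [f0, ← hx0]
    exact mul_inv_cancel_left _ _
  · show (mulCayley T).dist (γ k * f t) (γ k * f (t + 1)) ≤ 1
    rw [inv]
    exact f1 t
  · show t ≤ (mulCayley T).dist (γ k * f t) (γ x)
    have e1 : (mulCayley T).dist (γ k * f t) (γ x) = (mulCayley T).dist (f t) (δ k (x - k)) := by
      have e2 : γ x = γ k * δ k (x - k) := by
        show γ x = γ k * ((γ k)⁻¹ * γ (x - k + k))
        rw [mul_inv_cancel_left, sub_add_cancel]
      rw [e2, inv]
    rw [e1]
    by_cases hz : x - k ∈ Set.Icc (x₀ - 2 * (R : ℤ)) (x₀ + 2 * R)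
    · rw [hk1 _ hz]
      exact f2 t ht _
    · have hft : ∀ s, (mulCayley T).dist (f 0) (f s) ≤ s := by
        intro s
        induction s with
        | zero => simp
        | succ s ih => exact (tri _ (f s) _).trans (add_le_add ih (f1 s))
      have e3 := hft t
      rw [f0, ← hx0] at e3
      have e4 := hδ k x₀ (x - k)
      have e5 := tri (δ k x₀) (f t) (δ k (x - k))
      have e6 : 2 * (R : ℤ) < |x₀ - (x - k)| := by
        rw [Set.mem_Icc, not_and_or, not_le, not_le] at hz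
        rcases hz with hz | hz
        · rw [abs_of_nonneg (by omega)]
          omega
        · rw [abs_of_nonpos (by omega)]
          omega
      omega

end Pool.Agent.W5h94.AM
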