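import Pool.Agent.W5h94.AM.Defs

set_option autoImplicit false

/-!
# (LINE) An infinite finitely generated group contains a geodesic line
-/

open SimpleGraph Filter

namespace Pool.Agent.W5h94.AM

theorem line (h : S_WM) : S_LINE := by
  intro Q _ _ T hT hc
  obtain ⟨-, hinv, hfin, -, hgeo⟩ := h Q T hT hc
  have hseg : ∀ n : ℕ, ∃ f : ℤ → Q, f 0 = 1 ∧ ∀ i j : ℤ, |i| ≤ n → |j| ≤ n →
      ((mulCayley T).dist (f i) (f j) : ℤ) = |i - j| := by
    intro n
    obtain ⟨q, hq⟩ : ∃ q : Q, q ∉ {y | (mulCayley T).dist 1 y ≤ 2 * n} :=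
      (hfin 1 (2 * n)).exists_notMem
    have hq' : 2 * n < (mulCayley T).dist 1 q := not_le.1 hq
    obtain ⟨f, hf0, hf1, hf⟩ := hgeo 1 q
    refine ⟨fun i => (f n)⁻¹ * f ((n + i).toNat), ?_, ?_⟩
    · simp
    · intro i j hi hj
      rw [hinv]
      rw [abs_le] at hi hj
      have h1 : (n + i).toNat ≤ (mulCayley T).dist 1 q := by omega
      have h2 : (n + j).toNat ≤ (mulCayley T).dist 1 q := by omega
      rw [hf _ _ h1 h2, Int.toNat_of_nonneg (by omega), Int.toNat_of_nonneg (by omega)]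
      congr 1
      ring
  choose F hF0 hF using hseg
  let U : Ultrafilter ℕ := hyperfilter ℕ
  have hlarge : ∀ i : ℤ, ∀ᶠ n : ℕ in (U : Filter ℕ), |i| ≤ n := by
    intro i
    have h1 : ∀ᶠ n : ℕ in atTop, |i| ≤ (n : ℤ) := by
      filter_upwards [eventually_ge_atTop i.natAbs] with n hn
      rw [Int.abs_eq_natAbs]
      exact_mod_cast hn
    exact h1.filter_mono Nat.hyperfilter_le_atTop
  have hlim : ∀ i : ℤ, ∃ g : Q, ∀ᶠ n in (U : Filter ℕ), F n i = g := by
    intro i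
    have h1 : ∀ᶠ n in (U : Filter ℕ),
        ∃ g ∈ {y | (mulCayley T).dist 1 y ≤ i.natAbs}, F n i = g := by
      filter_upwards [hlarge i] with n hn
      refine ⟨F n i, ?_, rfl⟩
      have h2 := hF n 0 i (by simp) hn
      rw [hF0] at h2
      rw [zero_sub, abs_neg, Int.abs_eq_natAbs] at h2
      have h3 : (mulCayley T).dist 1 (F n i) = i.natAbs := by exact_mod_cast h2
      exact h3.le
    obtain ⟨g, _, hg⟩ := (Ultrafilter.eventually_exists_mem_iff (hfin 1 i.natAbs)).1 h1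
    exact ⟨g, hg⟩
  choose γ hγ using hlim
  refine ⟨γ, fun x y => ?_⟩
  obtain ⟨n, h1, h2, h3, h4⟩ := ((hγ x).and ((hγ y).and ((hlarge x).and (hlarge y)))).exists
  rw [← h1, ← h2]
  exact hF n x y h3 h4

end Pool.Agent.W5h94.AM
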