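import Pool.Agent.W5h94.AM.Defs

set_option autoImplicit false

/-!
# A coarse grid of bounded height with overpasses
-/

open SimpleGraph

namespace Pool.Agent.W5h94.AM

/-- `Over` for the rows `0 ≤ Y ≤ D` only. -/
structure OverB {V : Type} (G : SimpleGraph V) (c K : ℕ) (D : ℤ) where
  pt : ℤ × ℤ → V
  E : ℤ × ℤ → ℤ × ℤ → Set V
  F : ℤ → Set V
  E_conn : ∀ p q, Step p q → 0 ≤ p.2 → q.2 ≤ D →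
    CConn G c (E p q) ∧ pt p ∈ E p q ∧ pt q ∈ E p q
  F_conn : ∀ y, 0 ≤ 2 * y - 1 → 2 * y + 1 ≤ D →
    CConn G c (F y) ∧ pt (0, 2 * y - 1) ∈ F y ∧ pt (0, 2 * y + 1) ∈ F y
  EE : ∀ p q p' q', Step p q → Step p' q' → 0 ≤ p.2 → q.2 ≤ D → 0 ≤ p'.2 → q'.2 ≤ D →
    p ≠ p' → p ≠ q' → q ≠ p' → q ≠ q' →
    ∀ x ∈ E p q, ∀ x' ∈ E p' q', K ≤ G.dist x x'
  FE : ∀ y p q, Step p q → 0 ≤ 2 * y - 1 → 2 * y + 1 ≤ D → 0 ≤ p.2 → q.2 ≤ D →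
    p ≠ (0, 2 * y - 1) → p ≠ (0, 2 * y + 1) → q ≠ (0, 2 * y - 1) →
    q ≠ (0, 2 * y + 1) → ∀ x ∈ F y, ∀ x' ∈ E p q, K ≤ G.dist x x'
  FF : ∀ y y', 0 ≤ 2 * y - 1 → 2 * y' + 1 ≤ D → y + 2 ≤ y' →
    ∀ x ∈ F y, ∀ x' ∈ F y', K ≤ G.dist x x'

/-- (ROUTEB) -/
def S_ROUTEB : Prop := ∀ n : ℕ, ∃ D : ℤ, ∀ (V : Type) (G : SimpleGraph V) (c K : ℕ),
  OverB G c K D →
  ∃ (B : Fin n → Set V) (P : Sym2 (Fin n) → Set V),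
    (∀ v, CConn G c (B v)) ∧ (∀ e, ¬ e.IsDiag → CConn G c (P e)) ∧
    (∀ e, ¬ e.IsDiag → ∀ v ∈ e, (P e ∩ B v).Nonempty) ∧
    (∀ u v, u ≠ v → ∀ x ∈ B u, ∀ y ∈ B v, K ≤ G.dist x y) ∧
    (∀ e f, ¬ e.IsDiag → ¬ f.IsDiag → e ≠ f → ∀ x ∈ P e, ∀ y ∈ P f, K ≤ G.dist x y) ∧
    ∀ e, ¬ e.IsDiag → ∀ w, w ∉ e → ∀ x ∈ P e, ∀ y ∈ B w, K ≤ G.dist x y

end Pool.Agent.W5h94.AM
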