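import Pool.Agent.W5h94.AM.Route
import Pool.Agent.W5h94.AM.Defs3

set_option autoImplicit false

/-!
# A coarse grid of bounded height with overpasses contains the complete graphs
-/

open SimpleGraph

namespace Pool.Agent.W5h94.AM

namespace RouteB

open Route

section grid

/-- the snake number `i` in the rows `0 ≤ Y ≤ M` -/
def SB (M N i : ℤ) : Set (ℤ × ℤ) := {p | p ∈ S N i ∧ 0 ≤ p.2 ∧ p.2 ≤ M}

theorem reachB {M N : ℤ} {i : ℤ} (hi0 : 0 ≤ i) (hi : i < N) (m : ℕ)
    (hM : 4 * N * (m : ℤ) + 2 * i ≤ M) :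
    Rch (SB M N i) (0, 2 * i) (0, 4 * N * m + 2 * i) := by
  have hN : 0 < N := by omega
  induction m with
  | zero =>
    have : 4 * N * ((0 : ℕ) : ℤ) + 2 * i = 2 * i := by simp
    rw [this]
    exact Relation.ReflTransGen.refl
  | succ m ih =>
    have e0 : 4 * N * (((m + 1 : ℕ) : ℤ)) = 4 * N * m + 4 * N := by push_cast; ring
    rw [e0] at hM
    have hm0 : 0 ≤ 4 * N * (m : ℤ) := by positivity
    have ih := ih (by omega)
    -- 1
    have s1 : Rch (SB M N i) (0, 2 * i) (N - i, 4 * N * m + 2 * i) := by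
      refine rch_right (by omega) ih fun X h1 h2 => ⟨?_, by dsimp only; omega, by dsimp only; omega⟩
      exact memR hN h1 (m := m) (v := -(2 * N - 2 * i - 1)) (by ring) (by omega) (by omega)
        (by omega)
    -- 2
    have s2 : Rch (SB M N i) (0, 2 * i) (N - i, 4 * N * m + (4 * N - 2 - 2 * i)) := by
      refine rch_up (by omega) s1 fun Y h1 h2 => ⟨?_, by dsimp only; omega, by dsimp only; omega⟩
      exact memR hN (by omega) (m := m) (v := Y + 1 - 4 * N * m - 2 * N) (by ring) (by omega)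
        (by omega) (by omega)
    -- 3
    have s3 : Rch (SB M N i) (0, 2 * i) (0, 4 * N * m + (4 * N - 2 - 2 * i)) := by
      refine rch_left (by omega) s2 fun X h1 h2 => ⟨?_, by dsimp only; omega, by dsimp only; omega⟩
      exact memR hN h1 (m := m) (v := 2 * N - 2 * i - 1) (by ring) (by omega) (by omega)
        (by omega)
    -- 4
    have s4 : Rch (SB M N i) (0, 2 * i) (-(i + 1), 4 * N * m + (4 * N - 2 - 2 * i)) := by
      refine rch_left (by omega) s3 fun X h1 h2 => ⟨?_, by dsimp only; omega, by dsimp only; omega⟩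
      exact memL hN h2 (m := m + 1) (v := -(2 * i + 1)) (by ring) (by omega) (by omega)
        (by omega)
    -- 5
    have s5 : Rch (SB M N i) (0, 2 * i) (-(i + 1), 4 * N * (m + 1) + 2 * i) := by
      have e : 4 * N * ((m : ℤ) + 1) = 4 * N * m + 4 * N := by ring
      rw [e]
      refine rch_up (by omega) s4 fun Y h1 h2 => ⟨?_, by dsimp only; omega, by dsimp only; omega⟩
      exact memL hN (by omega) (m := m + 1) (v := Y + 1 - 4 * N * (m + 1)) (by ring)
        (by rw [e]; omega) (by rw [e]; omega) (by rw [e]; omega)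
    -- 6
    have s6 : Rch (SB M N i) (0, 2 * i) (0, 4 * N * (m + 1) + 2 * i) := by
      have e : 4 * N * ((m : ℤ) + 1) = 4 * N * m + 4 * N := by ring
      refine rch_right (by omega) s5 fun X h1 h2 =>
        ⟨?_, by dsimp only; rw [e]; omega, by dsimp only; rw [e]; omega⟩
      exact memL hN h2 (m := m + 1) (v := 2 * i + 1) (by ring) (by omega) (by omega)
        (by omega)
    simpa using s6

theorem base_memB {M N : ℤ} {i : ℤ} (hi0 : 0 ≤ i) (hi : i < N) (m : ℕ)
    (hM : 4 * N * (m : ℤ) + 2 * i ≤ M) {X : ℤ} (hX : 0 ≤ X)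
    (hX1 : X ≤ 1) : (X, 4 * N * (m : ℤ) + 2 * i) ∈ SB M N i := by
  have hN : 0 < N := by omega
  have hm0 : 0 ≤ 4 * N * (m : ℤ) := by positivity
  exact ⟨base_mem hi0 hi m hX hX1, by dsimp only; omega, hM⟩

end grid

section main

variable {V : Type} {G : SimpleGraph V} {c K : ℕ} {M : ℤ}

/-- the branch sets -/
def BsB (O : OverB G c K M) (N i : ℤ) : Set V :=
  {x | ∃ p q, Step p q ∧ Rch (SB M N i) (0, 2 * i) p ∧ Rch (SB M N i) (0, 2 * i) q ∧ x ∈ O.E p q}

theorem pt_memB (O : OverB G c K M) {N i : ℤ} (hi0 : 0 ≤ i) (hi : i < N) (m : ℕ)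
    (hM : 4 * N * (m : ℤ) + 2 * i ≤ M) : O.pt (0, 4 * N * m + 2 * i) ∈ BsB O N i := by
  have h1 := reachB hi0 hi m hM
  have hst : Step (0, 4 * N * m + 2 * i) (1, 4 * N * m + 2 * i) := Or.inl ⟨by simp, rfl⟩
  have h2 : Rch (SB M N i) (0, 2 * i) (1, 4 * N * m + 2 * i) :=
    Relation.ReflTransGen.tail h1 ⟨base_memB hi0 hi m hM (by omega) le_rfl, Or.inl hst⟩
  have hN : 0 < N := by omega
  have hm0 : 0 ≤ 4 * N * (m : ℤ) := by positivity
  exact ⟨_, _, hst, h1, h2, (O.E_conn _ _ hst (by dsimp only; omega) hM).2.1⟩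

theorem baseB {N i : ℤ} (hi0 : 0 ≤ i) (hi : i < N) (hM : 2 * i ≤ M) :
    ((0 : ℤ), 2 * i) ∈ SB M N i := by
  have := base_memB (M := M) (N := N) hi0 hi 0 (by simpa using hM) (X := 0) le_rfl (by norm_num)
  simpa using this

theorem Bs_connB (O : OverB G c K M) {N i : ℤ} (hi0 : 0 ≤ i) (hi : i < N) (hM : 2 * i ≤ M) :
    CConn G c (BsB O N i) := by
  have hbase := baseB (M := M) hi0 hi hM
  have h0 : O.pt (0, 2 * i) ∈ BsB O N i := by
    have := pt_memB O hi0 hi 0 (by simpa using hM)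
    simpa using this
  have hpt : ∀ p, Rch (SB M N i) (0, 2 * i) p →
      Cn G c (BsB O N i) (O.pt (0, 2 * i)) (O.pt p) := by
    intro p hp
    unfold Rch at hp
    induction hp with
    | refl => exact Relation.ReflTransGen.refl
    | @tail p q hp hpq ih =>
      have hq : Rch (SB M N i) (0, 2 * i) q := Relation.ReflTransGen.tail hp hpq
      have hp1 : p ∈ SB M N i := Rch.mem hbase hp
      have hq1 : q ∈ SB M N i := Rch.mem hbase hq
      rcases hpq.2 with h | h
      · have hE := O.E_conn p q h hp1.2.1 hq1.2.2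
        exact Cn.of_cconn hE.1 (fun x hx => ⟨p, q, h, hp, hq, hx⟩) ih hE.2.1 hE.2.2
      · have hE := O.E_conn q p h hq1.2.1 hp1.2.2
        exact Cn.of_cconn hE.1 (fun x hx => ⟨q, p, h, hq, hp, hx⟩) ih hE.2.2 hE.2.1
  refine cconn_of h0 ?_
  rintro x ⟨p, q, hst, hp, hq, hx⟩
  have hE := O.E_conn p q hst (Rch.mem hbase hp).2.1 (Rch.mem hbase hq).2.2
  exact Cn.of_cconn hE.1 (fun x hx => ⟨p, q, hst, hp, hq, hx⟩) (hpt p hp) hE.2.1 hx

/-- the paths -/
def PsB (O : OverB G c K M) (r r' : ℤ) : Set V :=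
  O.E (0, 2 * r) (0, 2 * r + 1) ∪ {x | ∃ y, r < y ∧ y < r' ∧ x ∈ O.F y} ∪
    O.E (0, 2 * r' - 1) (0, 2 * r' - 1 + 1)

theorem Ps_leftB (O : OverB G c K M) {r r' : ℤ} (h0 : 0 ≤ r) (h : r < r') (hM : 2 * r' ≤ M) :
    O.pt (0, 2 * r) ∈ PsB O r r' :=
  Or.inl (Or.inl (O.E_conn _ _ (step_up (2 * r)) (by dsimp only; omega)
    (by dsimp only; omega)).2.1)

theorem Ps_rightB (O : OverB G c K M) {r r' : ℤ} (h0 : 0 ≤ r) (h : r < r') (hM : 2 * r' ≤ M) :
    O.pt (0, 2 * r') ∈ PsB O r r' := by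
  have h := (O.E_conn _ _ (step_up (2 * r' - 1)) (by dsimp only; omega)
    (by dsimp only; omega)).2.2
  have e : 2 * r' - 1 + 1 = 2 * r' := by ring
  refine Or.inr ?_
  have h' := h
  rw [show O.pt (0, 2 * r' - 1 + 1) = O.pt (0, 2 * r') by rw [e]] at h'
  exact h'

theorem Ps_connB (O : OverB G c K M) {r r' : ℤ} (h0 : 0 ≤ r) (h : r < r') (hM : 2 * r' ≤ M) :
    CConn G c (PsB O r r') := by
  have hst := step_up (2 * r)
  have hE := O.E_conn _ _ hst (by dsimp only; omega) (by dsimp only; omega)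
  have h1 : Cn G c (PsB O r r') (O.pt (0, 2 * r)) (O.pt (0, 2 * r + 1)) :=
    Cn.of_cconn hE.1 (fun x hx => Or.inl (Or.inl hx)) Relation.ReflTransGen.refl hE.2.1 hE.2.2
  have h2 : ∀ k : ℕ, r + k < r' →
      Cn G c (PsB O r r') (O.pt (0, 2 * r)) (O.pt (0, 2 * (r + k) + 1)) := by
    intro k
    induction k with
    | zero => intro _; simpa using h1
    | succ k ih =>
      intro hk
      have ih' := ih (by push_cast at hk; omega)
      have hF := O.F_conn (r + (k + 1 : ℕ)) (by push_cast; omega) (by push_cast at hk ⊢; omega)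
      have e : 2 * (r + ((k + 1 : ℕ) : ℤ)) - 1 = 2 * (r + k) + 1 := by push_cast; ring
      rw [← e] at ih'
      exact Cn.of_cconn hF.1 (fun x hx => Or.inl (Or.inr ⟨_, by push_cast; omega, hk, hx⟩)) ih'
        hF.2.1 hF.2.2
  have h3 : ∀ y : ℤ, r ≤ y → y < r' →
      Cn G c (PsB O r r') (O.pt (0, 2 * r)) (O.pt (0, 2 * y + 1)) := by
    intro y hy hy'
    obtain ⟨k, hk⟩ := Int.le.dest hy
    rw [← hk]
    exact h2 k (by omega)
  refine cconn_of (Ps_leftB O h0 h hM) ?_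
  rintro x ((hx | ⟨y, hy, hy', hx⟩) | hx)
  · exact Cn.of_cconn hE.1 (fun x hx => Or.inl (Or.inl hx))
      Relation.ReflTransGen.refl hE.2.1 hx
  · have h4 := h3 (y - 1) (by omega) (by omega)
    have e : 2 * (y - 1) + 1 = 2 * y - 1 := by ring
    rw [e] at h4
    have hF := O.F_conn y (by omega) (by omega)
    exact Cn.of_cconn hF.1 (fun x hx => Or.inl (Or.inr ⟨y, hy, hy', hx⟩)) h4 hF.2.1 hx
  · have h4 := h3 (r' - 1) (by omega) (by omega)
    have e : 2 * (r' - 1) + 1 = 2 * r' - 1 := by ring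
    rw [e] at h4
    have hst' := step_up (2 * r' - 1)
    have hE' := O.E_conn _ _ hst' (by dsimp only; omega) (by dsimp only; omega)
    exact Cn.of_cconn hE'.1 (fun x hx => Or.inr hx) h4 hE'.2.1 hx

/-- pieces of the column -/
def PcB (O : OverB G c K M) (lo hi : ℤ) (x : V) : Prop :=
  (∃ a, lo ≤ a ∧ a + 1 ≤ hi ∧ x ∈ O.E (0, a) (0, a + 1)) ∨
    ∃ y, lo ≤ 2 * y - 1 ∧ 2 * y + 1 ≤ hi ∧ x ∈ O.F y

theorem Ps_pcB (O : OverB G c K M) {r r' lo hi : ℤ} (h : r < r') (hlo : lo ≤ 2 * r)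
    (hhi : 2 * r' ≤ hi) {x : V} (hx : x ∈ PsB O r r') : PcB O lo hi x := by
  rcases hx with (hx | ⟨y, hy, hy', hx⟩) | hx
  · exact Or.inl ⟨2 * r, hlo, by omega, hx⟩
  · exact Or.inr ⟨y, by omega, by omega, hx⟩
  · exact Or.inl ⟨2 * r' - 1, by omega, by omega, hx⟩

theorem Pc_farB (O : OverB G c K M) {lo hi lo' hi' : ℤ} (h : hi + 2 ≤ lo') (hlo : 0 ≤ lo)
    (hhi : hi ≤ M) (hlo' : 0 ≤ lo') (hhi' : hi' ≤ M) {x x' : V}
    (hx : PcB O lo hi x) (hx' : PcB O lo' hi' x') : K ≤ G.dist x x' := by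
  rcases hx with ⟨a, h1, h2, hx⟩ | ⟨y, h1, h2, hx⟩
  · rcases hx' with ⟨a', h1', h2', hx'⟩ | ⟨y', h1', h2', hx'⟩
    · exact O.EE _ _ _ _ (step_up a) (step_up a') (by dsimp only; omega) (by dsimp only; omega)
        (by dsimp only; omega) (by dsimp only; omega) (ne_snd (by omega)) (ne_snd (by omega))
        (ne_snd (by omega)) (ne_snd (by omega)) x hx x' hx'
    · rw [SimpleGraph.dist_comm]
      exact O.FE y' _ _ (step_up a) (by omega) (by omega) (by dsimp only; omega)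
        (by dsimp only; omega) (ne_snd (by omega)) (ne_snd (by omega)) (ne_snd (by omega))
        (ne_snd (by omega)) x' hx' x hx
  · rcases hx' with ⟨a', h1', h2', hx'⟩ | ⟨y', h1', h2', hx'⟩
    · exact O.FE y _ _ (step_up a') (by omega) (by omega) (by dsimp only; omega)
        (by dsimp only; omega) (ne_snd (by omega)) (ne_snd (by omega)) (ne_snd (by omega))
        (ne_snd (by omega)) x hx x' hx'
    · exact O.FF y y' (by omega) (by omega) (by omega) x hx x' hx'

/-- a path and a branch set which is not met -/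
theorem Ps_BsB (O : OverB G c K M) {N i : ℤ} {r r' : ℤ} (hbase : ((0 : ℤ), 2 * i) ∈ SB M N i)
    (h0 : 0 ≤ r) (hr : r < r') (hM : 2 * r' ≤ M)
    (h1 : ((0 : ℤ), 2 * r) ∉ S N i) (h2 : ((0 : ℤ), 2 * r') ∉ S N i) {x x' : V}
    (hx : x ∈ PsB O r r') (hx' : x' ∈ BsB O N i) : K ≤ G.dist x x' := by
  obtain ⟨p, q, hst, hp, hq, hx'⟩ := hx'
  obtain ⟨hp', hp1, hp2⟩ := hp.mem hbase
  obtain ⟨hq', hq1, hq2⟩ := hq.mem hbase
  have hodd : ∀ b : ℤ, ((0 : ℤ), 2 * b + 1) ∉ S N i := by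
    intro b hb
    have := even_of_mem hb
    omega
  have hodd' : ∀ b : ℤ, ((0 : ℤ), 2 * b - 1) ∉ S N i := by
    intro b hb
    have := even_of_mem hb
    omega
  have hne : ∀ {s t : ℤ × ℤ}, s ∉ S N i → t ∈ S N i → s ≠ t := fun h h' e => h (e ▸ h')
  rcases hx with (hx | ⟨y, hy, hy', hx⟩) | hx
  · exact O.EE _ _ p q (step_up (2 * r)) hst (by dsimp only; omega) (by dsimp only; omega)
      hp1 hq2 (hne h1 hp') (hne h1 hq') (hne (hodd r) hp')
      (hne (hodd r) hq') x hx x' hx'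
  · exact O.FE y p q hst (by omega) (by omega) hp1 hq2 (hne (hodd' y) hp').symm
      (hne (hodd y) hp').symm
      (hne (hodd' y) hq').symm (hne (hodd y) hq').symm x hx x' hx'
  · have h3 : ((0 : ℤ), 2 * r' - 1 + 1) ∉ S N i := by
      have e : 2 * r' - 1 + 1 = 2 * r' := by ring
      rw [e]
      exact h2
    exact O.EE _ _ p q (step_up (2 * r' - 1)) hst (by dsimp only; omega) (by dsimp only; omega)
      hp1 hq2 (hne (hodd' r') hp') (hne (hodd' r') hq')
      (hne h3 hp') (hne h3 hq') x hx x' hx'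

theorem Bs_BsB (O : OverB G c K M) {N i j : ℤ} (hi : ((0 : ℤ), 2 * i) ∈ SB M N i)
    (hj : ((0 : ℤ), 2 * j) ∈ SB M N j) (hij : i ≠ j) {x x' : V}
    (hx : x ∈ BsB O N i) (hx' : x' ∈ BsB O N j) : K ≤ G.dist x x' := by
  obtain ⟨p, q, hst, hp, hq, hx⟩ := hx
  obtain ⟨p', q', hst', hp', hq', hx'⟩ := hx'
  have hne : ∀ {s t : ℤ × ℤ}, s ∈ SB M N i → t ∈ SB M N j → s ≠ t := by
    intro s t hs ht e
    subst e
    have h1 : g N s = 2 * i + 1 := hs.1
    have h2 : g N s = 2 * j + 1 := ht.1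
    omega
  exact O.EE p q p' q' hst hst' (hp.mem hi).2.1 (hq.mem hi).2.2 (hp'.mem hj).2.1 (hq'.mem hj).2.2
    (hne (hp.mem hi) (hp'.mem hj)) (hne (hp.mem hi) (hq'.mem hj))
    (hne (hq.mem hi) (hp'.mem hj)) (hne (hq.mem hi) (hq'.mem hj)) x hx x' hx'

end main

end RouteB

open Route RouteB

/-- (ROUTEB) -/
theorem routeB : S_ROUTEB := by
  classical
  intro n
  obtain ⟨N, hN⟩ : ∃ N : ℤ, N = (n : ℤ) := ⟨_, rfl⟩
  obtain ⟨L, hL⟩ : ∃ L : ℤ, L = (Fintype.card (Sym2 (Fin n)) : ℤ) := ⟨_, rfl⟩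
  refine ⟨4 * N * L + 2 * N, ?_⟩
  intro V G c K O
  have hNn : 0 ≤ N := by omega
  have hLn : 0 ≤ L := by omega
  have hNL : 0 ≤ 4 * N * L := by positivity
  have hb : ∀ i : Fin n, ((0 : ℤ), 2 * (i : ℤ)) ∈ SB (4 * N * L + 2 * N) N i := by
    intro i
    exact baseB (by positivity) (by have := i.isLt; omega) (by have := i.isLt; omega)
  have hsplit : ∀ e : Sym2 (Fin n), ∃ ij : Fin n × Fin n, ¬ e.IsDiag →
      ij.1 < ij.2 ∧ e = s(ij.1, ij.2) := by
    intro e
    induction e using Sym2.ind with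
    | _ a b =>
      rcases lt_trichotomy a b with h | h | h
      · exact ⟨(a, b), fun _ => ⟨h, rfl⟩⟩
      · exact ⟨(a, b), fun hd => (hd (Sym2.mk_isDiag_iff.2 h)).elim⟩
      · exact ⟨(b, a), fun _ => ⟨h, Sym2.eq_swap⟩⟩
  choose ij hij using hsplit
  obtain ⟨enc, henc, hencL⟩ : ∃ enc : Sym2 (Fin n) → ℕ, Function.Injective enc ∧
      ∀ e, (enc e : ℤ) + 1 ≤ L :=
    ⟨fun e => (Fintype.equivFin (Sym2 (Fin n)) e : ℕ), fun a b h =>
      (Fintype.equivFin _).injective (Fin.ext h), fun e => by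
        have := (Fintype.equivFin (Sym2 (Fin n)) e).isLt
        rw [hL]
        exact_mod_cast this⟩
  have hbd : ∀ e : Sym2 (Fin n), 4 * N * (enc e : ℤ) + 4 * N ≤ 4 * N * L := by
    intro e
    have h5 := hencL e
    have h6 : 4 * N * ((enc e : ℤ) + 1) ≤ 4 * N * L := mul_le_mul_of_nonneg_left h5 (by omega)
    linarith
  have hbd0 : ∀ e : Sym2 (Fin n), 0 ≤ 4 * N * (enc e : ℤ) := fun e => by positivity
  have hbd2 : ∀ e : Sym2 (Fin n), 0 ≤ 2 * N * (enc e : ℤ) := fun e => by positivity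
  have hdb : ∀ e : Sym2 (Fin n), 4 * N * (enc e : ℤ) = 2 * (2 * N * (enc e : ℤ)) := fun e => by ring
  refine ⟨fun i => BsB O N i, fun e => PsB O (2 * N * enc e + ((ij e).1 : ℤ))
    (2 * N * enc e + ((ij e).2 : ℤ)), fun i => Bs_connB O (by positivity)
      (by have := i.isLt; omega) (by have := i.isLt; omega),
    ?_, ?_, ?_, ?_, ?_⟩
  · intro e he
    have h1 : ((ij e).1 : ℕ) < (ij e).2 := (hij e he).1
    have h2 := (ij e).2.isLt
    have := hbd e
    have := hbd2 e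
    have := hdb e
    exact Ps_connB O (by omega) (by omega) (by omega)
  · intro e he v hv
    obtain ⟨h1, h2⟩ := hij e he
    rw [h2, Sym2.mem_iff] at hv
    have h1' : ((ij e).1 : ℕ) < (ij e).2 := h1
    have h3 := (ij e).2.isLt
    have k1 := hbd e
    have k2 := hbd2 e
    have k3 := hdb e
    have key : ∀ i : Fin n, O.pt (0, 2 * (2 * N * enc e + (i : ℤ))) ∈ BsB O N i := by
      intro i
      have hi := i.isLt
      have := pt_memB O (N := N) (i := (i : ℤ)) (by positivity) (by omega) (enc e) (by omega)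
      have e1 : 2 * (2 * N * (enc e : ℤ) + (i : ℤ)) = 4 * N * (enc e) + 2 * i := by ring
      rw [e1]
      exact this
    rcases hv with hv | hv
    · subst hv
      exact ⟨_, Ps_leftB O (by omega) (by omega) (by omega), key _⟩
    · subst hv
      exact ⟨_, Ps_rightB O (by omega) (by omega) (by omega), key _⟩
  · intro u v huv x hx y hy
    exact Bs_BsB O (hb u) (hb v) (fun h => huv (Fin.ext (by exact_mod_cast h))) hx hy
  · intro e f he hf hef x hx y hy
    have h1 : ((ij e).1 : ℕ) < (ij e).2 := (hij e he).1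
    have h2 : ((ij f).1 : ℕ) < (ij f).2 := (hij f hf).1
    have h3 := (ij e).2.isLt
    have h4 := (ij f).2.isLt
    have ke1 := hbd e
    have ke2 := hbd0 e
    have kf1 := hbd f
    have kf2 := hbd0 f
    have hx' : PcB O (4 * N * enc e) (4 * N * enc e + 2 * N - 2) x :=
      Ps_pcB O (by omega) (by linarith [Int.natCast_nonneg (ij e).1.val])
        (by have : ((ij e).2 : ℤ) + 1 ≤ N := by omega
            linarith) hx
    have hy' : PcB O (4 * N * enc f) (4 * N * enc f + 2 * N - 2) y :=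
      Ps_pcB O (by omega) (by linarith [Int.natCast_nonneg (ij f).1.val])
        (by have : ((ij f).2 : ℤ) + 1 ≤ N := by omega
            linarith) hy
    have hN0 : 0 < N := by omega
    rcases lt_or_gt_of_ne (henc.ne hef) with h | h
    · have h5 : (enc e : ℤ) + 1 ≤ enc f := by exact_mod_cast h
      have h6 : 4 * N * ((enc e : ℤ) + 1) ≤ 4 * N * enc f :=
        mul_le_mul_of_nonneg_left h5 (by omega)
      exact Pc_farB O (by linarith) (by linarith) (by linarith) (by linarith) (by linarith) hx' hy'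
    · rw [SimpleGraph.dist_comm]
      have h5 : (enc f : ℤ) + 1 ≤ enc e := by exact_mod_cast h
      have h6 : 4 * N * ((enc f : ℤ) + 1) ≤ 4 * N * enc e :=
        mul_le_mul_of_nonneg_left h5 (by omega)
      exact Pc_farB O (by linarith) (by linarith) (by linarith) (by linarith) (by linarith) hy' hx'
  · intro e he w hw x hx y hy
    obtain ⟨h1, h2⟩ := hij e he
    rw [h2, Sym2.mem_iff, not_or] at hw
    have h1' : ((ij e).1 : ℕ) < (ij e).2 := h1
    have h3 := (ij e).2.isLt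
    have k1 := hbd e
    have k2 := hbd2 e
    have k3 := hdb e
    have key : ∀ i : Fin n, w ≠ i → ((0 : ℤ), 2 * (2 * N * enc e + (i : ℤ))) ∉ S N w := by
      intro i hi hmem
      have hm : ((0 : ℤ), 4 * N * (enc e : ℤ) + 2 * i) ∈ S N i :=
        base_mem (N := N) (i := (i : ℤ)) (by positivity) (by have := i.isLt; omega) (enc e)
          (X := 0) le_rfl (by norm_num)
      have e1 : 2 * (2 * N * (enc e : ℤ) + (i : ℤ)) = 4 * N * (enc e) + 2 * i := by ring
      rw [e1] at hmem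
      have a1 : g N (0, 4 * N * (enc e : ℤ) + 2 * i) = 2 * w + 1 := hmem
      have a2 : g N (0, 4 * N * (enc e : ℤ) + 2 * i) = 2 * i + 1 := hm
      exact hi (Fin.ext (by omega))
    exact Ps_BsB O (hb w) (by omega) (by omega) (by omega) (key _ hw.1) (key _ hw.2) hx hy

end Pool.Agent.W5h94.AM
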