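import Pool.Agent.W5h94.AM.Defs

set_option autoImplicit false

/-!
# Thickening: fat minors from sets which are connected at scale `c`
-/

open SimpleGraph

namespace Pool.Agent.W5h94.AM

namespace Thick

variable {V : Type} {G : SimpleGraph V}

/-- the union of the geodesics between points of `X` at distance at most `c` -/
def thk (G : SimpleGraph V) (c : ℕ) (X : Set V) : Set V :=
  {w | ∃ x ∈ X, ∃ y ∈ X, G.dist x y ≤ c ∧ G.dist x w + G.dist w y = G.dist x y}

theorem sub_thk (c : ℕ) (X : Set V) : X ⊆ thk G c X := by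
  intro x hx
  exact ⟨x, hx, x, hx, by simp, by simp⟩

theorem near (c : ℕ) (X : Set V) {w : V} (hw : w ∈ thk G c X) : ∃ x ∈ X, G.dist x w ≤ c := by
  obtain ⟨x, hx, y, _, h1, h2⟩ := hw
  exact ⟨x, hx, by omega⟩

theorem reach (hG : G.Connected) {c : ℕ} {X : Set V} {x y w : V} (hx : x ∈ X) (hy : y ∈ X)
    (hxy : G.dist x y ≤ c) (hw : G.dist x w + G.dist w y = G.dist x y) (hxt : x ∈ thk G c X)
    (hwt : w ∈ thk G c X) : (G.induce (thk G c X)).Reachable ⟨x, hxt⟩ ⟨w, hwt⟩ := by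
  classical
  obtain ⟨p, hp⟩ := hG.exists_walk_length_eq_dist x w
  have hsup : ∀ u ∈ p.support, u ∈ thk G c X := by
    intro u hu
    refine ⟨x, hx, y, hy, hxy, ?_⟩
    have h1 : (p.takeUntil u hu).length + (p.dropUntil u hu).length = G.dist x w := by
      rw [← hp]
      conv_rhs => rw [← p.take_spec hu]
      rw [Walk.length_append]
    have h2 := dist_le (p.takeUntil u hu)
    have h3 := dist_le (p.dropUntil u hu)
    have h4 : G.dist u y ≤ G.dist u w + G.dist w y := hG.dist_triangle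
    have h5 : G.dist x y ≤ G.dist x u + G.dist u y := hG.dist_triangle
    omega
  exact ⟨p.induce _ hsup⟩

theorem conn (hG : G.Connected) {c : ℕ} {X : Set V} (hX : CConn G c X) :
    (G.induce (thk G c X)).Connected := by
  obtain ⟨⟨x0, hx0⟩, hX2⟩ := hX
  have hXX : ∀ x y (hx : x ∈ X) (hy : y ∈ X), (G.induce (thk G c X)).Reachable
      ⟨x, sub_thk c X hx⟩ ⟨y, sub_thk c X hy⟩ := by
    intro x y hx hy
    have h := hX2 x hx y hy
    induction h with
    | refl => exact Reachable.refl _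
    | @tail b z hb hbz ih =>
      have hbX : b ∈ X := by
        rcases Relation.ReflTransGen.cases_tail hb with h | ⟨d, _, hd⟩
        · exact h ▸ hx
        · exact hd.1
      refine (ih hbX).trans ?_
      exact reach hG hbX hy hbz.2 (by simp) _ _
  have hall : ∀ w (hw : w ∈ thk G c X), (G.induce (thk G c X)).Reachable
      ⟨x0, sub_thk c X hx0⟩ ⟨w, hw⟩ := by
    intro w hw
    obtain ⟨x, hx, y, hy, h1, h2⟩ := id hw
    exact (hXX x0 x hx0 hx).trans (reach hG hx hy h1 h2 _ _)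
  have _ : Nonempty (thk G c X) := ⟨⟨x0, sub_thk c X hx0⟩⟩
  refine ⟨fun u v => ?_⟩
  exact (hall u.1 u.2).symm.trans (hall v.1 v.2)

theorem path_in {s : Set V} (hs : (G.induce s).Connected) {a b : V} (ha : a ∈ s) (hb : b ∈ s) :
    ∃ p : G.Walk a b, p.IsPath ∧ ∀ x ∈ p.support, x ∈ s := by
  classical
  obtain ⟨q⟩ := hs.preconnected ⟨a, ha⟩ ⟨b, hb⟩
  refine ⟨(q.map (Embedding.induce s).toHom).bypass, Walk.bypass_isPath _, fun x hx => ?_⟩
  have h1 := Walk.support_bypass_subset_support _ hx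
  have h2 : x ∈ List.map (Embedding.induce s).toHom q.support :=
    (Walk.support_map (Embedding.induce s).toHom q) ▸ h1
  rw [List.mem_map] at h2
  obtain ⟨y, _, rfl⟩ := h2
  exact y.2

theorem far (hG : G.Connected) {c K : ℕ} {X Y : Set V}
    (h : ∀ x ∈ X, ∀ y ∈ Y, K + 2 * c ≤ G.dist x y) :
    ∀ x ∈ thk G c X, ∀ y ∈ thk G c Y, K ≤ G.dist x y := by
  intro x hx y hy
  obtain ⟨x', hx', h1⟩ := near c X hx
  obtain ⟨y', hy', h2⟩ := near c Y hy
  have h3 := h x' hx' y' hy'
  have h4 : G.dist x' y' ≤ G.dist x' x + G.dist x y' := hG.dist_triangle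
  have h5 : G.dist x y' ≤ G.dist x y + G.dist y y' := hG.dist_triangle
  have h6 : G.dist y y' = G.dist y' y := dist_comm
  omega

end Thick

open Thick

theorem thick : S_THICK := by
  intro V W G hG H c K B P hB hP hPB hBB hPP hPBw
  classical
  -- the paths
  have hex : ∀ e ∈ H.edgeSet, ∃ S : Set V, S ⊆ thk G c (P e) ∧ ∀ u v, e = s(u, v) →
      ∃ (a b : V) (p : G.Walk a b), p.IsPath ∧ a ∈ thk G c (B u) ∧ b ∈ thk G c (B v) ∧
        S = {x | x ∈ p.support} := by
    intro e he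
    induction e using Sym2.ind with
    | _ u0 v0 =>
      obtain ⟨a, haP, haB⟩ := hPB _ he u0 (Sym2.mem_mk_left u0 v0)
      obtain ⟨b, hbP, hbB⟩ := hPB _ he v0 (Sym2.mem_mk_right u0 v0)
      obtain ⟨p, hp, hps⟩ := path_in (conn hG (hP _ he)) (sub_thk c _ haP) (sub_thk c _ hbP)
      refine ⟨{x | x ∈ p.support}, fun x hx => hps x hx, fun u v huv => ?_⟩
      rcases Sym2.eq_iff.1 huv with ⟨h1, h2⟩ | ⟨h1, h2⟩
      · rw [← h1, ← h2]
        exact ⟨a, b, p, hp, sub_thk c _ haB, sub_thk c _ hbB, rfl⟩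
      · rw [← h1, ← h2]
        exact ⟨b, a, p.reverse, hp.reverse, sub_thk c _ hbB, sub_thk c _ haB, by
          ext x; simp⟩
  choose! S hS1 hS2 using hex
  refine ⟨fun v => (⊤ : G.Subgraph).induce (thk G c (B v)), S, fun v => ?_, fun u v huv => ?_,
    fun u v huv x hx y hy => ?_, fun e he f hf hef x hx y hy => ?_, fun e he w hw x hx y hy => ?_⟩
  · exact connected_induce_iff.1 (conn hG (hB v))
  · obtain ⟨a, b, p, h1, h2, h3, h4⟩ := hS2 s(u, v) ((mem_edgeSet H).2 huv) u v rfl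
    exact ⟨a, b, p, h1, h2, h3, h4⟩
  · exact far hG (hBB u v huv) x hx y hy
  · exact far hG (hPP e he f hf hef) x (hS1 e he hx) y (hS1 f hf hy)
  · exact far hG (hPBw e he w hw) x (hS1 e he hx) y hy

end Pool.Agent.W5h94.AM
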