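import Pool.Agent.W5h94.AM.Defs2
import Pool.Agent.W5h94.AM.Thick

set_option autoImplicit false

/-!
# Fat minors in extensions with infinite finitely generated kernel
-/

open SimpleGraph

namespace Pool.Agent.W5h94.AM

section conn

variable {V : Type} {G : SimpleGraph V} {c : ℕ}

lemma cconn_base {X : Set V} {x₀ : V} (h0 : x₀ ∈ X)
    (h : ∀ x ∈ X, Relation.ReflTransGen (fun u v => u ∈ X ∧ v ∈ X ∧ G.dist u v ≤ c) x₀ x) :
    CConn G c X := by
  refine ⟨⟨x₀, h0⟩, fun x hx y hy => ?_⟩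
  have h1 : Relation.ReflTransGen (fun u v => u ∈ X ∧ v ∈ X ∧ G.dist u v ≤ c) x x₀ := by
    have h2 := h x hx
    clear hx
    induction h2 with
    | refl => exact Relation.ReflTransGen.refl
    | tail _ h3 ih =>
      refine Relation.ReflTransGen.head ⟨h3.2.1, h3.1, ?_⟩ ih
      rw [dist_comm]
      exact h3.2.2
  have h2 := h1.trans (h y hy)
  have h3 : (fun u v : V => u ∈ X ∧ v ∈ X ∧ G.dist u v ≤ c) ≤
      (fun u v : V => v ∈ X ∧ G.dist u v ≤ c) := fun u v h => ⟨h.2.1, h.2.2⟩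
  exact Relation.ReflTransGen.mono h3 x y h2

end conn

lemma ex_bound {α : Type} {s : Set α} (hs : s.Finite) (f : α → ℕ) :
    ∃ C, ∀ x ∈ s, f x ≤ C := by
  obtain ⟨C, hC⟩ := (hs.image f).bddAbove
  exact ⟨C, fun x hx => hC ⟨x, hx, rfl⟩⟩

lemma dist_seq {Q : Type} [Group Q] {T : Set Q} (hW : S_WM) (hf : T.Finite)
    (hg : Subgroup.closure T = ⊤) {s : ℕ → Q}
    (hs : ∀ t, (mulCayley T).dist (s t) (s (t + 1)) ≤ 1) (t : ℕ) :
    (mulCayley T).dist (s 0) (s t) ≤ t := by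
  have hc := (hW Q T hf hg).1
  induction t with
  | zero => simp
  | succ n ih =>
    have h1 := hs n
    have h2 := hc.dist_triangle (u := s 0) (v := s n) (w := s (n + 1))
    omega

/-- lifting of paths -/
lemma lift_path {G Q : Type} [Group G] [Group Q] {T : Set Q} (π : G →* Q) (Z : Set G)
    (hZ : ∀ (u : G) (q : Q), (mulCayley T).dist (π u) q ≤ 1 → ∃ u', π u' = q ∧ u⁻¹ * u' ∈ Z)
    (f : ℕ → Q) (hf : ∀ t, (mulCayley T).dist (f t) (f (t + 1)) ≤ 1) (u₀ : G)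
    (h0 : π u₀ = f 0) :
    ∃ s : ℕ → G, s 0 = u₀ ∧ (∀ t, π (s t) = f t) ∧ ∀ t, (s t)⁻¹ * s (t + 1) ∈ Z := by
  have step : ∀ (t : ℕ) (u : G), π u = f t → ∃ u', π u' = f (t + 1) ∧ u⁻¹ * u' ∈ Z := by
    intro t u hu
    exact hZ u _ (by rw [hu]; exact hf t)
  choose! F hF using step
  let s : ℕ → G := fun t => Nat.rec u₀ (fun t u => F t u) t
  have hs : ∀ t, π (s t) = f t := by
    intro t
    induction t with
    | zero => exact h0
    | succ t ih => exact (hF t (s t) ih).1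
  exact ⟨s, rfl, hs, fun t => (hF t (s t) (hs t)).2⟩

/-- copies which are far from each other -/
lemma far_copies {Γ : Type} [Group Γ] {S : Set Γ} (hW : S_WM) (fS : S.Finite)
    (gS : Subgroup.closure S = ⊤) (N : Subgroup Γ) [Infinite N] {V₀ : Set Γ} (hV : V₀.Finite)
    (K : ℕ) : ∃ g : ℕ → N, ∀ i j, i ≠ j → ∀ u ∈ V₀, ∀ v ∈ V₀,
      K ≤ (mulCayley S).dist ((g i : Γ) * u) (g j * v) := by
  have hball := (hW Γ S fS gS).2.2.1
  have hfin : ∀ x : N, {y : N | ∃ u ∈ V₀, ∃ v ∈ V₀,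
      (mulCayley S).dist ((x : Γ) * u) (y * v) < K}.Finite := by
    intro x
    have h1 : (⋃ u ∈ V₀, ⋃ v ∈ V₀, (fun y => y * v⁻¹) ''
        {y | (mulCayley S).dist ((x : Γ) * u) y ≤ K}).Finite :=
      hV.biUnion fun u _ => hV.biUnion fun v _ => (hball _ _).image _
    refine Set.Finite.of_finite_image (f := fun b : N => (b : Γ)) (h1.subset ?_)
      (Subtype.val_injective.injOn)
    rintro _ ⟨y, ⟨u, hu, v, hv, hy⟩, rfl⟩
    simp only [Set.mem_iUnion]
    exact ⟨u, hu, v, hv, (y : Γ) * v, hy.le, by simp⟩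
  obtain ⟨g, -, hg⟩ := exists_seq_of_forall_finset_exists (fun _ : N => True)
    (fun x y => ∀ u ∈ V₀, ∀ v ∈ V₀, K ≤ (mulCayley S).dist ((x : Γ) * u) (y * v)) (by
      intro s _
      have h2 : (⋃ x ∈ s, {y : N | ∃ u ∈ V₀, ∃ v ∈ V₀,
          (mulCayley S).dist ((x : Γ) * u) (y * v) < K}).Finite :=
        s.finite_toSet.biUnion fun x _ => hfin x
      obtain ⟨y, hy⟩ := h2.exists_notMem
      refine ⟨y, trivial, fun x hx u hu v hv => ?_⟩
      by_contra hc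
      exact hy (Set.mem_biUnion hx ⟨u, hu, v, hv, not_le.1 hc⟩))
  refine ⟨g, fun i j hij u hu v hv => ?_⟩
  rcases lt_or_gt_of_ne hij with h | h
  · exact hg i j h u hu v hv
  · rw [dist_comm]
    exact hg j i h v hv u hu

theorem fat (hW : S_WM) {Γ : Type} [Group Γ] {S : Set Γ} (fS : S.Finite)
    (gS : Subgroup.closure S = ⊤) {G N : Subgroup Γ} [Infinite N] {Q : Type} [Group Q]
    {T : Set Q} (fT : T.Finite) (gT : Subgroup.closure T = ⊤) {TN : Set N} (fN : TN.Finite)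
    (gN : Subgroup.closure TN = ⊤) (hNG : N ≤ G) (π : G →* Q)
    (hker : ∀ a : G, π a = 1 ↔ (a : Γ) ∈ N) (hsurj : Function.Surjective π) {Z : Set G}
    (fZ : Z.Finite)
    (hZ : ∀ (u : G) (q : Q), (mulCayley T).dist (π u) q ≤ 1 → ∃ u', π u' = q ∧ u⁻¹ * u' ∈ Z)
    (γ : ℤ → Q) (hγ : ∀ x y, ((mulCayley T).dist (γ x) (γ y) : ℤ) = |x - y|)
    (hfl : ∀ (R : ℕ) (M : ℤ), ∃ x₀, M ≤ x₀ ∧ HasFlap T γ R x₀)
    {W : Type} [Finite W] (H : SimpleGraph W) : AsymptoticMinor H (mulCayley S) := by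
  classical
  intro K _
  have hcQ := (hW Q T fT gT).1
  -- normality
  have hnorm : ∀ u : G, ∀ h : N, (u : Γ)⁻¹ * h * u ∈ N := by
    intro u h
    have h1 : π (u⁻¹ * ⟨h, hNG h.2⟩ * u) = 1 := by
      have h2 : π ⟨(h : Γ), hNG h.2⟩ = 1 := (hker _).2 h.2
      rw [map_mul, map_mul, h2, mul_one, ← map_mul, inv_mul_cancel, map_one]
    exact (hker _).1 h1
  -- the scale
  obtain ⟨c₁, hc₁⟩ := ex_bound fZ (fun σ => (mulCayley S).dist 1 (σ : Γ))
  obtain ⟨c₂, hc₂⟩ := ex_bound ((hW N TN fN gN).2.2.1 1 1) (fun σ => (mulCayley S).dist 1 (σ : Γ))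
  set c := max c₁ c₂ with hc
  have left := (hW Γ S fS gS).2.1
  have dZ : ∀ u v : G, u⁻¹ * v ∈ Z → ∀ g : Γ, (mulCayley S).dist (g * u) (g * v) ≤ c := by
    intro u v h g
    have h1 := hc₁ _ h
    have h2 := left (g * u)⁻¹ (g * u) (g * v)
    rw [inv_mul_cancel, show (g * u)⁻¹ * (g * v) = ((u⁻¹ * v : G) : Γ) by push_cast; group] at h2
    exact (h2 ▸ h1).trans (le_max_left _ _)
  have dN : ∀ u v : N, (mulCayley TN).dist u v ≤ 1 → ∀ g : Γ,
      (mulCayley S).dist (g * u) (g * v) ≤ c := by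
    intro u v h g
    have h0 := (hW N TN fN gN).2.1 u⁻¹ u v
    rw [inv_mul_cancel] at h0
    have h1 := hc₂ (u⁻¹ * v) (by rw [Set.mem_ofPred_eq, h0]; exact h)
    have h2 := left (g * u)⁻¹ (g * u) (g * v)
    rw [inv_mul_cancel, show (g * u)⁻¹ * (g * v) = ((u⁻¹ * v : N) : Γ) by push_cast; group] at h2
    exact (h2 ▸ h1).trans (le_max_right _ _)
  -- control of the quotient
  obtain ⟨C, hC⟩ : ∃ C, ∀ a : G, (mulCayley S).dist 1 (a : Γ) ≤ K + 2 * c →
      (mulCayley T).dist 1 (π a) ≤ C := by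
    have h1 : {a : G | (mulCayley S).dist 1 (a : Γ) ≤ K + 2 * c}.Finite := by
      refine Set.Finite.of_finite_image (f := fun b : G => (b : Γ))
        (((hW Γ S fS gS).2.2.1 1 (K + 2 * c)).subset ?_) (Subtype.val_injective.injOn)
      rintro _ ⟨y, hy, rfl⟩
      exact hy
    exact ex_bound h1 (fun a => (mulCayley T).dist 1 (π a))
  have far : ∀ u v : G, C < (mulCayley T).dist (π u) (π v) →
      K + 2 * c ≤ (mulCayley S).dist (u : Γ) v := by
    intro u v h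
    by_contra hlt
    have h1 := left (u : Γ)⁻¹ u v
    rw [inv_mul_cancel] at h1
    have h2 := hC (u⁻¹ * v) (by push_cast; omega)
    have h3 := (hW Q T fT gT).2.1 (π u)⁻¹ (π u) (π v)
    rw [inv_mul_cancel, ← map_inv, ← map_mul] at h3
    omega
  -- positions
  obtain ⟨X, hX, hX'⟩ := exists_seq_of_forall_finset_exists
    (fun x : ℤ => 0 ≤ x ∧ HasFlap T γ (C + 1) x) (fun x y => x + (3 * C + 3) ≤ y) (by
      intro s _
      obtain ⟨M, hM⟩ := s.exists_le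
      obtain ⟨x₀, h1, h2⟩ := hfl (C + 1) (max 0 (M + (3 * C + 3)))
      refine ⟨x₀, ⟨by omega, h2⟩, fun x hx => ?_⟩
      have := hM x hx
      omega)
  obtain ⟨ι, hι⟩ : ∃ ι : Sym2 W → ℕ, Function.Injective ι :=
    ⟨fun e => (Finite.equivFin (Sym2 W) e : ℕ),
      Fin.val_injective.comp (Finite.equivFin (Sym2 W)).injective⟩
  obtain ⟨κ, hκ⟩ : ∃ κ : W → ℕ, Function.Injective κ :=
    ⟨fun e => (Finite.equivFin W e : ℕ), Fin.val_injective.comp (Finite.equivFin W).injective⟩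
  have hXX : ∀ e f, e ≠ f → (3 * C + 3 : ℤ) ≤ |X (ι e) - X (ι f)| := by
    intro e f hef
    rcases lt_or_gt_of_ne (hι.ne hef) with h | h
    · have := hX' _ _ h
      rw [abs_of_nonpos] <;> omega
    · have := hX' _ _ h
      rw [abs_of_nonneg] <;> omega
  have hflap := fun e => (hX (ι e)).2
  choose f hf0 hf1 hf2 using hflap
  obtain ⟨L, hL⟩ := ex_bound (Set.finite_univ (α := Sym2 W)) (fun e => (X (ι e)).toNat)
  -- lifts
  have hγ1 : ∀ t : ℕ, (mulCayley T).dist (γ t) (γ (t + 1 : ℕ)) ≤ 1 := by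
    intro t
    have := hγ t (t + 1 : ℕ)
    rw [abs_of_nonpos (by push_cast; omega)] at this
    push_cast at this ⊢
    omega
  obtain ⟨u₀, hu₀⟩ := hsurj (γ 0)
  obtain ⟨a, ha0, haπ, haZ⟩ := lift_path π Z hZ (fun t : ℕ => γ t) hγ1 u₀ (by simpa using hu₀)
  have hlift := fun e => lift_path π Z hZ (f e) (hf1 e) (a (X (ι e)).toNat) (by
    rw [haπ, hf0, Int.toNat_of_nonneg (hX (ι e)).1])
  choose s hs0 hsπ hsZ using hlift
  -- the copies
  obtain ⟨g, hg⟩ := far_copies hW fS gS N (V₀ := ((fun x : ℕ => (a x : Γ)) '' Set.Iic L) ∪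
    ⋃ e : Sym2 W, (fun t : ℕ => (s e t : Γ)) '' Set.Iic (C + 1)) (by
      refine ((Set.finite_Iic L).image _).union (Set.finite_iUnion fun e => ?_)
      exact (Set.finite_Iic (C + 1)).image _) (K + 2 * c)
  have hVa : ∀ x ≤ L, (a x : Γ) ∈ ((fun x : ℕ => (a x : Γ)) '' Set.Iic L) ∪
      ⋃ e : Sym2 W, (fun t : ℕ => (s e t : Γ)) '' Set.Iic (C + 1) :=
    fun x hx => Or.inl ⟨x, hx, rfl⟩
  have hVs : ∀ e, ∀ t ≤ C + 1, (s e t : Γ) ∈ ((fun x : ℕ => (a x : Γ)) '' Set.Iic L) ∪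
      ⋃ e : Sym2 W, (fun t : ℕ => (s e t : Γ)) '' Set.Iic (C + 1) :=
    fun e t ht => Or.inr (Set.mem_iUnion.2 ⟨e, t, ht, rfl⟩)
  -- the sets
  set B : W → Set Γ := fun w => {v | ∃ x ≤ L, v = (g (κ w) : Γ) * a x} with hB
  set P : Sym2 W → Set Γ := fun e => {v | (∃ w ∈ e, ∃ t ≤ C + 1, v = (g (κ w) : Γ) * s e t) ∨
    ∃ h : N, v = (s e (C + 1) : Γ) * h} with hP
  have hπN : ∀ h : N, π ⟨(h : Γ), hNG h.2⟩ = 1 := fun h => (hker _).2 h.2
  have PG : ∀ e, ∀ v ∈ P e, ∃ u : G, (u : Γ) = v ∧ ∃ t ≤ C + 1, π u = f e t := by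
    rintro e v (⟨w, hw, t, ht, rfl⟩ | ⟨h, rfl⟩)
    · refine ⟨⟨g (κ w), hNG (g (κ w)).2⟩ * s e t, rfl, t, ht, ?_⟩
      rw [map_mul, hπN, one_mul, hsπ]
    · refine ⟨s e (C + 1) * ⟨h, hNG h.2⟩, rfl, C + 1, le_rfl, ?_⟩
      rw [map_mul, hπN, mul_one, hsπ]
  have hBc : ∀ w, CConn (mulCayley S) c (B w) := by
    intro w
    refine cconn_base (x₀ := (g (κ w) : Γ) * a 0) ⟨0, Nat.zero_le _, rfl⟩ ?_
    rintro _ ⟨x, hx, rfl⟩
    induction x with
    | zero => exact Relation.ReflTransGen.refl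
    | succ x ih =>
      exact (ih (by omega)).tail ⟨⟨x, by omega, rfl⟩, ⟨x + 1, hx, rfl⟩, dZ _ _ (haZ x) _⟩
  have hPc : ∀ e, CConn (mulCayley S) c (P e) := by
    intro e
    have key1 : ∀ h : N, Relation.ReflTransGen (fun u v => u ∈ P e ∧ v ∈ P e ∧
        (mulCayley S).dist u v ≤ c) (s e (C + 1) : Γ) (s e (C + 1) * h) := by
      intro h
      obtain ⟨p, hp0, hp1, hp2⟩ := (hW N TN fN gN).2.2.2.2 1 h
      have key : ∀ n, n ≤ (mulCayley TN).dist 1 h → Relation.ReflTransGen (fun u v => u ∈ P e ∧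
          v ∈ P e ∧ (mulCayley S).dist u v ≤ c) (s e (C + 1) : Γ) (s e (C + 1) * p n) := by
        intro n
        induction n with
        | zero =>
          intro _
          rw [hp0, Subgroup.coe_one, mul_one]
        | succ n ih =>
          intro hn
          have h1 := hp2 n (n + 1) (by omega) hn
          rw [abs_of_nonpos (by push_cast; omega)] at h1
          refine (ih (by omega)).tail ⟨Or.inr ⟨_, rfl⟩, Or.inr ⟨_, rfl⟩, dN _ _ ?_ _⟩
          push_cast at h1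
          omega
      have h2 := key _ le_rfl
      rwa [hp1] at h2
    refine cconn_base (x₀ := (s e (C + 1) : Γ)) (Or.inr ⟨1, by simp⟩) ?_
    rintro _ (⟨w, hw, t, ht, rfl⟩ | ⟨h, rfl⟩)
    · have key2 : ∀ n, n ≤ C + 1 → Relation.ReflTransGen (fun u v => u ∈ P e ∧ v ∈ P e ∧
          (mulCayley S).dist u v ≤ c) (s e (C + 1) : Γ) ((g (κ w) : Γ) * s e (C + 1 - n)) := by
        intro n
        induction n with
        | zero =>
          intro _
          have h1 := key1 ⟨(s e (C + 1) : Γ)⁻¹ * g (κ w) * s e (C + 1), hnorm _ _⟩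
          have h2 : (s e (C + 1) : Γ) * ((s e (C + 1) : Γ)⁻¹ * g (κ w) * s e (C + 1)) =
              (g (κ w) : Γ) * s e (C + 1 - 0) := by
            rw [Nat.sub_zero]
            group
          simpa only [h2] using h1
        | succ n ih =>
          intro hn
          refine (ih (by omega)).tail ⟨Or.inl ⟨w, hw, _, by omega, rfl⟩,
            Or.inl ⟨w, hw, _, by omega, rfl⟩, ?_⟩
          have h1 := dZ _ _ (hsZ e (C + 1 - (n + 1))) (g (κ w) : Γ)
          rw [SimpleGraph.dist_comm, show C + 1 - (n + 1) + 1 = C + 1 - n by omega] at h1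
          exact h1
      have h3 := key2 (C + 1 - t) (by omega)
      rwa [show C + 1 - (C + 1 - t) = t by omega] at h3
    · exact key1 h
  refine thick Γ W (mulCayley S) (hW Γ S fS gS).1 H c K B P hBc (fun e _ => hPc e) ?_ ?_ ?_ ?_
  · intro e _ v hv
    refine ⟨(g (κ v) : Γ) * s e 0, Or.inl ⟨v, hv, 0, Nat.zero_le _, rfl⟩,
      (X (ι e)).toNat, hL e trivial, ?_⟩
    rw [hs0]
  · rintro u v huv _ ⟨x, hx, rfl⟩ _ ⟨y, hy, rfl⟩
    exact hg _ _ (hκ.ne huv) _ (hVa x hx) _ (hVa y hy)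
  · intro e _ e' _ hee v hv v' hv'
    obtain ⟨u, rfl, t, ht, hut⟩ := PG e v hv
    obtain ⟨u', rfl, t', ht', hut'⟩ := PG e' v' hv'
    refine far _ _ ?_
    rw [hut, hut']
    have h1 := dist_seq hW fT gT (hf1 e) t
    have h2 := dist_seq hW fT gT (hf1 e') t'
    have h3 := hγ (X (ι e)) (X (ι e'))
    have h4 := hXX e e' hee
    rw [hf0] at h1 h2
    have h5 := hcQ.dist_triangle (u := γ (X (ι e))) (v := f e t) (w := γ (X (ι e')))
    have h6 := hcQ.dist_triangle (u := f e t) (v := f e' t') (w := γ (X (ι e')))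
    rw [SimpleGraph.dist_comm] at h2
    omega
  · rintro e _ w hw _ (⟨w', hw', t, ht, rfl⟩ | ⟨h, rfl⟩) _ ⟨y, hy, rfl⟩
    · have hne : w' ≠ w := fun h => hw (h ▸ hw')
      exact hg _ _ (hκ.ne hne) _ (hVs e t ht) _ (hVa y hy)
    · have h1 := far (s e (C + 1) * ⟨h, hNG h.2⟩) (⟨g (κ w), hNG (g (κ w)).2⟩ * a y) (by
        rw [map_mul, map_mul, hπN, hπN, one_mul, mul_one, hsπ, haπ]
        have := hf2 e (C + 1) le_rfl y
        omega)
      exact h1

end Pool.Agent.W5h94.AM
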