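import Pool.Agent.W5h94.AM.Defs5
import Pool.Agent.W5h94.AM.Fat

set_option autoImplicit false

/-!
# Groups containing a restricted wreath product contain a coarse lamplighter
-/

open SimpleGraph

namespace Pool.Agent.W5h94.AM

theorem wreath (hW : S_WM) (hL : S_LINE) : S_WREATH := by
  classical
  intro Γ _ S fS gS A B _ _ hA hB hFG ψ hψ
  obtain ⟨T, gT, fT⟩ := Group.fg_iff.mp hFG
  obtain ⟨γ, hγ⟩ := hL B T fT gT
  have left := (hW Γ S fS gS).2.1
  have leftB := (hW B T fT gT).2.1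
  obtain ⟨a, ha⟩ := exists_ne (1 : A)
  have inj : ∀ x y : ℤ, γ x = γ y → x = y := by
    intro x y h
    have h1 := hγ x y
    rw [h, SimpleGraph.dist_self] at h1
    have h2 : |x - y| = 0 := by rw [← h1]; rfl
    have := abs_eq_zero.mp h2
    omega
  let f : Finset ℕ → B → A := fun Y b => if ∃ y ∈ Y, b = γ (y : ℤ) then a else 1
  have f_on : ∀ (Y : Finset ℕ) (j : ℕ), j ∈ Y → f Y (γ j) = a := by
    intro Y j hj
    show (if ∃ y ∈ Y, γ (j : ℤ) = γ (y : ℤ) then a else 1) = a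
    rw [if_pos ⟨j, hj, rfl⟩]
  have f_off : ∀ (Y : Finset ℕ) (j : ℕ), j ∉ Y → f Y (γ j) = 1 := by
    intro Y j hj
    show (if ∃ y ∈ Y, γ (j : ℤ) = γ (y : ℤ) then a else 1) = 1
    rw [if_neg]
    rintro ⟨y, hy, h⟩
    have := inj _ _ h
    have h' : j = y := by exact_mod_cast this
    exact hj (h' ▸ hy)
  have fsupp : ∀ Y : Finset ℕ, {b | f Y b ≠ 1}.Finite := by
    intro Y
    refine (Y.finite_toSet.image (fun y : ℕ => γ (y : ℤ))).subset fun b hb => ?_
    by_contra hcon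
    apply hb
    show (if ∃ y ∈ Y, b = γ (y : ℤ) then a else 1) = 1
    rw [if_neg]
    rintro ⟨y, hy, h⟩
    exact hcon ⟨y, hy, h.symm⟩
  let pt0 : Finset ℕ → ℕ → RWr A B := fun Y k => ⟨⟨f Y, γ (k : ℤ)⟩, fsupp Y⟩
  let mE : B → RWr A B := fun s => ⟨⟨1, s⟩, by
    show {b | (1 : B → A) b ≠ 1}.Finite
    simp⟩
  let tE : RWr A B := ⟨⟨Pi.mulSingle 1 a, 1⟩, by
    show {b | (Pi.mulSingle 1 a : B → A) b ≠ 1}.Finite
    refine (Set.finite_singleton (1 : B)).subset fun b hb => ?_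
    by_contra hcon
    exact hb (by rw [Pi.mulSingle_eq_of_ne (show b ≠ 1 from hcon)])⟩
  have dmul : ∀ u m : RWr A B, (mulCayley S).dist (ψ u) (ψ (u * m)) =
      (mulCayley S).dist 1 (ψ m) := by
    intro u m
    have h := left (ψ u) 1 (ψ m)
    rwa [mul_one, ← map_mul] at h
  -- the scale
  obtain ⟨c₁, hc₁⟩ := ex_bound ((hW B T fT gT).2.2.1 1 1)
    (fun s => (mulCayley S).dist 1 (ψ (mE s)))
  refine ⟨max c₁ ((mulCayley S).dist 1 (ψ tE)), fun K => ?_⟩
  -- the constant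
  have hball : {h : RWr A B | (mulCayley S).dist 1 (ψ h) ≤ K}.Finite :=
    Set.Finite.preimage hψ.injOn ((hW Γ S fS gS).2.2.1 1 K)
  have hsup : (⋃ h ∈ {h : RWr A B | (mulCayley S).dist 1 (ψ h) ≤ K},
      {b : B | h.1.left b ≠ 1}).Finite := hball.biUnion fun h _ => h.2
  obtain ⟨C, hC⟩ := ex_bound hsup (fun b => (mulCayley T).dist 1 b)
  have key : ∀ (Y : Finset ℕ) (k : ℕ) (Y' : Finset ℕ) (k' j : ℕ), f Y (γ j) ≠ f Y' (γ j) →
      (mulCayley S).dist (ψ (pt0 Y k)) (ψ (pt0 Y' k')) ≤ K → |(k : ℤ) - j| ≤ C := by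
    intro Y k Y' k' j hne hd
    have h1 : (mulCayley S).dist 1 (ψ ((pt0 Y k)⁻¹ * pt0 Y' k')) ≤ K := by
      have := dmul (pt0 Y k) ((pt0 Y k)⁻¹ * pt0 Y' k')
      rw [mul_inv_cancel_left] at this
      rwa [← this]
    have h2 : ((γ k)⁻¹ * γ j) ∈ ⋃ h ∈ {h : RWr A B | (mulCayley S).dist 1 (ψ h) ≤ K},
        {b : B | h.1.left b ≠ 1} := by
      refine Set.mem_biUnion (x := (pt0 Y k)⁻¹ * pt0 Y' k') h1 ?_
      show (f Y)⁻¹ (γ k * ((γ k)⁻¹ * γ j)) * f Y' (((γ k)⁻¹)⁻¹ * ((γ k)⁻¹ * γ j)) ≠ 1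
      rw [mul_inv_cancel_left, inv_inv, mul_inv_cancel_left, Pi.inv_apply]
      intro h
      exact hne (inv_mul_eq_one.mp h)
    have h3 := hC _ h2
    have h4 := leftB (γ k) 1 ((γ k)⁻¹ * γ j)
    rw [mul_one, mul_inv_cancel_left] at h4
    rw [← hγ k j, h4]
    exact_mod_cast h3
  refine ⟨{ pt := fun Y k => ψ (pt0 Y k), C := C, mv := ?_, tg := ?_, far := ?_, far' := ?_ }⟩
  · intro Y k
    have h1 : pt0 Y (k + 1) = pt0 Y k * mE ((γ k)⁻¹ * γ ((k + 1 : ℕ) : ℤ)) := by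
      apply Subtype.ext
      apply RegularWreathProduct.ext
      · funext b
        show f Y b = f Y b * 1
        rw [mul_one]
      · show γ ((k + 1 : ℕ) : ℤ) = γ k * ((γ k)⁻¹ * γ ((k + 1 : ℕ) : ℤ))
        rw [mul_inv_cancel_left]
    show (mulCayley S).dist (ψ (pt0 Y k)) (ψ (pt0 Y (k + 1))) ≤ _
    rw [h1, dmul]
    refine le_trans (hc₁ _ ?_) (le_max_left _ _)
    show (mulCayley T).dist 1 ((γ k)⁻¹ * γ ((k + 1 : ℕ) : ℤ)) ≤ 1
    have h4 := leftB (γ k) 1 ((γ k)⁻¹ * γ ((k + 1 : ℕ) : ℤ))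
    rw [mul_one, mul_inv_cancel_left] at h4
    rw [← h4]
    have h5 := hγ k ((k + 1 : ℕ) : ℤ)
    have h6 : |(k : ℤ) - ((k + 1 : ℕ) : ℤ)| = 1 := by
      rw [show (k : ℤ) - ((k + 1 : ℕ) : ℤ) = -1 by push_cast; ring]
      rfl
    rw [h6] at h5
    exact_mod_cast h5.le
  · intro Y k hk
    have h1 : pt0 (insert k Y) k = pt0 Y k * tE := by
      apply Subtype.ext
      apply RegularWreathProduct.ext
      · funext b
        show f (insert k Y) b = f Y b * (Pi.mulSingle 1 a : B → A) ((γ k)⁻¹ * b)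
        by_cases hb : b = γ k
        · rw [hb, f_on _ _ (Finset.mem_insert_self _ _), f_off _ _ hk, inv_mul_cancel,
            Pi.mulSingle_eq_same, one_mul]
        · rw [Pi.mulSingle_eq_of_ne (fun h => hb (inv_mul_eq_one.mp h).symm), mul_one]
          show (if ∃ y ∈ insert k Y, b = γ (y : ℤ) then a else 1) =
            (if ∃ y ∈ Y, b = γ (y : ℤ) then a else 1)
          congr 1
          apply propext
          constructor
          · rintro ⟨y, hy, h⟩
            rcases Finset.mem_insert.mp hy with rfl | hy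
            · exact absurd h hb
            · exact ⟨y, hy, h⟩
          · rintro ⟨y, hy, h⟩
            exact ⟨y, Finset.mem_insert_of_mem hy, h⟩
      · show γ k = γ k * 1
        rw [mul_one]
    show (mulCayley S).dist (ψ (pt0 Y k)) (ψ (pt0 (insert k Y) k)) ≤ _
    rw [h1, dmul]
    exact le_max_right _ _
  · intro Y k Y' k' j hj hj' hfar
    by_contra hcon
    have h1 := key Y k Y' k' j (by rw [f_on Y j hj, f_off Y' j hj']; exact ha) (by
      have := not_le.mp hcon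
      exact this.le)
    rw [abs_le] at h1
    omega
  · intro Y k Y' k' j hj hj' hfar
    by_contra hcon
    have h1 := key Y' k' Y k j (by rw [f_on Y j hj, f_off Y' j hj']; exact ha.symm) (by
      have := not_le.mp hcon
      rw [SimpleGraph.dist_comm]
      exact this.le)
    rw [abs_le] at h1
    omega

end Pool.Agent.W5h94.AM
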