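import Pool.Agent.W5h94.AM.Defs3
import Pool.Agent.W5h94.AM.Fat

set_option autoImplicit false

/-!
# Cells in a semidirect product with an infinite cyclic group
-/

open SimpleGraph

namespace Pool.Agent.W5h94.AM

variable {Γ : Type} [Group Γ]

/-- the cell -/
def cell {N : Subgroup Γ} (TN : Set N) (t : Γ) (lam : ℕ) (n : N) (h : ℤ) : Set Γ :=
  {g | ∃ m : N, (mulCayley TN).dist 1 m ≤ lam ∧ g = (n : Γ) * t ^ h * m}

/-- unions of cells -/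
def cells {N : Subgroup Γ} (TN : Set N) (t : Γ) (lam : ℕ) (I : Set (N × ℤ)) : Set Γ :=
  {g | ∃ i ∈ I, g ∈ cell TN t lam i.1 i.2}

/-- moves -/
def Mv {N : Subgroup Γ} (TN : Set N) (i j : N × ℤ) : Prop :=
  (i.2 = j.2 ∧ (mulCayley TN).dist i.1 j.1 ≤ 1) ∨ (i.1 = j.1 ∧ (j.2 = i.2 + 1 ∨ i.2 = j.2 + 1))

/-- the constants -/
structure Cst (S : Set Γ) (N : Subgroup Γ) (TN : Set N) (t : Γ) (c K : ℕ) (Hm : ℤ)
    (lam mu C1 C2 : ℕ) : Prop where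
  hct : ∀ g : Γ, (mulCayley S).dist g (g * t) ≤ c
  hcn : ∀ (g : Γ) (u v : N), (mulCayley TN).dist u v ≤ 1 → (mulCayley S).dist (g * u) (g * v) ≤ c
  hlam : ∀ h : ℤ, 0 ≤ h → h ≤ Hm → ∀ u v : N, (mulCayley TN).dist u v ≤ 1 →
    ∃ m : N, (v : Γ) * t ^ h = u * t ^ h * m ∧ (mulCayley TN).dist 1 m ≤ lam
  hmu : ∀ h : ℤ, 0 ≤ h → h ≤ Hm → ∀ n m : N, (mulCayley TN).dist 1 m ≤ lam →
    ∃ n' : N, (n : Γ) * t ^ h * m = n' * t ^ h ∧ (mulCayley TN).dist n n' ≤ mu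
  hC1 : ∀ (n n' : N) (h h' : ℤ), C1 < |h - h'| →
    K ≤ (mulCayley S).dist ((n : Γ) * t ^ h) (n' * t ^ h')
  hC2 : ∀ (n n' : N) (h h' : ℤ), 0 ≤ h → h ≤ Hm → 0 ≤ h' → h' ≤ Hm →
    C2 < (mulCayley TN).dist n n' → K ≤ (mulCayley S).dist ((n : Γ) * t ^ h) (n' * t ^ h')

variable {S : Set Γ} {N : Subgroup Γ} {TN : Set N} {t : Γ}

lemma exists_scale (hW : S_WM) (fS : S.Finite) (gS : Subgroup.closure S = ⊤) (fN : TN.Finite)
    (gN : Subgroup.closure TN = ⊤) : ∃ c : ℕ, (∀ g : Γ, (mulCayley S).dist g (g * t) ≤ c) ∧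
    ∀ (g : Γ) (u v : N), (mulCayley TN).dist u v ≤ 1 → (mulCayley S).dist (g * u) (g * v) ≤ c := by
  have left := (hW Γ S fS gS).2.1
  obtain ⟨c₂, hc₂⟩ := ex_bound ((hW N TN fN gN).2.2.1 1 1) (fun σ => (mulCayley S).dist 1 (σ : Γ))
  refine ⟨max ((mulCayley S).dist 1 t) c₂, fun g => ?_, fun g u v h => ?_⟩
  · have h2 := left g⁻¹ g (g * t)
    rw [inv_mul_cancel, inv_mul_cancel_left] at h2
    rw [← h2]
    exact le_max_left _ _
  · have h0 := (hW N TN fN gN).2.1 u⁻¹ u v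
    rw [inv_mul_cancel] at h0
    have h1 := hc₂ (u⁻¹ * v) (by rw [Set.mem_ofPred_eq, h0]; exact h)
    have h2 := left (g * u)⁻¹ (g * u) (g * v)
    rw [inv_mul_cancel, show (g * u)⁻¹ * (g * v) = ((u⁻¹ * v : N) : Γ) by push_cast; group] at h2
    exact (h2 ▸ h1).trans (le_max_right _ _)

lemma exists_cst (hW : S_WM) (fS : S.Finite) (gS : Subgroup.closure S = ⊤) (fN : TN.Finite)
    (gN : Subgroup.closure TN = ⊤) (hconj : ∀ (h : ℤ) (n : N), t ^ h * n * t ^ (-h) ∈ N)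
    (htor : ∀ k : ℤ, t ^ k ∈ N → k = 0) {c : ℕ}
    (hct : ∀ g : Γ, (mulCayley S).dist g (g * t) ≤ c)
    (hcn : ∀ (g : Γ) (u v : N), (mulCayley TN).dist u v ≤ 1 →
      (mulCayley S).dist (g * u) (g * v) ≤ c) (K : ℕ) :
    ∃ C1, ∀ Hm : ℤ, ∃ lam mu C2, Cst S N TN t c K Hm lam mu C1 C2 := by
  classical
  have left := (hW Γ S fS gS).2.1
  have leftN := (hW N TN fN gN).2.1
  have ballS := (hW Γ S fS gS).2.2.1 1 K
  let cj : ℤ → N → N := fun h n => ⟨t ^ h * n * t ^ (-h), hconj h n⟩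
  obtain ⟨C1, hC1⟩ := ex_bound ballS (fun g => if hg : ∃ (n : N) (k : ℤ), (n : Γ) * t ^ k = g then
    hg.choose_spec.choose.natAbs else 0)
  refine ⟨C1, fun Hm => ?_⟩
  obtain ⟨lam, hlam⟩ := ex_bound ((Set.finite_Icc (0 : ℤ) Hm).prod ((hW N TN fN gN).2.2.1 1 1))
    (fun x => (mulCayley TN).dist 1 (cj (-x.1) x.2))
  obtain ⟨mu, hmu⟩ := ex_bound ((Set.finite_Icc (0 : ℤ) Hm).prod ((hW N TN fN gN).2.2.1 1 lam))
    (fun x => (mulCayley TN).dist 1 (cj x.1 x.2))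
  obtain ⟨C2, hC2⟩ := ex_bound ((Set.finite_Icc (0 : ℤ) Hm).prod
    ((Set.finite_Icc (0 : ℤ) Hm).prod ballS))
    (fun x => if hx : t ^ x.1 * x.2.2 * t ^ (-x.2.1) ∈ N then
      (mulCayley TN).dist 1 ⟨_, hx⟩ else 0)
  refine ⟨lam, mu, C2, hct, hcn, ?_, ?_, ?_, ?_⟩
  · intro h h0 h1 u v huv
    refine ⟨cj (-h) (u⁻¹ * v), ?_, ?_⟩
    · change _ = (u : Γ) * t ^ h * (t ^ (-h) * ((u⁻¹ * v : N) : Γ) * t ^ (- -h))
      push_cast
      rw [neg_neg]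
      group
    · refine hlam (h, u⁻¹ * v) ⟨⟨h0, h1⟩, ?_⟩
      have h2 := leftN u⁻¹ u v
      rw [inv_mul_cancel] at h2
      change (mulCayley TN).dist 1 (u⁻¹ * v) ≤ 1
      rw [h2]
      exact huv
  · intro h h0 h1 n m hm
    refine ⟨n * cj h m, ?_, ?_⟩
    · change _ = ((n : Γ) * (t ^ h * (m : Γ) * t ^ (-h))) * t ^ h
      group
    · have h2 := leftN n 1 (cj h m)
      rw [mul_one] at h2
      rw [h2]
      exact hmu (h, m) ⟨⟨h0, h1⟩, hm⟩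
  · intro n n' h h' hh
    by_contra hlt
    have h1 := left ((n : Γ) * t ^ h)⁻¹ ((n : Γ) * t ^ h) (n' * t ^ h')
    rw [inv_mul_cancel] at h1
    have h2 : ((n : Γ) * t ^ h)⁻¹ * (n' * t ^ h') =
        (cj (-h) (n⁻¹ * n') : Γ) * t ^ (h' - h) := by
      change _ = (t ^ (-h) * ((n⁻¹ * n' : N) : Γ) * t ^ (- -h)) * t ^ (h' - h)
      push_cast
      rw [neg_neg]
      group
    rw [h2] at h1
    have h3 : (mulCayley S).dist 1 ((cj (-h) (n⁻¹ * n') : Γ) * t ^ (h' - h)) ≤ K := by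
      rw [h1]
      exact (not_le.1 hlt).le
    have h4 := hC1 _ h3
    have hex : ∃ (a : N) (k : ℤ), (a : Γ) * t ^ k =
      (cj (-h) (n⁻¹ * n') : Γ) * t ^ (h' - h) := ⟨_, _, rfl⟩
    simp only [dif_pos hex] at h4
    obtain ⟨a, k, h5, h4⟩ : ∃ (a : N) (k : ℤ), (a : Γ) * t ^ k =
        (cj (-h) (n⁻¹ * n') : Γ) * t ^ (h' - h) ∧ k.natAbs ≤ C1 :=
      ⟨_, _, hex.choose_spec.choose_spec, h4⟩
    have h6 : t ^ (k - (h' - h)) ∈ N := by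
      have h7 : t ^ (k - (h' - h)) = ((a⁻¹ * cj (-h) (n⁻¹ * n') : N) : Γ) := by
        rw [zpow_sub, Subgroup.coe_mul, Subgroup.coe_inv, mul_inv_eq_iff_eq_mul, mul_assoc, ← h5,
          inv_mul_cancel_left]
      rw [h7]
      exact Subtype.property _
    have h8 := htor _ h6
    have h9 : |h - h'| = (k.natAbs : ℤ) := by
      rw [abs_sub_comm, ← (show k = h' - h by omega), Int.abs_eq_natAbs]
    omega
  · intro n n' h h' h0 h1 h0' h1' hh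
    by_contra hlt
    have h2 := left ((n : Γ) * t ^ h)⁻¹ ((n : Γ) * t ^ h) (n' * t ^ h')
    rw [inv_mul_cancel] at h2
    have h3 := hC2 (h, h', ((n : Γ) * t ^ h)⁻¹ * (n' * t ^ h')) ⟨⟨h0, h1⟩, ⟨h0', h1'⟩, by
      rw [Set.mem_ofPred_eq, h2]
      exact (not_le.1 hlt).le⟩
    have h4 : t ^ h * (((n : Γ) * t ^ h)⁻¹ * (n' * t ^ h')) * t ^ (-h') =
        ((n⁻¹ * n' : N) : Γ) := by
      push_cast
      group
    simp only [h4] at h3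
    rw [dif_pos (show ((n⁻¹ * n' : N) : Γ) ∈ N from Subtype.property _)] at h3
    have h5 := leftN n⁻¹ n n'
    rw [inv_mul_cancel] at h5
    have h6 : (⟨((n⁻¹ * n' : N) : Γ), Subtype.property _⟩ : N) = n⁻¹ * n' := rfl
    rw [h6] at h3
    omega

end Pool.Agent.W5h94.AM
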