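import Pool.Agent.W5h94.AM.Conj2

set_option autoImplicit false

/-!
# Commuting conjugates, statement in the group
-/

open SimpleGraph

namespace Pool.Agent.W5h94.AM

variable {Γ : Type} [Group Γ]

/-- the conjugates `t ^ k a t ^ (-k)`, `a ∈ A`, `k ∈ s` -/
def Cj (t : Γ) (A : Set Γ) (s : Set ℤ) : Set Γ := {x | ∃ k ∈ s, ∃ a ∈ A, x = t ^ k * a * t ^ (-k)}

lemma Cj_mono (t : Γ) {A A' : Set Γ} {s s' : Set ℤ} (h : A ⊆ A') (h' : s ⊆ s') :
    Cj t A s ⊆ Cj t A' s' := by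
  rintro _ ⟨k, hk, a, ha, rfl⟩
  exact ⟨k, h' hk, a, h ha, rfl⟩

lemma conj_closure (t : Γ) (A : Set Γ) {s s' : Set ℤ} (m : ℤ) (h : ∀ k ∈ s, k + m ∈ s') {x : Γ}
    (hx : x ∈ Subgroup.closure (Cj t A s)) :
    t ^ m * x * t ^ (-m) ∈ Subgroup.closure (Cj t A s') := by
  induction hx using Subgroup.closure_induction with
  | mem x hx =>
    obtain ⟨k, hk, a, ha, rfl⟩ := hx
    refine Subgroup.subset_closure ⟨k + m, h k hk, a, ha, ?_⟩
    group
  | one => simp
  | mul x y _ _ hx hy =>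
    have h1 := Subgroup.mul_mem _ hx hy
    have h2 : t ^ m * x * t ^ (-m) * (t ^ m * y * t ^ (-m)) = t ^ m * (x * y) * t ^ (-m) := by
      group
    rwa [h2] at h1
  | inv x _ hx =>
    have h1 := Subgroup.inv_mem _ hx
    have h2 : (t ^ m * x * t ^ (-m))⁻¹ = t ^ m * x⁻¹ * t ^ (-m) := by group
    rwa [h2] at h1

lemma exists_pos (t : Γ) (A : Set Γ)
    (h : Subgroup.closure (Cj t A (Set.Ici 0)) ≠ Subgroup.closure (Cj t A Set.univ)) :
    ∃ a ∈ A, a ∉ Subgroup.closure (Cj t A (Set.Ioi 0)) := by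
  by_contra hcon
  push Not at hcon
  apply h
  refine le_antisymm (Subgroup.closure_mono (Cj_mono t le_rfl (Set.subset_univ _))) ?_
  have key : ∀ m : ℕ, ∀ k : ℤ, -(m : ℤ) ≤ k → ∀ a ∈ A,
      t ^ k * a * t ^ (-k) ∈ Subgroup.closure (Cj t A (Set.Ici 0)) := by
    intro m
    induction m with
    | zero =>
      intro k hk a ha
      exact Subgroup.subset_closure ⟨k, by simpa using hk, a, ha, rfl⟩
    | succ m ih =>
      intro k hk a ha
      by_cases hk' : -(m : ℤ) ≤ k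
      · exact ih k hk' a ha
      · have h1 := conj_closure t A (s' := Set.Ici (-(m : ℤ))) k (fun j hj => by
          rw [Set.mem_Ioi] at hj
          rw [Set.mem_Ici]
          push_cast at hk
          omega) (hcon a ha)
        have h2 : Subgroup.closure (Cj t A (Set.Ici (-(m : ℤ)))) ≤
            Subgroup.closure (Cj t A (Set.Ici 0)) := by
          rw [Subgroup.closure_le]
          rintro _ ⟨j, hj, b, hb, rfl⟩
          exact ih j hj b hb
        exact h2 h1
  rw [Subgroup.closure_le]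
  rintro _ ⟨k, -, a, ha, rfl⟩
  exact key k.natAbs k (by omega) a ha

lemma exists_neg (t : Γ) (A : Set Γ)
    (h : Subgroup.closure (Cj t A (Set.Iic 0)) ≠ Subgroup.closure (Cj t A Set.univ)) :
    ∃ a ∈ A, a ∉ Subgroup.closure (Cj t A (Set.Iio 0)) := by
  have hinv : ∀ s : Set ℤ, Cj t⁻¹ A s = Cj t A (-s) := by
    intro s
    ext x
    constructor
    · rintro ⟨k, hk, a, ha, rfl⟩
      exact ⟨-k, by simpa using hk, a, ha, by simp⟩
    · rintro ⟨k, hk, a, ha, rfl⟩
      exact ⟨-k, hk, a, ha, by simp⟩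
  have h1 := exists_pos t⁻¹ A (by
    rw [hinv, hinv]
    simpa using h)
  rw [hinv] at h1
  simpa using h1

theorem cj_lamp (hW : S_WM) {S : Set Γ} (fS : S.Finite) (gS : Subgroup.closure S = ⊤) (t : Γ)
    (A : Set Γ) (hcomm : ∀ x ∈ Cj t A Set.univ, ∀ y ∈ Cj t A Set.univ, x * y = y * x)
    (hpos : Subgroup.closure (Cj t A (Set.Ici 0)) ≠ Subgroup.closure (Cj t A Set.univ))
    (hneg : Subgroup.closure (Cj t A (Set.Iic 0)) ≠ Subgroup.closure (Cj t A Set.univ)) :
    ∃ c, ∀ K n, Nonempty (Lamp2 (mulCayley S) c K n) := by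
  obtain ⟨a, ha, hap⟩ := exists_pos t A hpos
  obtain ⟨b, hb, hbn⟩ := exists_neg t A hneg
  have hsub : ({a, b} : Set Γ) ⊆ A := by
    rintro _ (rfl | rfl)
    · exact ha
    · exact hb
  have hcomm' : ∀ x ∈ Cj t {a, b} Set.univ, ∀ y ∈ Cj t {a, b} Set.univ, x * y = y * x :=
    fun x hx y hy => hcomm x (Cj_mono t hsub le_rfl hx) y (Cj_mono t hsub le_rfl hy)
  letI : CommGroup (Subgroup.closure (Cj t {a, b} Set.univ)) :=
    Subgroup.closureCommGroupOfComm hcomm'
  let ι : Subgroup.closure (Cj t {a, b} Set.univ) →* Γ :=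
    (Subgroup.closure (Cj t {a, b} Set.univ)).subtype
  let α : ℤ → Subgroup.closure (Cj t {a, b} Set.univ) := fun k => ⟨t ^ k * a * t ^ (-k),
    Subgroup.subset_closure ⟨k, trivial, a, Or.inl rfl, rfl⟩⟩
  let β : ℤ → Subgroup.closure (Cj t {a, b} Set.univ) := fun k => ⟨t ^ k * b * t ^ (-k),
    Subgroup.subset_closure ⟨k, trivial, b, Or.inr rfl, rfl⟩⟩
  have hmap : ∀ (s : Set ℤ) (x : Subgroup.closure (Cj t {a, b} Set.univ)), x ∈ Mn α β s →
      (x : Γ) ∈ Subgroup.closure (Cj t A s) := by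
    intro s x hx
    have h1 : ι x ∈ (Mn α β s).map ι := ⟨x, hx, rfl⟩
    unfold Mn at h1
    rw [MonoidHom.map_closure] at h1
    refine Subgroup.closure_mono ?_ h1
    rintro _ ⟨_, ⟨k, hk, rfl⟩ | ⟨k, hk, rfl⟩, rfl⟩
    · exact ⟨k, hk, a, ha, rfl⟩
    · exact ⟨k, hk, b, hb, rfl⟩
  refine conj_lamp2 hW fS gS ι Subtype.val_injective t α β ?_ ?_ ?_ ?_ ?_
  · intro k
    change t * (t ^ k * a * t ^ (-k)) * t⁻¹ = t ^ (k + 1) * a * t ^ (-(k + 1))
    group
  · intro k
    change t * (t ^ k * b * t ^ (-k)) * t⁻¹ = t ^ (k + 1) * b * t ^ (-(k + 1))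
    group
  · intro k hk
    have h1 := hmap _ _ hk
    have h2 := conj_closure t A (s' := Set.Ioi 0) (-k) (fun j hj => by
      rw [Set.mem_Ioi] at hj ⊢
      omega) h1
    apply hap
    have h3 : t ^ (-k) * (t ^ k * a * t ^ (-k)) * t ^ (- -k) = a := by group
    rw [← h3]
    exact h2
  · intro k hk
    have h1 := hmap _ _ hk
    have h2 := conj_closure t A (s' := Set.Iio 0) (-k) (fun j hj => by
      rw [Set.mem_Iio] at hj ⊢
      omega) h1
    apply hbn
    have h3 : t ^ (-k) * (t ^ k * b * t ^ (-k)) * t ^ (- -k) = b := by group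
    rw [← h3]
    exact h2
  · have h1 : (α '' Set.univ ∪ β '' Set.univ) = (fun x : Subgroup.closure (Cj t {a, b} Set.univ) =>
        (x : Γ)) ⁻¹' (Cj t {a, b} Set.univ) := by
      ext x
      constructor
      · rintro (⟨k, -, rfl⟩ | ⟨k, -, rfl⟩)
        · exact ⟨k, trivial, a, Or.inl rfl, rfl⟩
        · exact ⟨k, trivial, b, Or.inr rfl, rfl⟩
      · rintro ⟨k, -, c, hc | hc, hx⟩
        · have hx' : (x : Γ) = t ^ k * c * t ^ (-k) := hx
          refine Or.inl ⟨k, trivial, Subtype.ext ?_⟩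
          rw [hx', hc]
        · have hx' : (x : Γ) = t ^ k * c * t ^ (-k) := hx
          refine Or.inr ⟨k, trivial, Subtype.ext ?_⟩
          rw [hx', Set.mem_singleton_iff.1 hc]
    unfold Mn
    rw [h1]
    exact Subgroup.closure_closure_coe_preimage

end Pool.Agent.W5h94.AM
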