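import Pool.Agent.W5h94.AM.Defs4
import Pool.Agent.W5h94.AM.Fat

set_option autoImplicit false

/-!
# Lamps from commuting conjugates
-/

open SimpleGraph

namespace Pool.Agent.W5h94.AM

section abs

variable {E : Type} [CommGroup E]

/-- products over two different sets of lamps -/
lemma lamp_core (α : ℕ → E) (M : Subgroup E) {Y Y' : Finset ℕ} {j : ℕ} (hj : j ∈ Y) (hj' : j ∉ Y')
    (hM : ∀ i, i ≠ j → (i ∈ Y ∧ i ∉ Y' ∨ i ∈ Y' ∧ i ∉ Y) → α i ∈ M)
    (h : (∏ y ∈ Y, α y)⁻¹ * ∏ y ∈ Y', α y ∈ M) : α j ∈ M := by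
  have h1 : ∏ y ∈ Y, α y = (∏ y ∈ Y \ Y', α y) * ∏ y ∈ Y ∩ Y', α y := by
    rw [← Finset.prod_union (Finset.disjoint_sdiff_inter Y Y'), Finset.sdiff_union_inter]
  have h2 : ∏ y ∈ Y', α y = (∏ y ∈ Y' \ Y, α y) * ∏ y ∈ Y ∩ Y', α y := by
    rw [Finset.inter_comm, ← Finset.prod_union (Finset.disjoint_sdiff_inter Y' Y),
      Finset.sdiff_union_inter]
  have h3 : ∏ y ∈ Y \ Y', α y = α j * ∏ y ∈ (Y \ Y').erase j, α y := by
    rw [Finset.mul_prod_erase _ _ (Finset.mem_sdiff.2 ⟨hj, hj'⟩)]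
  have h4 : ∏ y ∈ (Y \ Y').erase j, α y ∈ M := by
    refine Subgroup.prod_mem _ fun i hi => ?_
    rw [Finset.mem_erase, Finset.mem_sdiff] at hi
    exact hM i hi.1 (Or.inl hi.2)
  have h5 : ∏ y ∈ Y' \ Y, α y ∈ M := by
    refine Subgroup.prod_mem _ fun i hi => ?_
    rw [Finset.mem_sdiff] at hi
    exact hM i (fun e => hj' (e ▸ hi.1)) (Or.inr hi)
  rw [h1, h2, h3] at h
  have h6 := M.mul_mem (M.mul_mem h4 h) (M.inv_mem h5)
  have h7 : (∏ y ∈ (Y \ Y').erase j, α y) *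
      ((α j * (∏ y ∈ (Y \ Y').erase j, α y) * ∏ y ∈ Y ∩ Y', α y)⁻¹ *
      ((∏ y ∈ Y' \ Y, α y) * ∏ y ∈ Y ∩ Y', α y)) * (∏ y ∈ Y' \ Y, α y)⁻¹ = (α j)⁻¹ := by
    generalize (∏ y ∈ (Y \ Y').erase j, α y) = u
    generalize (∏ y ∈ Y ∩ Y', α y) = v
    generalize (∏ y ∈ Y' \ Y, α y) = w
    generalize α j = a
    rw [mul_inv, mul_inv]
    calc u * (a⁻¹ * u⁻¹ * v⁻¹ * (w * v)) * w⁻¹ = a⁻¹ * (u * u⁻¹) * (v⁻¹ * v) * (w * w⁻¹) := by
          simp only [mul_comm, mul_left_comm, mul_assoc]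
      _ = a⁻¹ := by simp
  rw [h7] at h6
  exact inv_mem_iff.1 h6

lemma lamp_core' (α : ℕ → E) (M : Subgroup E) {Y Y' : Finset ℕ} {j : ℕ}
    (hj : j ∈ Y ∧ j ∉ Y' ∨ j ∈ Y' ∧ j ∉ Y)
    (hM : ∀ i, i ≠ j → (i ∈ Y ∧ i ∉ Y' ∨ i ∈ Y' ∧ i ∉ Y) → α i ∈ M)
    (h : (∏ y ∈ Y, α y)⁻¹ * ∏ y ∈ Y', α y ∈ M) : α j ∈ M := by
  rcases hj with hj | hj
  · exact lamp_core α M hj.1 hj.2 hM h
  · refine lamp_core α M hj.1 hj.2 (fun i hi h' => hM i hi h'.symm) ?_
    have h1 := M.inv_mem h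
    rwa [mul_inv, inv_inv, mul_comm] at h1

end abs

variable {Γ : Type} [Group Γ] {S : Set Γ} {E : Type} [CommGroup E]

theorem conj_lamp (hW : S_WM) (fS : S.Finite) (gS : Subgroup.closure S = ⊤) (ι : E →* Γ)
    (hι : Function.Injective ι) (t : Γ) (α : ℤ → E)
    (hα : ∀ k, t * ι (α k) * t⁻¹ = ι (α (k + 1)))
    (hp : ∀ k, α k ∉ Subgroup.closure (α '' Set.Ioi k))
    (hm : ∀ k, α k ∉ Subgroup.closure (α '' Set.Iio k))
    (htop : Subgroup.closure (Set.range α) = ⊤) : ∃ c, ∀ K, Nonempty (Lamp (mulCayley S) c K) := by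
  classical
  have left := (hW Γ S fS gS).2.1
  -- conjugation
  have conj1 : ∀ (m k : ℤ), t ^ m * ι (α k) * t ^ (-m) = ι (α (k + m)) := by
    intro m
    induction m using Int.induction_on with
    | zero => intro k; simp
    | succ m ih =>
      intro k
      have h1 := ih (k + 1)
      rw [← hα k] at h1
      rw [show k + ((m : ℤ) + 1) = k + 1 + m by ring, ← h1, neg_add, zpow_add, zpow_add, zpow_one,
        zpow_neg_one]
      group
    | pred m ih =>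
      intro k
      have h1 := ih (k - 1)
      have h2 := hα (k - 1)
      rw [sub_add_cancel] at h2
      have h3 : ι (α (k - 1)) = t⁻¹ * ι (α k) * t := by
        rw [← h2]; group
      rw [h3] at h1
      rw [show k + (-(m : ℤ) - 1) = k - 1 + -m by ring, ← h1]
      group
  have conj2 : ∀ (k : ℤ) (Y : Finset ℕ), t ^ (-k) * ι (∏ y ∈ Y, α y) * t ^ k =
      ι (∏ y ∈ Y, α (y - k)) := by
    intro k Y
    induction Y using Finset.induction_on with
    | empty => simp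
    | insert a s ha ih =>
      rw [Finset.prod_insert ha, Finset.prod_insert ha, map_mul, map_mul, ← ih]
      have h1 := conj1 (-k) a
      rw [neg_neg, ← sub_eq_add_neg] at h1
      rw [← h1]
      group
  -- powers of `t`
  have tor : ∀ (e : E) (m : ℤ), ι e = t ^ m → m = 0 := by
    intro e m h
    have h1 := conj1 m 0
    rw [zpow_neg, ← h, ← map_inv, ← map_mul, ← map_mul, mul_inv_cancel_comm, zero_add] at h1
    have h2 := hι h1
    by_contra hm0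
    rcases lt_or_gt_of_ne hm0 with h3 | h3
    · exact hm 0 (h2 ▸ Subgroup.subset_closure ⟨m, h3, rfl⟩)
    · exact hp 0 (h2 ▸ Subgroup.subset_closure ⟨m, h3, rfl⟩)
  -- exhaustion
  have exh : ∀ e : E, ∃ C : ℕ, e ∈ Subgroup.closure (α '' Set.Icc (-(C : ℤ)) C) := by
    intro e
    have he : e ∈ Subgroup.closure (Set.range α) := by rw [htop]; trivial
    have mono : ∀ {C C' : ℕ}, C ≤ C' → Subgroup.closure (α '' Set.Icc (-(C : ℤ)) C) ≤
        Subgroup.closure (α '' Set.Icc (-(C' : ℤ)) C') := by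
      intro C C' h
      exact Subgroup.closure_mono (Set.image_mono (Set.Icc_subset_Icc (by omega) (by omega)))
    induction he using Subgroup.closure_induction with
    | mem x hx =>
      obtain ⟨k, rfl⟩ := hx
      exact ⟨k.natAbs, Subgroup.subset_closure ⟨k, ⟨by omega, by omega⟩, rfl⟩⟩
    | one => exact ⟨0, Subgroup.one_mem _⟩
    | mul x y _ _ hx hy =>
      obtain ⟨C, hC⟩ := hx
      obtain ⟨C', hC'⟩ := hy
      exact ⟨max C C', Subgroup.mul_mem _ (mono (le_max_left _ _) hC)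
        (mono (le_max_right _ _) hC')⟩
    | inv x _ hx =>
      obtain ⟨C, hC⟩ := hx
      exact ⟨C, Subgroup.inv_mem _ hC⟩
  choose Cf hCf using exh
  refine ⟨max ((mulCayley S).dist 1 t) ((mulCayley S).dist 1 (ι (α 0))), fun K => ?_⟩
  obtain ⟨C, hC⟩ := ex_bound ((hW Γ S fS gS).2.2.1 1 K) (fun g =>
    if hg : ∃ (e : E) (m : ℤ), ι e * t ^ m = g then Cf hg.choose else 0)
  have hC' : ∀ (e : E) (m : ℤ), (mulCayley S).dist 1 (ι e * t ^ m) ≤ K →
      e ∈ Subgroup.closure (α '' Set.Icc (-(C : ℤ)) C) := by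
    intro e m h
    have h1 := hC _ h
    have hex : ∃ (e' : E) (m' : ℤ), ι e' * t ^ m' = ι e * t ^ m := ⟨e, m, rfl⟩
    simp only [dif_pos hex] at h1
    obtain ⟨e', m', hm', h1⟩ : ∃ (e' : E) (m' : ℤ), ι e' * t ^ m' = ι e * t ^ m ∧ Cf e' ≤ C :=
      ⟨hex.choose, hex.choose_spec.choose, hex.choose_spec.choose_spec, h1⟩
    have h2 : ι (e⁻¹ * e') = t ^ (m - m') := by
      rw [map_mul, map_inv, inv_mul_eq_iff_eq_mul, zpow_sub, ← mul_assoc, ← hm',
        mul_inv_cancel_right]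
    have h3 := tor _ _ h2
    rw [h3, zpow_zero, ← map_one ι] at h2
    have h4 : e' = e := by
      have := hι h2
      rwa [inv_mul_eq_one, eq_comm] at this
    rw [h4] at h1
    have h5 := hCf e
    exact Subgroup.closure_mono (Set.image_mono (Set.Icc_subset_Icc (by omega) (by omega))) h5
  -- the distances
  have farG : ∀ (Y : Finset ℕ) (k : ℕ) (Y' : Finset ℕ) (k' j : ℕ),
      (j ∈ Y ∧ j ∉ Y' ∨ j ∈ Y' ∧ j ∉ Y) → (k + C < j ∨ j + C < k) →
      K ≤ (mulCayley S).dist (ι (∏ y ∈ Y, α y) * t ^ (k : ℤ)) (ι (∏ y ∈ Y', α y) * t ^ (k' : ℤ)) := by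
    intro Y k Y' k' j hj hjk
    by_contra hlt
    have h1 := left (ι (∏ y ∈ Y, α y) * t ^ (k : ℤ))⁻¹ (ι (∏ y ∈ Y, α y) * t ^ (k : ℤ))
      (ι (∏ y ∈ Y', α y) * t ^ (k' : ℤ))
    rw [inv_mul_cancel] at h1
    have h2 : (ι (∏ y ∈ Y, α y) * t ^ (k : ℤ))⁻¹ * (ι (∏ y ∈ Y', α y) * t ^ (k' : ℤ)) =
        ι ((∏ y ∈ Y, α ((y : ℤ) - k))⁻¹ * ∏ y ∈ Y', α ((y : ℤ) - k)) * t ^ ((k' : ℤ) - k) := by
      rw [map_mul, map_inv, ← conj2, ← conj2]
      group
    rw [h2] at h1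
    have h3 := hC' _ _ (by rw [h1]; exact (not_le.1 hlt).le)
    set D := symmDiff Y Y' with hD
    have hmemD : ∀ i, i ∈ D ↔ (i ∈ Y ∧ i ∉ Y' ∨ i ∈ Y' ∧ i ∉ Y) := fun i => Finset.mem_symmDiff
    have hjD : j ∈ D := (hmemD j).2 hj
    rcases hjk with hjk | hjk
    · have hne : D.Nonempty := ⟨j, hjD⟩
      have h4 := D.max'_mem hne
      have h5 := D.le_max' j hjD
      refine hm ((D.max' hne : ℕ) - k : ℤ) ?_
      refine lamp_core' (fun y : ℕ => α ((y : ℤ) - k)) _ (j := D.max' hne)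
        ((hmemD _).1 h4) (fun i hi hi' => ?_) (Subgroup.closure_mono (Set.image_mono ?_) h3)
      · have h6 := D.le_max' i ((hmemD i).2 hi')
        refine Subgroup.subset_closure ⟨_, ?_, rfl⟩
        rw [Set.mem_Iio]
        omega
      · intro x hx
        rw [Set.mem_Icc] at hx
        rw [Set.mem_Iio]
        omega
    · have hne : D.Nonempty := ⟨j, hjD⟩
      have h4 := D.min'_mem hne
      have h5 := D.min'_le j hjD
      refine hp ((D.min' hne : ℕ) - k : ℤ) ?_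
      refine lamp_core' (fun y : ℕ => α ((y : ℤ) - k)) _ (j := D.min' hne)
        ((hmemD _).1 h4) (fun i hi hi' => ?_) (Subgroup.closure_mono (Set.image_mono ?_) h3)
      · have h6 := D.min'_le i ((hmemD i).2 hi')
        refine Subgroup.subset_closure ⟨_, ?_, rfl⟩
        rw [Set.mem_Ioi]
        omega
      · intro x hx
        rw [Set.mem_Icc] at hx
        rw [Set.mem_Ioi]
        omega
  refine ⟨⟨fun Y k => ι (∏ y ∈ Y, α y) * t ^ (k : ℤ), C, ?_, ?_, ?_, ?_⟩⟩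
  · intro Y k
    have h2 := left (ι (∏ y ∈ Y, α y) * t ^ (k : ℤ))⁻¹ (ι (∏ y ∈ Y, α y) * t ^ (k : ℤ))
      (ι (∏ y ∈ Y, α y) * t ^ ((k + 1 : ℕ) : ℤ))
    have h3 : (ι (∏ y ∈ Y, α y) * t ^ (k : ℤ))⁻¹ * (ι (∏ y ∈ Y, α y) * t ^ ((k + 1 : ℕ) : ℤ)) = t := by
      push_cast
      rw [zpow_add_one]
      group
    rw [inv_mul_cancel, h3] at h2
    rw [← h2]
    exact le_max_left _ _
  · intro Y k hk
    have h2 := left (ι (∏ y ∈ Y, α y) * t ^ (k : ℤ))⁻¹ (ι (∏ y ∈ Y, α y) * t ^ (k : ℤ))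
      (ι (∏ y ∈ insert k Y, α y) * t ^ (k : ℤ))
    have h3 : (ι (∏ y ∈ Y, α y) * t ^ (k : ℤ))⁻¹ * (ι (∏ y ∈ insert k Y, α y) * t ^ (k : ℤ)) =
        ι (α 0) := by
      rw [Finset.prod_insert hk, mul_comm, map_mul]
      have h4 := conj1 k 0
      rw [zero_add] at h4
      rw [← h4]
      group
    rw [inv_mul_cancel, h3] at h2
    rw [← h2]
    exact le_max_right _ _
  · intro Y k Y' k' j h1 h2 h3
    exact farG Y k Y' k' j (Or.inl ⟨h1, h2⟩) h3
  · intro Y k Y' k' j h1 h2 h3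
    rw [SimpleGraph.dist_comm]
    exact farG Y' k' Y k j (Or.inr ⟨h1, h2⟩) h3

end Pool.Agent.W5h94.AM
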