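import Pool.Agent.W5h94.AM.Defs6
import Pool.Agent.W5h94.AM.Conj

set_option autoImplicit false

/-!
# Two kinds of lamps from commuting conjugates
-/

open SimpleGraph

namespace Pool.Agent.W5h94.AM

variable {Γ : Type} [Group Γ] {S : Set Γ} {E : Type} [CommGroup E]

/-- the group generated by the lamps in `s` -/
def Mn (α β : ℤ → E) (s : Set ℤ) : Subgroup E := Subgroup.closure (α '' s ∪ β '' s)

lemma Mn_mono (α β : ℤ → E) {s s' : Set ℤ} (h : s ⊆ s') : Mn α β s ≤ Mn α β s' :=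
  Subgroup.closure_mono (Set.union_subset_union (Set.image_mono h) (Set.image_mono h))

theorem conj_lamp2 (hW : S_WM) (fS : S.Finite) (gS : Subgroup.closure S = ⊤) (ι : E →* Γ)
    (hι : Function.Injective ι) (t : Γ) (α β : ℤ → E)
    (hα : ∀ k, t * ι (α k) * t⁻¹ = ι (α (k + 1)))
    (hβ : ∀ k, t * ι (β k) * t⁻¹ = ι (β (k + 1)))
    (hp : ∀ k, α k ∉ Mn α β (Set.Ioi k)) (hm : ∀ k, β k ∉ Mn α β (Set.Iio k))
    (htop : Mn α β Set.univ = ⊤) : ∃ c, ∀ K n, Nonempty (Lamp2 (mulCayley S) c K n) := by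
  classical
  have left := (hW Γ S fS gS).2.1
  -- conjugation
  have conj1 : ∀ (δ : ℤ → E), (∀ k, t * ι (δ k) * t⁻¹ = ι (δ (k + 1))) → ∀ (m k : ℤ),
      t ^ m * ι (δ k) * t ^ (-m) = ι (δ (k + m)) := by
    intro δ hδ m
    induction m using Int.induction_on with
    | zero => intro k; simp
    | succ m ih =>
      intro k
      have h1 := ih (k + 1)
      rw [← hδ k] at h1
      rw [show k + ((m : ℤ) + 1) = k + 1 + m by ring, ← h1, neg_add, zpow_add, zpow_add, zpow_one,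
        zpow_neg_one]
      group
    | pred m ih =>
      intro k
      have h1 := ih (k - 1)
      have h2 := hδ (k - 1)
      rw [sub_add_cancel] at h2
      have h3 : ι (δ (k - 1)) = t⁻¹ * ι (δ k) * t := by
        rw [← h2]; group
      rw [h3] at h1
      rw [show k + (-(m : ℤ) - 1) = k - 1 + -m by ring, ← h1]
      group
  have conjα := conj1 α hα
  have conjβ := conj1 β hβ
  -- powers of `t`
  have tor : ∀ (e : E) (m : ℤ), ι e = t ^ m → m = 0 := by
    intro e m h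
    have key : ∀ k, α k = α (k + m) := by
      intro k
      have h1 := conjα m k
      rw [zpow_neg, ← h, ← map_inv, ← map_mul, ← map_mul, mul_inv_cancel_comm] at h1
      exact hι h1
    by_contra hm0
    rcases lt_or_gt_of_ne hm0 with h3 | h3
    · have h4 := key (-m)
      rw [neg_add_cancel] at h4
      refine hp 0 (Subgroup.subset_closure (Or.inl ⟨-m, ?_, h4⟩))
      rw [Set.mem_Ioi]
      omega
    · have h4 := key 0
      rw [zero_add] at h4
      exact hp 0 (Subgroup.subset_closure (Or.inl ⟨m, h3, h4.symm⟩))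
  -- exhaustion
  have exh : ∀ e : E, ∃ C : ℕ, e ∈ Mn α β (Set.Icc (-(C : ℤ)) C) := by
    intro e
    have he : e ∈ Mn α β Set.univ := by rw [htop]; trivial
    have mono : ∀ {C C' : ℕ}, C ≤ C' → Mn α β (Set.Icc (-(C : ℤ)) C) ≤
        Mn α β (Set.Icc (-(C' : ℤ)) C') := by
      intro C C' h
      exact Mn_mono α β (Set.Icc_subset_Icc (by omega) (by omega))
    unfold Mn at he
    induction he using Subgroup.closure_induction with
    | mem x hx =>
      rcases hx with ⟨k, -, rfl⟩ | ⟨k, -, rfl⟩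
      · exact ⟨k.natAbs, Subgroup.subset_closure (Or.inl ⟨k, ⟨by omega, by omega⟩, rfl⟩)⟩
      · exact ⟨k.natAbs, Subgroup.subset_closure (Or.inr ⟨k, ⟨by omega, by omega⟩, rfl⟩)⟩
    | one => exact ⟨0, Subgroup.one_mem _⟩
    | mul x y _ _ hx hy =>
      obtain ⟨C, hC⟩ := hx
      obtain ⟨C', hC'⟩ := hy
      exact ⟨max C C', Subgroup.mul_mem _ (mono (le_max_left _ _) hC)
        (mono (le_max_right _ _) hC')⟩
    | inv x _ hx =>
      obtain ⟨C, hC⟩ := hx
      exact ⟨C, Subgroup.inv_mem _ hC⟩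
  choose Cf hCf using exh
  refine ⟨max ((mulCayley S).dist 1 t) (max ((mulCayley S).dist 1 (ι (α 0)))
    ((mulCayley S).dist 1 (ι (β 0)))), fun K n => ?_⟩
  obtain ⟨C, hC⟩ := ex_bound ((hW Γ S fS gS).2.2.1 1 K) (fun g =>
    if hg : ∃ (e : E) (m : ℤ), ι e * t ^ m = g then Cf hg.choose else 0)
  have hC' : ∀ (e : E) (m : ℤ), (mulCayley S).dist 1 (ι e * t ^ m) ≤ K →
      e ∈ Mn α β (Set.Icc (-(C : ℤ)) C) := by
    intro e m h
    have h1 := hC _ h
    have hex : ∃ (e' : E) (m' : ℤ), ι e' * t ^ m' = ι e * t ^ m := ⟨e, m, rfl⟩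
    simp only [dif_pos hex] at h1
    obtain ⟨e', m', hm', h1⟩ : ∃ (e' : E) (m' : ℤ), ι e' * t ^ m' = ι e * t ^ m ∧ Cf e' ≤ C :=
      ⟨hex.choose, hex.choose_spec.choose, hex.choose_spec.choose_spec, h1⟩
    have h2 : ι (e⁻¹ * e') = t ^ (m - m') := by
      rw [map_mul, map_inv, inv_mul_eq_iff_eq_mul, zpow_sub, ← mul_assoc, ← hm',
        mul_inv_cancel_right]
    have h3 := tor _ _ h2
    rw [h3, zpow_zero, ← map_one ι] at h2
    have h4 : e' = e := by
      have := hι h2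
      rwa [inv_mul_eq_one, eq_comm] at this
    rw [h4] at h1
    exact Mn_mono α β (Set.Icc_subset_Icc (by omega) (by omega)) (hCf e)
  -- the lamps
  set lm : ℕ → E := fun i => if i < n then α i else β i with hlm
  set ls : ℤ → ℕ → E := fun k i => if i < n then α ((i : ℤ) - k) else β ((i : ℤ) - k) with hls
  have conj2 : ∀ (k : ℤ) (Y : Finset ℕ), t ^ (-k) * ι (∏ y ∈ Y, lm y) * t ^ k =
      ι (∏ y ∈ Y, ls k y) := by
    intro k Y
    induction Y using Finset.induction_on with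
    | empty => simp
    | insert a s ha ih =>
      rw [Finset.prod_insert ha, Finset.prod_insert ha, map_mul, map_mul, ← ih]
      have h1 : t ^ (-k) * ι (lm a) * t ^ k = ι (ls k a) := by
        simp only [hlm, hls]
        split_ifs
        · have h1 := conjα (-k) a
          rwa [neg_neg, ← sub_eq_add_neg] at h1
        · have h1 := conjβ (-k) a
          rwa [neg_neg, ← sub_eq_add_neg] at h1
      rw [← h1]
      group
  have lsmem : ∀ (k : ℤ) (i : ℕ) (s : Set ℤ), (i : ℤ) - k ∈ s → ls k i ∈ Mn α β s := by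
    intro k i s h
    simp only [hls]
    split_ifs
    · exact Subgroup.subset_closure (Or.inl ⟨_, h, rfl⟩)
    · exact Subgroup.subset_closure (Or.inr ⟨_, h, rfl⟩)
  refine ⟨⟨fun Y k => ι (∏ y ∈ Y, lm y) * t ^ (k : ℤ), C, ?_, ?_, ?_⟩⟩
  · intro Y k
    have h2 := left (ι (∏ y ∈ Y, lm y) * t ^ (k : ℤ))⁻¹ (ι (∏ y ∈ Y, lm y) * t ^ (k : ℤ))
      (ι (∏ y ∈ Y, lm y) * t ^ ((k + 1 : ℕ) : ℤ))
    have h3 : (ι (∏ y ∈ Y, lm y) * t ^ (k : ℤ))⁻¹ * (ι (∏ y ∈ Y, lm y) * t ^ ((k + 1 : ℕ) : ℤ)) =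
        t := by
      push_cast
      rw [zpow_add_one]
      group
    rw [inv_mul_cancel, h3] at h2
    rw [← h2]
    exact le_max_left _ _
  · intro Y k hk
    have h2 := left (ι (∏ y ∈ Y, lm y) * t ^ (k : ℤ))⁻¹ (ι (∏ y ∈ Y, lm y) * t ^ (k : ℤ))
      (ι (∏ y ∈ insert k Y, lm y) * t ^ (k : ℤ))
    have h3 : (ι (∏ y ∈ Y, lm y) * t ^ (k : ℤ))⁻¹ * (ι (∏ y ∈ insert k Y, lm y) * t ^ (k : ℤ)) =
        ι (if k < n then α 0 else β 0) := by
      rw [Finset.prod_insert hk, mul_comm, map_mul]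
      have h4 : ι (lm k) = t ^ (k : ℤ) * ι (if k < n then α 0 else β 0) * t ^ (-(k : ℤ)) := by
        simp only [hlm]
        split_ifs
        · have h4 := conjα k 0
          rw [zero_add] at h4
          exact h4.symm
        · have h4 := conjβ k 0
          rw [zero_add] at h4
          exact h4.symm
      rw [h4]
      group
    rw [inv_mul_cancel, h3] at h2
    rw [← h2]
    split_ifs
    · exact le_max_of_le_right (le_max_left _ _)
    · exact le_max_of_le_right (le_max_right _ _)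
  · intro Y k Y' k' j hj hjk
    by_contra hlt
    have h1 := left (ι (∏ y ∈ Y, lm y) * t ^ (k : ℤ))⁻¹ (ι (∏ y ∈ Y, lm y) * t ^ (k : ℤ))
      (ι (∏ y ∈ Y', lm y) * t ^ (k' : ℤ))
    rw [inv_mul_cancel] at h1
    have h2 : (ι (∏ y ∈ Y, lm y) * t ^ (k : ℤ))⁻¹ * (ι (∏ y ∈ Y', lm y) * t ^ (k' : ℤ)) =
        ι ((∏ y ∈ Y, ls k y)⁻¹ * ∏ y ∈ Y', ls k y) * t ^ ((k' : ℤ) - k) := by
      rw [map_mul, map_inv, ← conj2, ← conj2]
      group
    rw [h2] at h1
    have h3 := hC' _ _ (by rw [h1]; exact (not_le.1 hlt).le)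
    set D := symmDiff Y Y' with hD
    have hmemD : ∀ i, i ∈ D ↔ (i ∈ Y ∧ i ∉ Y' ∨ i ∈ Y' ∧ i ∉ Y) := fun i => Finset.mem_symmDiff
    have hjD : j ∈ D := (hmemD j).2 hj
    have hne : D.Nonempty := ⟨j, hjD⟩
    rcases hjk with ⟨hjn, hjk⟩ | ⟨hjn, hjk⟩
    · have h4 := D.max'_mem hne
      have h5 := D.le_max' j hjD
      refine hm ((D.max' hne : ℕ) - k : ℤ) ?_
      have h8 := lamp_core' (ls k) (Mn α β (Set.Iio ((D.max' hne : ℕ) - k : ℤ)))
        (j := D.max' hne) ((hmemD _).1 h4) (fun i hi hi' => ?_) (Mn_mono α β ?_ h3)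
      · simp only [hls] at h8
        rwa [if_neg (by omega)] at h8
      · have h6 := D.le_max' i ((hmemD i).2 hi')
        refine lsmem _ _ _ ?_
        rw [Set.mem_Iio]
        omega
      · intro x hx
        rw [Set.mem_Icc] at hx
        rw [Set.mem_Iio]
        omega
    · have h4 := D.min'_mem hne
      have h5 := D.min'_le j hjD
      refine hp ((D.min' hne : ℕ) - k : ℤ) ?_
      have h8 := lamp_core' (ls k) (Mn α β (Set.Ioi ((D.min' hne : ℕ) - k : ℤ)))
        (j := D.min' hne) ((hmemD _).1 h4) (fun i hi hi' => ?_) (Mn_mono α β ?_ h3)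
      · simp only [hls] at h8
        rwa [if_pos (by omega)] at h8
      · have h6 := D.min'_le i ((hmemD i).2 hi')
        refine lsmem _ _ _ ?_
        rw [Set.mem_Ioi]
        omega
      · intro x hx
        rw [Set.mem_Icc] at hx
        rw [Set.mem_Ioi]
        omega

end Pool.Agent.W5h94.AM
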