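import Pool.Agent.W5h94.AM.Defs

set_option autoImplicit false

/-!
# Flaps on geodesic lines: statements
-/

open SimpleGraph

namespace Pool.Agent.W5h94.AM

/-- A path of length `R` which leaves the line `γ` at `γ x₀` (constant after time `R` is allowed). -/
def HasFlap {Q : Type} [Group Q] (T : Set Q) (γ : ℤ → Q) (R : ℕ) (x₀ : ℤ) : Prop :=
  ∃ f : ℕ → Q, f 0 = γ x₀ ∧ (∀ t, (mulCayley T).dist (f t) (f (t + 1)) ≤ 1) ∧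
    ∀ t, t ≤ R → ∀ x, t ≤ (mulCayley T).dist (f t) (γ x)

/-- (FLAP1) -/
def S_FLAP1 : Prop := ∀ (Q : Type) [Group Q] (T : Set Q), T.Finite → Subgroup.closure T = ⊤ →
  (∀ g : Q, ¬ (Subgroup.zpowers g).FiniteIndex) →
  ∀ (γ : ℤ → Q), (∀ x y, ((mulCayley T).dist (γ x) (γ y) : ℤ) = |x - y|) →
  ∀ R : ℕ, ∃ x₀, HasFlap T γ R x₀

/-- (FLAPS) -/
def S_FLAPS : Prop := ∀ (Q : Type) [Group Q] (T : Set Q), T.Finite → Subgroup.closure T = ⊤ →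
  (∀ g : Q, ¬ (Subgroup.zpowers g).FiniteIndex) →
  ∀ (γ : ℤ → Q), (∀ x y, ((mulCayley T).dist (γ x) (γ y) : ℤ) = |x - y|) →
  ∀ (R : ℕ) (N : ℤ), ∃ x₀, N ≤ x₀ ∧ HasFlap T γ R x₀

end Pool.Agent.W5h94.AM
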