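import Pool.Agent.W5h94.AM.Defs4

set_option autoImplicit false

/-!
# The restricted wreath product
-/

open SimpleGraph

namespace Pool.Agent.W5h94.AM

/-- The restricted wreath product `A ≀ B`: the elements of the regular wreath product with finitely
supported left part. -/
def RWr (A B : Type) [Group A] [Group B] : Subgroup (A ≀ᵣ B) where
  carrier := {x | {b | x.left b ≠ 1}.Finite}
  one_mem' := by simp
  mul_mem' := by
    intro x y hx hy
    have h1 : {b | y.left (x.right⁻¹ * b) ≠ 1}.Finite :=
      (hy.image (fun b => x.right * b)).subset fun b hb => ⟨x.right⁻¹ * b, hb, by simp⟩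
    refine (hx.union h1).subset fun b hb => ?_
    by_contra hcon
    rw [Set.mem_union, not_or] at hcon
    simp only [Set.mem_ofPred_eq, ne_eq, not_not] at hcon
    exact hb (by simp [hcon.1, hcon.2])
  inv_mem' := by
    intro x hx
    refine (hx.image (fun b => x.right⁻¹ * b)).subset fun b hb => ⟨x.right * b, ?_, by simp⟩
    intro h
    exact hb (by simp [h])

/-- (WREATH) -/
def S_WREATH : Prop := ∀ {Γ : Type} [Group Γ] {S : Set Γ}, S.Finite → Subgroup.closure S = ⊤ →
  ∀ {A B : Type} [Group A] [Group B], Nontrivial A → Infinite B → Group.FG B →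
  ∀ ψ : RWr A B →* Γ, Function.Injective ψ → ∃ c, ∀ K, Nonempty (Lamp (mulCayley S) c K)

end Pool.Agent.W5h94.AM
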