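import Pool.Agent.W5h94.AM.Defs5

set_option autoImplicit false

/-!
# A coarse lamplighter with two kinds of lamps
-/

open SimpleGraph

namespace Pool.Agent.W5h94.AM

/-- As `Lamp`, but the lamps `j < n` are only seen from the right and the lamps `j ≥ n` only from
the left. -/
structure Lamp2 {V : Type} (G : SimpleGraph V) (c K n : ℕ) where
  pt : Finset ℕ → ℕ → V
  C : ℕ
  mv : ∀ Y k, G.dist (pt Y k) (pt Y (k + 1)) ≤ c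
  tg : ∀ Y k, k ∉ Y → G.dist (pt Y k) (pt (insert k Y) k) ≤ c
  far : ∀ Y k Y' k' j, (j ∈ Y ∧ j ∉ Y' ∨ j ∈ Y' ∧ j ∉ Y) →
    (n ≤ j ∧ k + C < j ∨ j < n ∧ j + C < k) → K ≤ G.dist (pt Y k) (pt Y' k')

/-- (LAMP2) -/
def S_LAMP2 : Prop := ∀ (V : Type) (G : SimpleGraph V) (c K n : ℕ), Lamp2 G c K n →
  ∃ (B : Fin n → Set V) (P : Sym2 (Fin n) → Set V),
    (∀ v, CConn G c (B v)) ∧ (∀ e, ¬ e.IsDiag → CConn G c (P e)) ∧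
    (∀ e, ¬ e.IsDiag → ∀ v ∈ e, (P e ∩ B v).Nonempty) ∧
    (∀ u v, u ≠ v → ∀ x ∈ B u, ∀ y ∈ B v, K ≤ G.dist x y) ∧
    (∀ e f, ¬ e.IsDiag → ¬ f.IsDiag → e ≠ f → ∀ x ∈ P e, ∀ y ∈ P f, K ≤ G.dist x y) ∧
    ∀ e, ¬ e.IsDiag → ∀ w, w ∉ e → ∀ x ∈ P e, ∀ y ∈ B w, K ≤ G.dist x y

end Pool.Agent.W5h94.AM
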