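import Pool.Agent.W5h94.AM.Fat

set_option autoImplicit false

/-!
# Asymptotic minors of groups with an infinite finitely generated normal subgroup
-/

open SimpleGraph

namespace Pool.Agent.W5h94.AM

lemma exists_gen {G : Type} [Group G] (h : Group.FG G) :
    ∃ T : Set G, T.Finite ∧ Subgroup.closure T = ⊤ := by
  obtain ⟨T, hT⟩ := h.out
  exact ⟨T, T.finite_toSet, hT⟩

/-- the quotient has no cyclic subgroup of finite index -/
lemma quot_not_vc {Γ : Type} [Group Γ] {G N : Subgroup Γ} {Q : Type} [Group Q]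
    (π : G →* Q) (hker : ∀ a : G, π a = 1 ↔ (a : Γ) ∈ N) (hsurj : Function.Surjective π)
    (hvc : ∀ g ∈ G, (Subgroup.zpowers g ⊔ N).relIndex G = 0) (q : Q) :
    ¬ (Subgroup.zpowers q).FiniteIndex := by
  intro hfi
  obtain ⟨g, rfl⟩ := hsurj q
  have h1 := hfi.index_ne_zero
  rw [← Subgroup.index_comap_of_surjective _ hsurj] at h1
  apply h1
  have h2 : (Subgroup.zpowers (π g)).comap π ≤
      (Subgroup.zpowers (g : Γ) ⊔ N).subgroupOf G := by
    intro x hx
    rw [Subgroup.mem_comap, Subgroup.mem_zpowers_iff] at hx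
    obtain ⟨k, hk⟩ := hx
    rw [Subgroup.mem_subgroupOf]
    have h3 : π (g ^ (-k) * x) = 1 := by
      rw [map_mul, map_zpow, ← hk, ← zpow_add, neg_add_cancel, zpow_zero]
    have h4 : (x : Γ) = (g : Γ) ^ k * ((g ^ (-k) * x : G) : Γ) := by
      push_cast
      rw [← mul_assoc, ← zpow_add, add_neg_cancel, zpow_zero, one_mul]
    rw [h4]
    exact Subgroup.mul_mem_sup (Subgroup.zpow_mem _ (Subgroup.mem_zpowers _) _) ((hker _).1 h3)
  have h5 := Subgroup.index_dvd_of_le h2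
  have h6 : ((Subgroup.zpowers (g : Γ) ⊔ N).subgroupOf G).index = 0 := hvc g g.2
  rw [h6] at h5
  exact zero_dvd_iff.1 h5

theorem ext_main (hW : S_WM) (hL : S_LINE) (hF : S_FLAPS) {Γ : Type} [Group Γ] {S : Set Γ}
    (fS : S.Finite) (gS : Subgroup.closure S = ⊤) {G N : Subgroup Γ} (hNG : N ≤ G)
    (hnor : (N.subgroupOf G).Normal) (hG : G.FG) (hN : N.FG) (hinf : Infinite N)
    (hvc : ∀ g ∈ G, (Subgroup.zpowers g ⊔ N).relIndex G = 0)
    {W : Type} [Finite W] (H : SimpleGraph W) : AsymptoticMinor H (mulCayley S) := by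
  obtain ⟨TG, fG, gG⟩ := exists_gen ((Group.fg_iff_subgroup_fg G).2 hG)
  obtain ⟨TN, fN, gN⟩ := exists_gen ((Group.fg_iff_subgroup_fg N).2 hN)
  let π : G →* G ⧸ N.subgroupOf G := QuotientGroup.mk' (N.subgroupOf G)
  have hsurj : Function.Surjective π := QuotientGroup.mk'_surjective _
  have hker : ∀ a : G, π a = 1 ↔ (a : Γ) ∈ N := by
    intro a
    rw [← MonoidHom.mem_ker, QuotientGroup.ker_mk', Subgroup.mem_subgroupOf]
  have hQ := quot_not_vc π hker hsurj hvc
  have : Infinite (G ⧸ N.subgroupOf G) := by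
    rw [← not_finite_iff_infinite]
    intro hfin
    exact hQ 1 inferInstance
  have fT : (π '' TG).Finite := fG.image _
  have gT : Subgroup.closure (π '' TG) = ⊤ := by
    rw [← MonoidHom.map_closure, gG]
    exact Subgroup.map_top_of_surjective _ hsurj
  obtain ⟨γ, hγ⟩ := hL _ (π '' TG) fT gT
  refine fat hW fS gS fT gT fN gN hNG π hker hsurj (Z := TG ∪ (fun x => x⁻¹) '' TG ∪ {1})
    ((fG.union (fG.image _)).union (Set.finite_singleton _)) ?_ γ hγ
    (hF _ (π '' TG) fT gT hQ γ hγ) H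
  intro u q hq
  rcases (hW _ (π '' TG) fT gT).2.2.2.1 (π u) q hq with ⟨τ, hτ, h⟩ | ⟨τ, hτ, h⟩ | h
  · refine ⟨u * τ, ?_, Or.inl (Or.inl ?_)⟩
    · rw [map_mul, h]; group
    · simpa using hτ
  · refine ⟨u * τ⁻¹, ?_, Or.inl (Or.inr ?_)⟩
    · rw [map_mul, map_inv, h]; group
    · exact ⟨τ, hτ, by simp⟩
  · exact ⟨u, h, Or.inr (by simp)⟩

end Pool.Agent.W5h94.AM
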