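import Pool.Agent.W5h94.AM.Cj
import Pool.Agent.W5h94.AM.Thick

set_option autoImplicit false

/-!
# Asymptotic minors from coarse lamplighters
-/

open SimpleGraph

namespace Pool.Agent.W5h94.AM

/-- relabelling -/
theorem asym_of_fin {V W : Type} [Finite W] (G : SimpleGraph V) (hG : G.Connected)
    (H : SimpleGraph W) (c : ℕ)
    (h : ∀ K : ℕ, ∃ (B : Fin (Nat.card W) → Set V) (P : Sym2 (Fin (Nat.card W)) → Set V),
      (∀ v, CConn G c (B v)) ∧ (∀ e, ¬ e.IsDiag → CConn G c (P e)) ∧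
      (∀ e, ¬ e.IsDiag → ∀ v ∈ e, (P e ∩ B v).Nonempty) ∧
      (∀ u v, u ≠ v → ∀ x ∈ B u, ∀ y ∈ B v, K ≤ G.dist x y) ∧
      (∀ e f, ¬ e.IsDiag → ¬ f.IsDiag → e ≠ f → ∀ x ∈ P e, ∀ y ∈ P f, K ≤ G.dist x y) ∧
      ∀ e, ¬ e.IsDiag → ∀ w, w ∉ e → ∀ x ∈ P e, ∀ y ∈ B w, K ≤ G.dist x y) :
    AsymptoticMinor H G := by
  intro K _
  obtain ⟨B, P, h1, h2, h3, h4, h5, h6⟩ := h (K + 2 * c)
  let e : W ≃ Fin (Nat.card W) := Finite.equivFin W
  have hdiag : ∀ s ∈ H.edgeSet, ¬ (Sym2.map e s).IsDiag := by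
    intro s hs
    rw [Sym2.isDiag_map e.injective]
    exact H.not_isDiag_of_mem_edgeSet hs
  have hmem : ∀ (w : W) (s : Sym2 W), e w ∈ Sym2.map e s ↔ w ∈ s := by
    intro w s
    rw [Sym2.mem_map]
    constructor
    · rintro ⟨a, ha, hae⟩
      rwa [← e.injective hae]
    · exact fun h => ⟨w, h, rfl⟩
  refine thick V W G hG H c K (fun w => B (e w))
    (fun s => P (Sym2.map e s)) (fun w => h1 _) (fun s hs => h2 _ (hdiag s hs)) ?_ ?_ ?_ ?_
  · intro s hs v hv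
    exact h3 _ (hdiag s hs) _ ((hmem v s).2 hv)
  · intro u v huv
    exact h4 _ _ (e.injective.ne huv)
  · intro s hs s' hs' hss
    exact h5 _ _ (hdiag s hs) (hdiag s' hs') ((Sym2.map.injective e.injective).ne hss)
  · intro s hs w hw
    exact h6 _ (hdiag s hs) _ (fun h => hw ((hmem w s).1 h))

theorem wreath_main (hW : S_WM) (hWr : S_WREATH) (hL : S_LAMP) {Γ : Type} [Group Γ] {S : Set Γ}
    (fS : S.Finite) (gS : Subgroup.closure S = ⊤) {A B : Type} [Group A] [Group B]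
    (hA : Nontrivial A) (hB : Infinite B) (fB : Group.FG B) (ψ : RWr A B →* Γ)
    (hψ : Function.Injective ψ) {W : Type} [Finite W] (H : SimpleGraph W) :
    AsymptoticMinor H (mulCayley S) := by
  obtain ⟨c, hc⟩ := hWr fS gS hA hB fB ψ hψ
  refine asym_of_fin _ (hW Γ S fS gS).1 H c fun K => ?_
  obtain ⟨L⟩ := hc K
  exact hL Γ (mulCayley S) c K L _

theorem cj_main (hW : S_WM) (hL : S_LAMP2) {Γ : Type} [Group Γ] {S : Set Γ}
    (fS : S.Finite) (gS : Subgroup.closure S = ⊤) (t : Γ)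
    (A : Set Γ) (hcomm : ∀ x ∈ Cj t A Set.univ, ∀ y ∈ Cj t A Set.univ, x * y = y * x)
    (hpos : Subgroup.closure (Cj t A (Set.Ici 0)) ≠ Subgroup.closure (Cj t A Set.univ))
    (hneg : Subgroup.closure (Cj t A (Set.Iic 0)) ≠ Subgroup.closure (Cj t A Set.univ))
    {W : Type} [Finite W] (H : SimpleGraph W) : AsymptoticMinor H (mulCayley S) := by
  obtain ⟨c, hc⟩ := cj_lamp hW fS gS t A hcomm hpos hneg
  refine asym_of_fin _ (hW Γ S fS gS).1 H c fun K => ?_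
  obtain ⟨L⟩ := hc K (Nat.card W)
  exact hL Γ (mulCayley S) c K _ L

end Pool.Agent.W5h94.AM
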