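import Pool.Agent.W5h94.AM.Cells

set_option autoImplicit false

/-!
# The coarse grid with overpasses in a semidirect product with an infinite cyclic group
-/

open SimpleGraph

namespace Pool.Agent.W5h94.AM

variable {Γ : Type} [Group Γ] {S : Set Γ} {N : Subgroup Γ} {TN : Set N} {t : Γ} {c K : ℕ} {Hm : ℤ}
  {lam mu C1 C2 : ℕ}

lemma base_mem_cell (n : N) (h : ℤ) : (n : Γ) * t ^ h ∈ cell TN t lam n h :=
  ⟨1, by simp, by simp⟩

lemma cconn_cells (hW : S_WM) (fN : TN.Finite) (gN : Subgroup.closure TN = ⊤)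
    (C : Cst S N TN t c K Hm lam mu C1 C2) {I : Set (N × ℤ)} {i₀ : N × ℤ} (hi₀ : i₀ ∈ I)
    (hI : ∀ i ∈ I, 0 ≤ i.2 ∧ i.2 ≤ Hm)
    (hcon : ∀ i ∈ I, Relation.ReflTransGen (fun i j => i ∈ I ∧ j ∈ I ∧ Mv TN i j) i₀ i) :
    CConn (mulCayley S) c (cells TN t lam I) := by
  have path : ∀ i ∈ I, ∀ m : N, (mulCayley TN).dist 1 m ≤ lam →
      Relation.ReflTransGen (fun u v => u ∈ cells TN t lam I ∧ v ∈ cells TN t lam I ∧
        (mulCayley S).dist u v ≤ c) ((i.1 : Γ) * t ^ i.2) ((i.1 : Γ) * t ^ i.2 * m) := by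
    intro i hi m hm
    obtain ⟨p, hp0, hp1, hp2⟩ := (hW N TN fN gN).2.2.2.2 1 m
    have hpk : ∀ k, k ≤ (mulCayley TN).dist 1 m → (mulCayley TN).dist 1 (p k) ≤ lam := by
      intro k hk
      have h1 := hp2 0 k (Nat.zero_le _) hk
      rw [hp0, Nat.cast_zero, zero_sub, abs_neg, Int.abs_eq_natAbs, Int.natAbs_natCast] at h1
      omega
    have key : ∀ k, k ≤ (mulCayley TN).dist 1 m →
        Relation.ReflTransGen (fun u v => u ∈ cells TN t lam I ∧ v ∈ cells TN t lam I ∧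
        (mulCayley S).dist u v ≤ c) ((i.1 : Γ) * t ^ i.2) ((i.1 : Γ) * t ^ i.2 * p k) := by
      intro k
      induction k with
      | zero =>
        intro _
        rw [hp0, Subgroup.coe_one, mul_one]
      | succ k ih =>
        intro hk
        have h1 := hp2 k (k + 1) (by omega) hk
        rw [abs_of_nonpos (by push_cast; omega)] at h1
        refine (ih (by omega)).tail ⟨⟨i, hi, p k, hpk k (by omega), rfl⟩,
          ⟨i, hi, p (k + 1), hpk _ hk, rfl⟩, C.hcn _ _ _ ?_⟩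
        push_cast at h1
        omega
    have h2 := key _ le_rfl
    rwa [hp1] at h2
  have base : ∀ i ∈ I, (i.1 : Γ) * t ^ i.2 ∈ cells TN t lam I :=
    fun i hi => ⟨i, hi, base_mem_cell _ _⟩
  have main : ∀ i, Relation.ReflTransGen (fun i j => i ∈ I ∧ j ∈ I ∧ Mv TN i j) i₀ i →
      Relation.ReflTransGen (fun u v => u ∈ cells TN t lam I ∧ v ∈ cells TN t lam I ∧
        (mulCayley S).dist u v ≤ c) ((i₀.1 : Γ) * t ^ i₀.2) ((i.1 : Γ) * t ^ i.2) := by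
    intro i hi
    induction hi with
    | refl => exact Relation.ReflTransGen.refl
    | @tail i j _ hij ih =>
      obtain ⟨hi, hj, h⟩ := hij
      rcases h with ⟨h1, h2⟩ | ⟨h1, h2 | h2⟩
      · obtain ⟨m, hm1, hm2⟩ := C.hlam i.2 (hI i hi).1 (hI i hi).2 i.1 j.1 h2
        rw [← h1, hm1]
        exact ih.trans (path i hi m hm2)
      · refine ih.tail ⟨base i hi, base j hj, ?_⟩
        rw [← h1, h2, zpow_add_one, ← mul_assoc]
        exact C.hct _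
      · refine ih.tail ⟨base i hi, base j hj, ?_⟩
        rw [← h1, h2, zpow_add_one, ← mul_assoc, dist_comm]
        exact C.hct _
  refine cconn_base (base i₀ hi₀) ?_
  rintro _ ⟨i, hi, m, hm, rfl⟩
  exact (main i (hcon i hi)).trans (path i hi m hm)

lemma cell_far1 (C : Cst S N TN t c K Hm lam mu C1 C2) {n n' : N} {h h' : ℤ} (h0 : 0 ≤ h)
    (h1 : h ≤ Hm) (h0' : 0 ≤ h') (h1' : h' ≤ Hm) {g g' : Γ} (hg : g ∈ cell TN t lam n h)
    (hg' : g' ∈ cell TN t lam n' h') (hh : C1 < |h - h'|) : K ≤ (mulCayley S).dist g g' := by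
  obtain ⟨m, hm, rfl⟩ := hg
  obtain ⟨m', hm', rfl⟩ := hg'
  obtain ⟨a, ha, -⟩ := C.hmu h h0 h1 n m hm
  obtain ⟨a', ha', -⟩ := C.hmu h' h0' h1' n' m' hm'
  rw [ha, ha']
  exact C.hC1 _ _ _ _ hh

lemma cell_far2 (hW : S_WM) (fN : TN.Finite) (gN : Subgroup.closure TN = ⊤)
    (C : Cst S N TN t c K Hm lam mu C1 C2) {n n' : N} {h h' : ℤ} (h0 : 0 ≤ h)
    (h1 : h ≤ Hm) (h0' : 0 ≤ h') (h1' : h' ≤ Hm) {g g' : Γ} (hg : g ∈ cell TN t lam n h)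
    (hg' : g' ∈ cell TN t lam n' h') (hh : C2 + 2 * mu < (mulCayley TN).dist n n') :
    K ≤ (mulCayley S).dist g g' := by
  obtain ⟨m, hm, rfl⟩ := hg
  obtain ⟨m', hm', rfl⟩ := hg'
  obtain ⟨a, ha, hda⟩ := C.hmu h h0 h1 n m hm
  obtain ⟨a', ha', hda'⟩ := C.hmu h' h0' h1' n' m' hm'
  rw [ha, ha']
  refine C.hC2 _ _ _ _ h0 h1 h0' h1' ?_
  have hc := (hW N TN fN gN).1
  have t1 := hc.dist_triangle (u := n) (v := a) (w := n')
  have t2 := hc.dist_triangle (u := a) (v := a') (w := n')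
  have t3 : (mulCayley TN).dist a' n' = (mulCayley TN).dist n' a' := dist_comm
  omega

/-- rectangles -/
def rectI (γ : ℤ → N) (x₀ x₁ h₀ h₁ : ℤ) : Set (N × ℤ) :=
  {i | ∃ x h, x₀ ≤ x ∧ x ≤ x₁ ∧ h₀ ≤ h ∧ h ≤ h₁ ∧ i = (γ x, h)}

/-- overpasses -/
def ovpI (f : ℕ → N) (R : ℕ) (h₀ h₁ : ℤ) : Set (N × ℤ) :=
  {i | ∃ (s : ℕ) (h : ℤ), s ≤ R ∧ h₀ ≤ h ∧ h ≤ h₁ ∧ (s = R ∨ h = h₀ ∨ h = h₁) ∧ i = (f s, h)}

lemma conn_rectI {γ : ℤ → N} (hγ : ∀ x, (mulCayley TN).dist (γ x) (γ (x + 1)) ≤ 1)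
    {x₀ x₁ y₀ y₁ : ℤ} (hx : x₀ ≤ x₁) (hy : y₀ ≤ y₁) : (γ x₀, y₀) ∈ rectI γ x₀ x₁ y₀ y₁ ∧
    ∀ i ∈ rectI γ x₀ x₁ y₀ y₁, Relation.ReflTransGen (fun i j => i ∈ rectI γ x₀ x₁ y₀ y₁ ∧
      j ∈ rectI γ x₀ x₁ y₀ y₁ ∧ Mv TN i j) (γ x₀, y₀) i := by
  have key1 : ∀ n : ℕ, x₀ + n ≤ x₁ → Relation.ReflTransGen (fun i j =>
      i ∈ rectI γ x₀ x₁ y₀ y₁ ∧ j ∈ rectI γ x₀ x₁ y₀ y₁ ∧ Mv TN i j)
      (γ x₀, y₀) (γ (x₀ + n), y₀) := by
    intro n
    induction n with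
    | zero =>
      intro _
      simp only [Nat.cast_zero, add_zero]
      exact Relation.ReflTransGen.refl
    | succ n ih =>
      intro hn
      push_cast at hn ⊢
      refine (ih (by omega)).tail ⟨⟨x₀ + n, y₀, by omega, by omega, by omega, hy, rfl⟩,
        ⟨x₀ + (n + 1), y₀, by omega, by omega, by omega, hy, rfl⟩, Or.inl ⟨rfl, ?_⟩⟩
      rw [← add_assoc]
      exact hγ _
  have key2 : ∀ x, x₀ ≤ x → x ≤ x₁ → ∀ n : ℕ, y₀ + n ≤ y₁ → Relation.ReflTransGen (fun i j =>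
      i ∈ rectI γ x₀ x₁ y₀ y₁ ∧ j ∈ rectI γ x₀ x₁ y₀ y₁ ∧ Mv TN i j)
      (γ x, y₀) (γ x, y₀ + n) := by
    intro x hx0 hx1 n
    induction n with
    | zero =>
      intro _
      simp only [Nat.cast_zero, add_zero]
      exact Relation.ReflTransGen.refl
    | succ n ih =>
      intro hn
      push_cast at hn ⊢
      exact (ih (by omega)).tail ⟨⟨x, y₀ + n, hx0, hx1, by omega, by omega, rfl⟩,
        ⟨x, y₀ + (n + 1), hx0, hx1, by omega, by omega, rfl⟩, Or.inr ⟨rfl, Or.inl (by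
          simp only; ring)⟩⟩
  refine ⟨⟨x₀, y₀, le_rfl, hx, le_rfl, hy, rfl⟩, ?_⟩
  rintro _ ⟨x, y, h1, h2, h3, h4, rfl⟩
  obtain ⟨n, hn⟩ := Int.eq_ofNat_of_zero_le (sub_nonneg.2 h1)
  obtain ⟨m, hm⟩ := Int.eq_ofNat_of_zero_le (sub_nonneg.2 h3)
  have e1 : x = x₀ + n := by omega
  have e2 : y = y₀ + m := by omega
  rw [e1, e2]
  exact (key1 n (by omega)).trans (key2 _ (by omega) (by omega) m (by omega))

lemma conn_ovpI {f : ℕ → N} (hf : ∀ s, (mulCayley TN).dist (f s) (f (s + 1)) ≤ 1) {R : ℕ}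
    {h₀ h₁ : ℤ} (hh : h₀ ≤ h₁) : (f R, h₀) ∈ ovpI f R h₀ h₁ ∧
    ∀ i ∈ ovpI f R h₀ h₁, Relation.ReflTransGen (fun i j => i ∈ ovpI f R h₀ h₁ ∧
      j ∈ ovpI f R h₀ h₁ ∧ Mv TN i j) (f R, h₀) i := by
  have key1 : ∀ n : ℕ, h₀ + n ≤ h₁ → Relation.ReflTransGen (fun i j => i ∈ ovpI f R h₀ h₁ ∧
      j ∈ ovpI f R h₀ h₁ ∧ Mv TN i j) (f R, h₀) (f R, h₀ + n) := by
    intro n
    induction n with
    | zero =>
      intro _
      simp only [Nat.cast_zero, add_zero]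
      exact Relation.ReflTransGen.refl
    | succ n ih =>
      intro hn
      push_cast at hn ⊢
      exact (ih (by omega)).tail ⟨⟨R, h₀ + n, le_rfl, by omega, by omega, Or.inl rfl, rfl⟩,
        ⟨R, h₀ + (n + 1), le_rfl, by omega, by omega, Or.inl rfl, rfl⟩,
        Or.inr ⟨rfl, Or.inl (by simp only; ring)⟩⟩
  have key2 : ∀ h, (h = h₀ ∨ h = h₁) → ∀ n : ℕ, n ≤ R →
      Relation.ReflTransGen (fun i j => i ∈ ovpI f R h₀ h₁ ∧
      j ∈ ovpI f R h₀ h₁ ∧ Mv TN i j) (f R, h) (f (R - n), h) := by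
    intro h hh' n
    induction n with
    | zero =>
      intro _
      exact Relation.ReflTransGen.refl
    | succ n ih =>
      intro hn
      have hm1 : h₀ ≤ h := by rcases hh' with rfl | rfl <;> omega
      have hm2 : h ≤ h₁ := by rcases hh' with rfl | rfl <;> omega
      refine (ih (by omega)).tail ⟨⟨R - n, h, by omega, hm1, hm2, Or.inr hh', rfl⟩,
        ⟨R - (n + 1), h, by omega, hm1, hm2, Or.inr hh', rfl⟩, Or.inl ⟨rfl, ?_⟩⟩
      have h1 := hf (R - (n + 1))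
      rw [dist_comm, show R - (n + 1) + 1 = R - n by omega] at h1
      exact h1
  refine ⟨⟨R, h₀, le_rfl, le_rfl, hh, Or.inl rfl, rfl⟩, ?_⟩
  rintro _ ⟨s, h, h1, h2, h3, h4, rfl⟩
  obtain ⟨n, hn⟩ := Int.eq_ofNat_of_zero_le (sub_nonneg.2 h2)
  have e2 : h = h₀ + n := by omega
  rcases h4 with h4 | h4
  · rw [h4, e2]
    exact key1 n (by omega)
  · have h5 := key2 h h4 (R - s) (by omega)
    rw [show R - (R - s) = s by omega] at h5
    refine Relation.ReflTransGen.trans ?_ h5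
    rw [e2]
    exact key1 n (by omega)

theorem exists_overB (hW : S_WM) (fN : TN.Finite) (gN : Subgroup.closure TN = ⊤)
    (hC : ∀ Hm : ℤ, ∃ lam mu C2, Cst S N TN t c K Hm lam mu C1 C2)
    (hfl : ∀ R, ∃ γ : ℤ → N, (∀ x y, ((mulCayley TN).dist (γ x) (γ y) : ℤ) = |x - y|) ∧
      HasFlap TN γ R 0) (D : ℤ) : Nonempty (OverB (mulCayley S) c K D) := by
  set L : ℤ := C1 + 1 with hL
  have hL0 : 0 < L := by omega
  obtain ⟨lam, mu, C2, C⟩ := hC (L * D)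
  obtain ⟨γ, hγ, f, hf0, hf1, hf2⟩ := hfl (C2 + 2 * mu + 1)
  set R := C2 + 2 * mu + 1 with hR
  set M : ℤ := 2 * R with hM
  have hM0 : 0 < M := by omega
  have hcN := (hW N TN fN gN).1
  have hγ1 : ∀ x, (mulCayley TN).dist (γ x) (γ (x + 1)) ≤ 1 := by
    intro x
    have := hγ x (x + 1)
    rw [abs_of_nonpos (by omega)] at this
    omega
  -- monotonicity
  have mono : ∀ {L : ℤ}, 0 < L → ∀ {x y : ℤ}, x ≤ y → L * x ≤ L * y := fun hL _ _ h =>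
    mul_le_mul_of_nonneg_left h hL.le
  have mono1 : ∀ {L : ℤ}, 0 < L → ∀ {x y : ℤ}, x + 1 ≤ y → L * x + L ≤ L * y := by
    intro L hL x y h
    have := mul_le_mul_of_nonneg_left h hL.le
    rw [mul_add, mul_one] at this
    exact this
  have rng0 : ∀ {y : ℤ}, 0 ≤ y → 0 ≤ L * y := fun h => mul_nonneg hL0.le h
  have rng1 : ∀ {y : ℤ}, y ≤ D → L * y ≤ L * D := fun h => mono hL0 h
  -- points
  have P1 : ∀ {n n' : N} {h h' : ℤ}, 0 ≤ h → h ≤ L * D → 0 ≤ h' → h' ≤ L * D → ∀ {g g' : Γ},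
      g ∈ cell TN t lam n h → g' ∈ cell TN t lam n' h' → (L ≤ h - h' ∨ L ≤ h' - h) →
      K ≤ (mulCayley S).dist g g' := by
    intro n n' h h' h0 h1 h0' h1' g g' hg hg' hh
    refine cell_far1 C h0 h1 h0' h1' hg hg' ?_
    rcases hh with hh | hh
    · rw [abs_of_nonneg] <;> omega
    · rw [abs_of_nonpos] <;> omega
  have P2 : ∀ {x x' : ℤ} {h h' : ℤ}, 0 ≤ h → h ≤ L * D → 0 ≤ h' → h' ≤ L * D → ∀ {g g' : Γ},
      g ∈ cell TN t lam (γ x) h → g' ∈ cell TN t lam (γ x') h' → (M ≤ x - x' ∨ M ≤ x' - x) →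
      K ≤ (mulCayley S).dist g g' := by
    intro x x' h h' h0 h1 h0' h1' g g' hg hg' hh
    refine cell_far2 hW fN gN C h0 h1 h0' h1' hg hg' ?_
    have h2 := hγ x x'
    rcases hh with hh | hh
    · rw [abs_of_nonneg (by omega)] at h2; omega
    · rw [abs_of_nonpos (by omega)] at h2; omega
  have P3 : ∀ {x : ℤ} {h h' : ℤ}, 0 ≤ h → h ≤ L * D → 0 ≤ h' → h' ≤ L * D → ∀ {g g' : Γ},
      g ∈ cell TN t lam (f R) h → g' ∈ cell TN t lam (γ x) h' →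
      K ≤ (mulCayley S).dist g g' := by
    intro x h h' h0 h1 h0' h1' g g' hg hg'
    refine cell_far2 hW fN gN C h0 h1 h0' h1' hg hg' ?_
    have h2 := hf2 R le_rfl x
    omega
  have P4 : ∀ {s : ℕ} {x : ℤ} {h h' : ℤ}, s ≤ R → 0 ≤ h → h ≤ L * D → 0 ≤ h' → h' ≤ L * D →
      ∀ {g g' : Γ}, g ∈ cell TN t lam (f s) h → g' ∈ cell TN t lam (γ x) h' →
      (M ≤ x ∨ M ≤ -x) → K ≤ (mulCayley S).dist g g' := by
    intro s x h h' hs h0 h1 h0' h1' g g' hg hg' hx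
    refine cell_far2 hW fN gN C h0 h1 h0' h1' hg hg' ?_
    have h2 := hf2 s hs x
    have h3 := dist_seq hW fN gN hf1 s
    rw [hf0] at h3
    have h4 := hγ 0 x
    have h5 := hcN.dist_triangle (u := γ 0) (v := f s) (w := γ x)
    rcases hx with hx | hx
    · rw [abs_of_nonpos (by omega)] at h4; omega
    · rw [abs_of_nonneg (by omega)] at h4; omega
  refine ⟨⟨fun z => (γ (M * z.1) : Γ) * t ^ (L * z.2),
    fun z w => cells TN t lam (rectI γ (M * z.1) (M * w.1) (L * z.2) (L * w.2)),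
    fun y => cells TN t lam (ovpI f R (L * (2 * y - 1)) (L * (2 * y + 1))), ?_, ?_, ?_, ?_, ?_⟩⟩
  · rintro ⟨x, y⟩ ⟨x', y'⟩ h hy0 hy1
    simp only at hy0 hy1
    have hx : x ≤ x' := by rcases h with h | h <;> simp only at h <;> omega
    have hy : y ≤ y' := by rcases h with h | h <;> simp only at h <;> omega
    have hc := conn_rectI hγ1 (mono hM0 hx) (mono hL0 hy)
    refine ⟨cconn_cells hW fN gN C hc.1 ?_ hc.2,
      ⟨_, ⟨_, _, le_rfl, mono hM0 hx, le_rfl, mono hL0 hy, rfl⟩, base_mem_cell _ _⟩,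
      ⟨_, ⟨_, _, mono hM0 hx, le_rfl, mono hL0 hy, le_rfl, rfl⟩, base_mem_cell _ _⟩⟩
    rintro _ ⟨u, v, a1, a2, a3, a4, rfl⟩
    exact ⟨(rng0 hy0).trans a3, a4.trans (rng1 hy1)⟩
  · intro y hy0 hy1
    have hy : L * (2 * y - 1) ≤ L * (2 * y + 1) := mono hL0 (by omega)
    have hc := conn_ovpI hf1 (R := R) hy
    refine ⟨cconn_cells hW fN gN C hc.1 ?_ hc.2, ⟨(f 0, L * (2 * y - 1)),
      ⟨0, _, Nat.zero_le _, le_rfl, hy, Or.inr (Or.inl rfl), rfl⟩, ?_⟩,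
      ⟨(f 0, L * (2 * y + 1)), ⟨0, _, Nat.zero_le _, hy, le_rfl, Or.inr (Or.inr rfl), rfl⟩, ?_⟩⟩
    · rintro _ ⟨u, v, a1, a2, a3, a4, rfl⟩
      exact ⟨(rng0 hy0).trans a2, a3.trans (rng1 hy1)⟩
    · rw [mul_zero, ← hf0]
      exact base_mem_cell _ _
    · rw [mul_zero, ← hf0]
      exact base_mem_cell _ _
  · rintro ⟨x₁, y₁⟩ ⟨x₂, y₂⟩ ⟨x₁', y₁'⟩ ⟨x₂', y₂'⟩ h h' r1 r2 r3 r4 n1 n2 n3 n4
      g ⟨_, ⟨u, v, a1, a2, a3, a4, rfl⟩, hg⟩ g' ⟨_, ⟨u', v', b1, b2, b3, b4, rfl⟩, hg'⟩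
    simp only [Step, ne_eq, Prod.mk.injEq] at h h' n1 n2 n3 n4 a1 a2 a3 a4 b1 b2 b3 b4 r1 r2 r3 r4
    have q1 := (rng0 r1).trans a3
    have q2 := a4.trans (rng1 r2)
    have q3 := (rng0 r3).trans b3
    have q4 := b4.trans (rng1 r4)
    have hs : x₂ + 1 ≤ x₁' ∨ x₂' + 1 ≤ x₁ ∨ y₂ + 1 ≤ y₁' ∨ y₂' + 1 ≤ y₁ := by omega
    rcases hs with hs | hs | hs | hs
    · have := mono1 hM0 hs
      exact P2 q1 q2 q3 q4 hg hg' (Or.inr (by omega))
    · have := mono1 hM0 hs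
      exact P2 q1 q2 q3 q4 hg hg' (Or.inl (by omega))
    · have := mono1 hL0 hs
      exact P1 q1 q2 q3 q4 hg hg' (Or.inr (by omega))
    · have := mono1 hL0 hs
      exact P1 q1 q2 q3 q4 hg hg' (Or.inl (by omega))
  · rintro y ⟨x₁, y₁⟩ ⟨x₂, y₂⟩ h r1 r2 r3 r4 n1 n2 n3 n4
      g ⟨_, ⟨s, k, a1, a2, a3, a4, rfl⟩, hg⟩ g' ⟨_, ⟨u', v', b1, b2, b3, b4, rfl⟩, hg'⟩
    simp only [Step, ne_eq, Prod.mk.injEq] at h n1 n2 n3 n4 b1 b2 b3 b4 r3 r4 hg hg'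
    have q1 := (rng0 r1).trans a2
    have q2 := a3.trans (rng1 r2)
    have q3 := (rng0 r3).trans b3
    have q4 := b4.trans (rng1 r4)
    rcases a4 with a4 | a4 | a4
    · rw [a4] at hg
      exact P3 q1 q2 q3 q4 hg hg'
    · have hs : 0 + 1 ≤ x₁ ∨ x₂ + 1 ≤ 0 ∨ (2 * y - 1) + 1 ≤ y₁ ∨ y₂ + 1 ≤ 2 * y - 1 := by omega
      rcases hs with hs | hs | hs | hs
      · have := mono1 hM0 hs
        exact P4 a1 q1 q2 q3 q4 hg hg' (Or.inl (by omega))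
      · have := mono1 hM0 hs
        exact P4 a1 q1 q2 q3 q4 hg hg' (Or.inr (by omega))
      · have := mono1 hL0 hs
        exact P1 q1 q2 q3 q4 hg hg' (Or.inr (by omega))
      · have := mono1 hL0 hs
        exact P1 q1 q2 q3 q4 hg hg' (Or.inl (by omega))
    · have hs : 0 + 1 ≤ x₁ ∨ x₂ + 1 ≤ 0 ∨ (2 * y + 1) + 1 ≤ y₁ ∨ y₂ + 1 ≤ 2 * y + 1 := by omega
      rcases hs with hs | hs | hs | hs
      · have := mono1 hM0 hs
        exact P4 a1 q1 q2 q3 q4 hg hg' (Or.inl (by omega))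
      · have := mono1 hM0 hs
        exact P4 a1 q1 q2 q3 q4 hg hg' (Or.inr (by omega))
      · have := mono1 hL0 hs
        exact P1 q1 q2 q3 q4 hg hg' (Or.inr (by omega))
      · have := mono1 hL0 hs
        exact P1 q1 q2 q3 q4 hg hg' (Or.inl (by omega))
  · rintro y y' r1 r2 h g ⟨_, ⟨s, k, a1, a2, a3, a4, rfl⟩, hg⟩ g' ⟨_, ⟨s', k', b1, b2, b3, b4, rfl⟩, hg'⟩
    have := mono1 hL0 (show (2 * y + 1) + 1 ≤ 2 * y' - 1 by omega)
    have q1 := (rng0 r1).trans a2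
    have q2 := a3.trans (rng1 (show 2 * y + 1 ≤ D by omega))
    have q3 := (rng0 (show 0 ≤ 2 * y' - 1 by omega)).trans b2
    have q4 := b3.trans (rng1 r2)
    exact P1 q1 q2 q3 q4 hg hg' (Or.inr (by omega))

end Pool.Agent.W5h94.AM
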