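import Pool.Agent.W5h94.AM.Semi
import Pool.Agent.W5h94.AM.Ext

set_option autoImplicit false

/-!
# Asymptotic minors of groups with an infinite finitely generated normal subgroup: second case
-/

open SimpleGraph

namespace Pool.Agent.W5h94.AM

theorem semi_main (hW : S_WM) (hL : S_LINE) (hF : S_FLAP1) (hR : S_ROUTEB) {Γ : Type} [Group Γ]
    {S : Set Γ} (fS : S.Finite) (gS : Subgroup.closure S = ⊤) {N : Subgroup Γ} (hN : N.FG)
    (hinf : Infinite N) (hvc : ∀ g : N, ¬ (Subgroup.zpowers g).FiniteIndex) {t : Γ}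
    (hconj : ∀ (h : ℤ) (n : N), t ^ h * n * t ^ (-h) ∈ N) (htor : ∀ k : ℤ, t ^ k ∈ N → k = 0)
    {W : Type} [Finite W] (H : SimpleGraph W) : AsymptoticMinor H (mulCayley S) := by
  intro K _
  obtain ⟨TN, fN, gN⟩ := exists_gen ((Group.fg_iff_subgroup_fg N).2 hN)
  obtain ⟨γ, hγ⟩ := hL N TN fN gN
  obtain ⟨c, hct, hcn⟩ := exists_scale (t := t) hW fS gS fN gN
  obtain ⟨C1, hC⟩ := exists_cst hW fS gS fN gN hconj htor hct hcn (K + 2 * c)
  obtain ⟨D, hD⟩ := hR (Nat.card W)
  have hfl : ∀ R, ∃ γ : ℤ → N, (∀ x y, ((mulCayley TN).dist (γ x) (γ y) : ℤ) = |x - y|) ∧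
      HasFlap TN γ R 0 := by
    intro R
    obtain ⟨x₀, f, hf0, hf1, hf2⟩ := hF N TN fN gN hvc γ hγ R
    refine ⟨fun x => γ (x + x₀), fun x y => ?_, f, ?_, hf1, fun s hs x => hf2 s hs _⟩
    · rw [hγ]
      congr 1
      ring
    · rw [hf0]
      simp
  obtain ⟨O⟩ := exists_overB hW fN gN hC hfl D
  obtain ⟨B, P, h1, h2, h3, h4, h5, h6⟩ := hD Γ (mulCayley S) c (K + 2 * c) O
  let e : W ≃ Fin (Nat.card W) := Finite.equivFin W
  have hdiag : ∀ s ∈ H.edgeSet, ¬ (Sym2.map e s).IsDiag := by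
    intro s hs
    rw [Sym2.isDiag_map e.injective]
    exact H.not_isDiag_of_mem_edgeSet hs
  have hmem : ∀ (w : W) (s : Sym2 W), e w ∈ Sym2.map e s ↔ w ∈ s := by
    intro w s
    rw [Sym2.mem_map]
    constructor
    · rintro ⟨a, ha, hae⟩
      rwa [← e.injective hae]
    · exact fun h => ⟨w, h, rfl⟩
  refine thick Γ W (mulCayley S) (hW Γ S fS gS).1 H c K (fun w => B (e w))
    (fun s => P (Sym2.map e s)) (fun w => h1 _) (fun s hs => h2 _ (hdiag s hs)) ?_ ?_ ?_ ?_
  · intro s hs v hv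
    exact h3 _ (hdiag s hs) _ ((hmem v s).2 hv)
  · intro u v huv
    exact h4 _ _ (e.injective.ne huv)
  · intro s hs s' hs' hss
    exact h5 _ _ (hdiag s hs) (hdiag s' hs') ((Sym2.map.injective e.injective).ne hss)
  · intro s hs w hw
    exact h6 _ (hdiag s hs) _ (fun h => hw ((hmem w s).1 h))

theorem both_main (hW : S_WM) (hL : S_LINE) (hF : S_FLAP1) (hFs : S_FLAPS) (hR : S_ROUTEB)
    {Γ : Type} [Group Γ] {S : Set Γ} (fS : S.Finite) (gS : Subgroup.closure S = ⊤)
    {G N : Subgroup Γ} (hNG : N ≤ G) (hnor : (N.subgroupOf G).Normal) (hG : G.FG) (hN : N.FG)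
    (hinf : Infinite N) (hind : N.relIndex G = 0)
    (hvc : (∀ g ∈ G, (Subgroup.zpowers g ⊔ N).relIndex G = 0) ∨
      ∀ g ∈ N, (Subgroup.zpowers g).relIndex N = 0)
    {W : Type} [Finite W] (H : SimpleGraph W) : AsymptoticMinor H (mulCayley S) := by
  by_cases hcase : ∀ g ∈ G, (Subgroup.zpowers g ⊔ N).relIndex G = 0
  · exact ext_main hW hL hFs fS gS hNG hnor hG hN hinf hcase H
  have hvcN := hvc.resolve_left hcase
  push Not at hcase
  obtain ⟨t, ht, hti⟩ := hcase
  refine semi_main hW hL hF hR fS gS hN hinf ?_ (t := t) ?_ ?_ H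
  · intro g hfi
    apply hfi.index_ne_zero
    have h1 := hvcN g g.2
    have h2 : (Subgroup.zpowers (g : Γ)).subgroupOf N = Subgroup.zpowers g := by
      ext x
      rw [Subgroup.mem_subgroupOf, Subgroup.mem_zpowers_iff, Subgroup.mem_zpowers_iff]
      constructor
      · rintro ⟨k, hk⟩
        exact ⟨k, Subtype.ext (by push_cast; exact hk)⟩
      · rintro ⟨k, hk⟩
        exact ⟨k, by rw [← hk]; push_cast; rfl⟩
    rw [← h2]
    exact h1
  · intro h n
    have h1 : (⟨(n : Γ), hNG n.2⟩ : G) ∈ N.subgroupOf G := by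
      rw [Subgroup.mem_subgroupOf]
      exact n.2
    have h2 := hnor.conj_mem _ h1 ⟨t ^ h, Subgroup.zpow_mem _ ht h⟩
    rw [Subgroup.mem_subgroupOf] at h2
    push_cast at h2
    rwa [zpow_neg]
  · intro k hk
    by_contra hk0
    let π : G →* G ⧸ N.subgroupOf G := QuotientGroup.mk' (N.subgroupOf G)
    have hsurj : Function.Surjective π := QuotientGroup.mk'_surjective _
    have hker : ∀ a : G, π a = 1 ↔ (a : Γ) ∈ N := by
      intro a
      rw [← MonoidHom.mem_ker, QuotientGroup.ker_mk', Subgroup.mem_subgroupOf]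
    set t' : G := ⟨t, ht⟩ with ht'
    have h1 : (Subgroup.zpowers t ⊔ N).subgroupOf G ≤
        (Subgroup.zpowers (π t')).comap π := by
      have h2 : Subgroup.zpowers t ⊔ N ≤ ((Subgroup.zpowers (π t')).comap π).map G.subtype := by
        refine sup_le (Subgroup.zpowers_le.2 ⟨t', Subgroup.mem_zpowers _, rfl⟩) ?_
        intro n hn
        refine ⟨⟨n, hNG hn⟩, ?_, rfl⟩
        have h0 : π ⟨n, hNG hn⟩ = 1 := (hker _).2 hn
        change π ⟨n, hNG hn⟩ ∈ Subgroup.zpowers (π t')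
        rw [h0]
        exact Subgroup.one_mem _
      intro x hx
      obtain ⟨y, hy, hyx⟩ := h2 hx
      rwa [← Subtype.ext hyx]
    have h3 := Subgroup.index_dvd_of_le h1
    rw [Subgroup.index_comap_of_surjective _ hsurj] at h3
    have h4 : (Subgroup.zpowers (π t')).index ≠ 0 := by
      intro h5
      rw [h5] at h3
      exact hti (zero_dvd_iff.1 h3)
    have h5 : Nat.card (Subgroup.zpowers (π t')) ≠ 0 := by
      rw [Nat.card_zpowers, orderOf_ne_zero_iff]
      refine isOfFinOrder_iff_zpow_eq_one.2 ⟨k, hk0, ?_⟩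
      rw [← map_zpow]
      exact (hker _).2 hk
    have h6 := Subgroup.card_mul_index (Subgroup.zpowers (π t'))
    have h7 : Nat.card (G ⧸ N.subgroupOf G) = 0 := hind
    rw [h7] at h6
    exact (mul_ne_zero h5 h4) h6

end Pool.Agent.W5h94.AM
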